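import Pool.Agent.P.MP_c88791_an.Gap

/-! The index computation in finite models. -/

noncomputable section
open scoped Topology Classical
open Filter

namespace Pool.Agent.P.MP_c88791_an

variable {Λ Ω Ω₀ : Type} [AddCommGroup Λ] [LinearOrder Λ]

theorem rho_fmul_all {M : Model Λ Ω} (h : ∀ X, M.Adm X) (t u : F Λ) :
    M.rho (fmul t u) = M.rho t * M.rho u := by
  obtain ⟨X, hX⟩ := ev_adm.1 (ev_fmul (Ω := Ω) t u)
  exact hX M (h X)

section

variable {M₀ : Model Λ Ω₀} {θ : Λ →+ ℝ} (hT : M₀.IsTrue θ) (hθ : StrictMono θ)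
  (hA : ∀ X, M₀.Adm X)
include hT hθ hA

theorem ev_mul_eq {t u v : F Λ} (h : M₀.rho t * M₀.rho u = M₀.rho v) :
    ∀ᶠ M in admF Λ Ω, M.rho t * M.rho u = M.rho v := by
  filter_upwards [hT.ev hθ (fmul t u - v), ev_fmul t u] with M h1 h2
  rw [map_sub, map_sub, rho_fmul_all hA, h, h2, sub_self, norm_zero, mul_zero] at h1
  exact sub_eq_zero.1 (norm_le_zero_iff.1 h1)

theorem ev_WS {I : Finset ℤ} {β : Λ} {t : F Λ} (h : WS M₀ I β (M₀.rho t)) :
    ∀ᶠ M in admF Λ Ω, WS M I β (M.rho t) :=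
  (ev_mul_eq hT hθ hA h.1).and (ev_mul_eq hT hθ hA h.2)

theorem ev_PI {t : F Λ} (h1 : ‖M₀.rho t‖ ≤ 11 / 10)
    (h2 : ‖M₀.rho t * star (M₀.rho t) * M₀.rho t - M₀.rho t‖ ≤ 1 / 5000) :
    ∀ᶠ M in admF Λ Ω, ‖M.rho t‖ ≤ 11 / 5 ∧
      ‖M.rho t * star (M.rho t) * M.rho t - M.rho t‖ ≤ 1 / 2500 := by
  filter_upwards [hT.ev hθ t, hT.ev hθ (fmul (fmul t (fstar t)) t - t), ev_fmul t (fstar t),
    ev_fmul (fmul t (fstar t)) t] with M a1 a2 a3 a4
  rw [map_sub, map_sub, rho_fmul_all hA, rho_fmul_all hA, a4, a3, Model.rho_fstar,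
    Model.rho_fstar] at a2
  exact ⟨by linarith, by linarith⟩

theorem ev_close {t u v w e : F Λ}
    (h : ‖M₀.rho e + M₀.rho v * M₀.rho w - M₀.rho t * M₀.rho u‖ ≤ 1 / 5000) :
    ∀ᶠ M in admF Λ Ω, ‖M.rho e + M.rho v * M.rho w - M.rho t * M.rho u‖ ≤ 1 / 2000 := by
  filter_upwards [hT.ev hθ (e + fmul v w - fmul t u), ev_fmul t u, ev_fmul v w] with M a1 a2 a3
  rw [map_sub, map_sub, map_add, map_add, rho_fmul_all hA, rho_fmul_all hA, a2, a3] at a1
  linarith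

end

theorem norm_star' (b : B Ω) : ‖star b‖ = ‖b‖ := norm_star b

theorem PI_left {b : B Ω} (h1 : ‖b‖ ≤ 11 / 5) (h2 : ‖b * star b * b - b‖ ≤ 1 / 2500) :
    ‖star b * b‖ ≤ 49 / 10 ∧ ‖star b * b - star b * b * (star b * b)‖ ≤ 1 / 1000 := by
  have e : star b * b - star b * b * (star b * b) = -(star b * (b * star b * b - b)) := by
    noncomm_ring
  have a1 := norm_mul_le (star b) b
  have a2 := norm_mul_le (star b) (b * star b * b - b)
  rw [norm_star' b] at a1 a2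
  rw [e, norm_neg]
  constructor <;> nlinarith [norm_nonneg b, norm_nonneg (b * star b * b - b)]

theorem PI_right {b : B Ω} (h1 : ‖b‖ ≤ 11 / 5) (h2 : ‖b * star b * b - b‖ ≤ 1 / 2500) :
    ‖b * star b‖ ≤ 49 / 10 ∧ ‖b * star b - b * star b * (b * star b)‖ ≤ 1 / 1000 := by
  have e : b * star b - b * star b * (b * star b) = -((b * star b * b - b) * star b) := by
    noncomm_ring
  have a1 := norm_mul_le b (star b)
  have a2 := norm_mul_le (b * star b * b - b) (star b)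
  rw [norm_star' b] at a1 a2
  rw [e, norm_neg]
  constructor <;> nlinarith [norm_nonneg b, norm_nonneg (b * star b * b - b)]

theorem AP.of_le {x : B Ω} (h : ‖x‖ ≤ 49 / 10 ∧ ‖x - x * x‖ ≤ 1 / 1000) : AP x :=
  ⟨by linarith [h.1], by linarith [h.2]⟩

omit [LinearOrder Λ] in
theorem WS.star_mul {M : Model Λ Ω} {I : Finset ℤ} {β : Λ} {b : B Ω} (h : WS M I β b) :
    WS M I β (star b * b) := by
  have hst : star (M.rho (fe I β)) = M.rho (fe I β) := by
    rw [rho_fe, StarMul.star_mul, star_sub, Model.P_star, Model.P_star, Model.sumE_star, sub_mul,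
      mul_sub]
    simp only [Finset.mul_sum, Finset.sum_mul, Model.P_E]
  exact ⟨by rw [← mul_assoc, ← hst, ← StarMul.star_mul, h.2], by rw [mul_assoc, h.2]⟩

omit [LinearOrder Λ] in
theorem rk_fe (ν : Module.Dual ℤ Λ) (i : ℤ) {β : Λ} (h : 0 ≤ ν β) :
    rk ((nm ν).rho (fe {i} β)) = ν β := by
  rw [nm_fe ν _ h, rk_ind, Finset.card_product, Finset.card_singleton, one_mul, Int.card_Ico,
    sub_zero]
  exact_mod_cast Int.toNat_of_nonneg h

theorem abs_core [Module.Free ℤ Λ] [Module.Finite ℤ Λ] {M₀ : Model Λ Ω₀} {θ : Λ →+ ℝ}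
    (hT : M₀.IsTrue θ) (hθ : StrictMono θ) (hA : ∀ X, M₀.Adm X) (R : Fin 3 → F Λ)
    {I : Finset ℤ} {β N K : Λ} {i j : ℤ} (hβ : 0 ≤ β) (hN : 0 ≤ N) (hK : 0 ≤ K)
    (h1 : ∀ m, ‖M₀.rho (R m)‖ ≤ 11 / 10)
    (h2 : ∀ m, ‖M₀.rho (R m) * star (M₀.rho (R m)) * M₀.rho (R m) - M₀.rho (R m)‖ ≤ 1 / 5000)
    (h3 : ∀ m, WS M₀ I β (M₀.rho (R m))) (h4 : WS M₀ I β (M₀.rho (fe {i} N)))
    (h5 : WS M₀ I β (M₀.rho (fe {j} K)))
    (h6 : ‖M₀.rho (fe {i} N) + M₀.rho (R 1) * star (M₀.rho (R 1)) -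
      M₀.rho (R 0) * star (M₀.rho (R 0))‖ ≤ 1 / 5000)
    (h7 : ‖M₀.rho (fe {j} K) + star (M₀.rho (R 1)) * M₀.rho (R 1) -
      star (M₀.rho (R 2)) * M₀.rho (R 2)‖ ≤ 1 / 5000)
    (h8 : M₀.rho (fe {i} N) * M₀.rho (R 1) = 0) (h9 : M₀.rho (R 1) * M₀.rho (fe {j} K) = 0) :
    ∃ γ : Λ,
      Tendsto (fun k => tau (fun a => (θ a : ℂ)) (fqk k (fmul (fstar (R 0)) (R 0)))) atTop
        (𝓝 (θ γ)) ∧
      Tendsto (fun k => tau (fun a => (θ a : ℂ)) (fqk k (fmul (fstar (R 2)) (R 2)))) atTop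
        (𝓝 (θ γ - θ N + θ K)) := by
  obtain ⟨ν, hν⟩ := exists_seq θ
  have hc := tendsto_cone hθ hν
  have : (coneF Λ).NeBot := hc.neBot
  have p := fun m => ev_PI (Ω := ZZ) hT hθ hA (h1 m) (h2 m)
  have w := fun m => ev_WS (Ω := ZZ) hT hθ hA (h3 m)
  have g : ∀ m, ∀ᶠ M in admF Λ ZZ, Gd M I β (fmul (fstar (R m)) (R m)) := fun m => by
    filter_upwards [p m, w m, ev_fmul (fstar (R m)) (R m)] with M a1 a2 a3
    rw [Gd, a3, Model.rho_fstar]
    exact ⟨AP.of_le (PI_left a1.1 a1.2), a2.star_mul⟩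
  obtain ⟨γ, hγ⟩ := gap_add hβ (g 0)
  rw [← Model.rho_fstar, ← Model.rho_fstar] at h6 h7
  have key : ∀ᶠ ν in coneF Λ, rk ((nm ν).rho (fmul (fstar (R 2)) (R 2))) = ν γ - ν N + ν K := by
    filter_upwards [hγ, ev_nonneg hβ, ev_nonneg hN, ev_nonneg hK, tendsto_nm.eventually (p 0),
      tendsto_nm.eventually (p 1), tendsto_nm.eventually (p 2), tendsto_nm.eventually (w 0),
      tendsto_nm.eventually (w 1), tendsto_nm.eventually (w 2),
      tendsto_nm.eventually (ev_WS hT hθ hA h4), tendsto_nm.eventually (ev_WS hT hθ hA h5),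
      tendsto_nm.eventually (ev_close hT hθ hA h6), tendsto_nm.eventually (ev_close hT hθ hA h7),
      tendsto_nm.eventually (ev_mul_eq hT hθ hA (v := 0) (by rw [h8, map_zero])),
      tendsto_nm.eventually (ev_mul_eq hT hθ hA (v := 0) (by rw [h9, map_zero])),
      tendsto_nm.eventually (ev_fmul (fstar (R 0)) (R 0)),
      tendsto_nm.eventually (ev_fmul (fstar (R 2)) (R 2))]
      with ν e0 b1 b2 b3 p0 p1 p2 w0 w1 w2 w4 w5 c6 c7 c8 c9 m0 m2
    rw [m0, Model.rho_fstar] at e0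
    rw [m2, Model.rho_fstar]
    rw [Model.rho_fstar, Model.rho_fstar] at c6 c7
    rw [map_zero] at c8 c9
    have s0 := w0.supp_nm b1
    have s1 := w1.supp_nm b1
    have s2 := w2.supp_nm b1
    have s4 := w4.supp_nm b1
    have s5 := w5.supp_nm b1
    have r4 := rk_fe ν i b2
    have r5 := rk_fe ν j b3
    have a4 : AP ((nm ν).rho (fe {i} N)) := by rw [nm_fe ν _ b2]; exact AP_ind _
    have a5 : AP ((nm ν).rho (fe {j} K)) := by rw [nm_fe ν _ b3]; exact AP_ind _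
    have t4 : star ((nm ν).rho (fe {i} N)) = (nm ν).rho (fe {i} N) := by
      rw [nm_fe ν _ b2]; exact ind_star _
    have t5 : star ((nm ν).rho (fe {j} K)) = (nm ν).rho (fe {j} K) := by
      rw [nm_fe ν _ b3]; exact ind_star _
    generalize (nm ν).rho (R 0) = x0 at *
    generalize (nm ν).rho (R 1) = x1 at *
    generalize (nm ν).rho (R 2) = x2 at *
    generalize (nm ν).rho (fe {i} N) = e4 at *
    generalize (nm ν).rho (fe {j} K) = e5 at *
    have c8' : star x1 * e4 = 0 := by rw [← t4, ← star_mul, c8, star_zero]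
    have c9' : e5 * star x1 = 0 := by rw [← t5, ← star_mul, c9, star_zero]
    have q0 := rk_swap s0.star s0 (AP.of_le (PI_left p0.1 p0.2)) (AP.of_le (PI_right p0.1 p0.2))
    have q1 := rk_swap s1.star s1 (AP.of_le (PI_left p1.1 p1.2)) (AP.of_le (PI_right p1.1 p1.2))
    have q2 := rk_close (s0.mul s0.star) (s4.add (s1.mul s1.star)) (PI_right p0.1 p0.2).1
      (PI_right p0.1 p0.2).2 c6
    have q3 := rk_close (s2.star.mul s2) (s5.add (s1.star.mul s1)) (PI_left p2.1 p2.2).1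
      (PI_left p2.1 p2.2).2 c7
    have q4 := rk_add s4 (s1.mul s1.star) a4 (AP.of_le (PI_right p1.1 p1.2))
      (by rw [← mul_assoc, c8, zero_mul]) (by rw [mul_assoc, c8', mul_zero])
    have q5 := rk_add s5 (s1.star.mul s1) a5 (AP.of_le (PI_left p1.1 p1.2))
      (by rw [← mul_assoc, c9', zero_mul]) (by rw [mul_assoc, c9, mul_zero])
    linear_combination q3 + q5 + r5 + q1 - q4 - q2 - q0 + e0 - r4
  refine ⟨γ, gap_dens hθ hν hβ (g 0) ?_, gap_dens hθ hν hβ (g 2) ?_⟩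
  · refine (tendsto_seq_c hν γ).congr' ?_
    filter_upwards [hc.eventually hγ] with T h
    rw [h]
  · refine (((tendsto_seq_c hν γ).sub (tendsto_seq_c hν N)).add (tendsto_seq_c hν K)).congr' ?_
    filter_upwards [hc.eventually key] with T h
    rw [h]; ring

end Pool.Agent.P.MP_c88791_an
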