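import Pool.Agent.P.MP_c88791_an.Grp

/-! Approximation of elements of the crossed product by finite sums, and their truncations. -/

noncomputable section
open scoped Topology Classical
open Filter

namespace Pool.Agent.P.MP_c88791_an

variable {l : ℝ} [hl : Fact (0 < l ∧ l ≠ 1)]

def hp (a : Gam l) : B (Om l) := ind {ω | (a : ℝ) ≤ pos ω}

def hgen (n : Gam l × Grp l) : B (Om l) := hp n.1 * perm (lm n.2)

theorem lm_hp (g : Grp l) (b : Gam l) : perm (lm g) * hp b = hp (gact g b) * perm (lm g) := by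
  rw [hp, hp, perm_ind, lm_symm]
  congr 1
  refine ind_congr fun ω => ?_
  simp only [Set.mem_preimage, Set.mem_ofPred_eq, pos_lm, gact_coe]
  rw [← (ga_mono g).le_iff_le, ga_inv]

omit hl in
theorem hp_mul (a b : Gam l) : hp a * hp b = hp (max a b) := by
  rw [hp, hp, hp, ind_mul]
  refine ind_congr fun ω => ?_
  rcases le_total a b with h | h
  · have h' : (a : ℝ) ≤ b := h
    rw [max_eq_right h]
    exact ⟨fun x => x.2, fun x => ⟨h'.trans x, x⟩⟩
  · have h' : (b : ℝ) ≤ a := h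
    rw [max_eq_left h]
    exact ⟨fun x => x.1, fun x => ⟨x, h'.trans x⟩⟩

theorem hgen_mul (n m : Gam l × Grp l) :
    hgen n * hgen m = hgen (max n.1 (gact n.2 m.1), n.2 * m.2) := by
  simp only [hgen]
  rw [mul_assoc, ← mul_assoc (perm _), lm_hp, mul_assoc, perm_mul, lm_mul, ← mul_assoc, hp_mul]

theorem hgen_star (n : Gam l × Grp l) : star (hgen n) = hgen (gact n.2⁻¹ n.1, n.2⁻¹) := by
  simp only [hgen]
  rw [star_mul, perm_star, hp, ind_star, ← hp, ← lm_hp]
  rfl

def TSp (l : ℝ) : Submodule ℂ (B (Om l)) := Submodule.span ℂ (Set.range (hgen (l := l)))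

theorem TSp_mul {a b : B (Om l)} (ha : a ∈ TSp l) (hb : b ∈ TSp l) : a * b ∈ TSp l := by
  induction ha using Submodule.span_induction with
  | zero => simp
  | add _ _ _ _ h1 h2 => rw [add_mul]; exact add_mem h1 h2
  | smul c _ _ h => rw [smul_mul_assoc]; exact Submodule.smul_mem _ c h
  | mem a ha =>
    induction hb using Submodule.span_induction with
    | zero => simp
    | add _ _ _ _ h1 h2 => rw [mul_add]; exact add_mem h1 h2
    | smul c _ _ h => rw [mul_smul_comm]; exact Submodule.smul_mem _ c h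
    | mem b hb =>
      obtain ⟨n, rfl⟩ := ha
      obtain ⟨m, rfl⟩ := hb
      rw [hgen_mul]
      exact Submodule.subset_span ⟨_, rfl⟩

theorem TSp_star {a : B (Om l)} (ha : a ∈ TSp l) : star a ∈ TSp l := by
  induction ha using Submodule.span_induction with
  | zero => simp
  | add _ _ _ _ h1 h2 => rw [star_add]; exact add_mem h1 h2
  | smul c _ _ h => rw [star_smul]; exact Submodule.smul_mem _ _ h
  | mem a ha =>
    obtain ⟨n, rfl⟩ := ha
    rw [hgen_star]
    exact Submodule.subset_span ⟨_, rfl⟩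

def TS (l : ℝ) [Fact (0 < l ∧ l ≠ 1)] : NonUnitalStarSubalgebra ℂ (B (Om l)) where
  carrier := TSp l
  zero_mem' := zero_mem _
  add_mem' := add_mem
  smul_mem' c _ h := Submodule.smul_mem _ c h
  mul_mem' := TSp_mul
  star_mem' := TSp_star

theorem hgen_mem (n : Gam l × Grp l) : hgen n ∈ TS l := Submodule.subset_span ⟨_, rfl⟩

theorem TS_mul_lm {T : B (Om l)} (h : T ∈ TS l) (g : Grp l) : T * perm (lm g) ∈ TS l := by
  change T ∈ TSp l at h
  induction h using Submodule.span_induction with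
  | zero => simp
  | add _ _ _ _ h1 h2 => rw [add_mul]; exact add_mem h1 h2
  | smul c _ _ h => rw [smul_mul_assoc]; exact SMulMemClass.smul_mem c h
  | mem a ha =>
    obtain ⟨n, rfl⟩ := ha
    rw [hgen, mul_assoc, perm_mul, lm_mul]
    exact hgen_mem (n.1, n.2 * g)

def iv (l : ℝ) (a b : ℝ) : B (Om l) := ind {ω | a ≤ pos ω ∧ pos ω < b}

omit hl in
theorem piOp_chi (a b : ℝ) : piOp l (chi (Set.Ico a b)) = iv l a b := mulOp_chi _ _

omit hl in
theorem iv_eq {a b : Gam l} (h : a ≤ b) : iv l a b = hp a - hp b := by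
  have h' : (a : ℝ) ≤ b := h
  rw [hp, hp, ind_sub (S := {ω | (a : ℝ) ≤ pos ω}) (T := {ω | (b : ℝ) ≤ pos ω})
    fun _ x => h'.trans x]
  exact ind_congr fun ω => by simp

theorem iv_mem {a b : Gam l} (h : a ≤ b) : iv l a b ∈ TS l := by
  have : ∀ a : Gam l, hp a ∈ TS l := fun a => by
    simpa [hgen, lm_one, perm_one] using hgen_mem (a, 1)
  rw [iv_eq h]
  exact sub_mem (this a) (this b)

def piHom (l : ℝ) : Linf ℝ →⋆ₙₐ[ℂ] B (Om l) where
  toFun := piOp l
  map_smul' _ _ := opExt fun _ _ => mul_assoc _ _ _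
  map_zero' := opExt fun _ _ => zero_mul _
  map_add' _ _ := opExt fun _ _ => add_mul _ _ _
  map_mul' _ _ := mulOp_mul _ _ _
  map_star' _ := (mulOp_star _ _).symm

omit hl in
theorem continuous_piHom : Continuous (piHom l) :=
  AddMonoidHomClass.continuous_of_bound (piHom l) 1 fun f => by
    rw [one_mul]
    exact ContinuousLinearMap.opNorm_le_bound _ (norm_nonneg f) fun ξ =>
      lp.norm_le_of_forall_sum_le two_pos' (by positivity) (mul_sum_le f _ ξ)

theorem crossed_le : crossed l ≤ (TS l).topologicalClosure := by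
  refine NonUnitalStarSubalgebra.topologicalClosure_minimal _ ?_
    (NonUnitalStarSubalgebra.isClosed_topologicalClosure _)
  refine NonUnitalStarAlgebra.adjoin_le ?_
  rintro _ ⟨f, hf, g, rfl⟩
  have h1 : C0 l ≤ ((TS l).topologicalClosure).comap (piHom l) := by
    refine NonUnitalStarSubalgebra.topologicalClosure_minimal _ ?_
      ((NonUnitalStarSubalgebra.isClosed_topologicalClosure _).preimage continuous_piHom)
    refine NonUnitalStarAlgebra.adjoin_le ?_
    rintro _ ⟨a, ha, b, hb, hab, rfl⟩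
    refine NonUnitalStarSubalgebra.le_topologicalClosure (TS l) ?_
    change piOp l _ ∈ TS l
    rw [piOp_chi]
    exact iv_mem (a := ⟨a, ha⟩) (b := ⟨b, hb⟩) hab.le
  have h2 : piOp l f ∈ closure (TS l : Set (B (Om l))) := h1 hf
  exact map_mem_closure (f := fun T => T * perm (lm g)) (by fun_prop) h2
    fun T hT => TS_mul_lm hT g

def lc (l : ℝ) : ((Gam l × Grp l) →₀ ℂ) →ₗ[ℂ] B (Om l) := Finsupp.linearCombination ℂ hgen

theorem exists_lc {T : B (Om l)} (h : T ∈ TS l) : ∃ c, lc l c = T :=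
  Finsupp.mem_span_range_iff_exists_finsupp.1 h

def ge (l : ℝ) [Fact (0 < l ∧ l ≠ 1)] (m : ℤ) : B (Om l) := ind {ω | m ≤ lv ω}

theorem hgen_lv (n : Gam l × Grp l) (S : Set ℤ) :
    hgen n * ind {ω | lv ω ∈ S} = ind {ω | lv ω - lev n.2 ∈ S} * hgen n := by
  rw [hgen, mul_assoc, perm_ind, ← mul_assoc, ← mul_assoc, hp, ind_comm]
  congr 2
  refine ind_congr fun ω => ?_
  simp only [Set.mem_preimage, Set.mem_ofPred_eq, lm_symm, lv_lm, lev_inv, neg_add_eq_sub]

theorem one_sub_ge (m : ℤ) : 1 - ge l m = ind {ω | lv ω ∈ Set.Iio m} := by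
  rw [ge, ← ind_compl]
  exact ind_congr fun ω => by simp

theorem band (c : (Gam l × Grp l) →₀ ℂ) : ∃ r : ℕ, ∀ a b : ℤ, b + r ≤ a →
    ge l a * lc l c * (1 - ge l b) = 0 ∧ (1 - ge l b) * lc l c * ge l a = 0 := by
  refine ⟨∑ n ∈ c.support, (lev n.2).natAbs, fun a b hab => ?_⟩
  have h : ∀ n ∈ c.support, (lev n.2).natAbs ≤ ∑ n ∈ c.support, (lev n.2).natAbs := fun n hn =>
    Finset.single_le_sum (f := fun n : Gam l × Grp l => (lev n.2).natAbs)
      (fun _ _ => Nat.zero_le _) hn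
  generalize ∑ n ∈ c.support, (lev n.2).natAbs = r at *
  rw [lc, Finsupp.linearCombination_apply, Finsupp.sum]
  simp only [Finset.mul_sum, Finset.sum_mul, mul_smul_comm, smul_mul_assoc]
  constructor <;> refine Finset.sum_eq_zero fun n hn => ?_
  · have := h n hn
    rw [one_sub_ge, mul_assoc, hgen_lv, ← mul_assoc, ge, ind_mul, ind_eq_zero, zero_mul, smul_zero]
    rintro ω ⟨h1, h2⟩
    simp only [Set.mem_ofPred_eq, Set.mem_Iio] at h1 h2
    omega
  · have := h n hn
    rw [one_sub_ge, mul_assoc, show ge l a = ind {ω | lv ω ∈ Set.Ici a} from rfl, hgen_lv,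
      ← mul_assoc, ind_mul, ind_eq_zero, zero_mul, smul_zero]
    rintro ω ⟨h1, h2⟩
    simp only [Set.mem_ofPred_eq, Set.mem_Iio, Set.mem_Ici] at h1 h2
    omega

def rix (n : Gam l × Grp l) (j : ℤ) : Ix (Gam l) :=
  ⟨j + lev n.2, j, lpw l (-(j + lev n.2)) * n.1, lpw l (-(j + lev n.2)) * off n.2⟩

def Rf (m c : ℤ) : ((Gam l × Grp l) →₀ ℂ) →ₗ[ℂ] F (Gam l) :=
  Finsupp.linearCombination ℂ fun n =>
    ∑ j ∈ Finset.Ico (m - lev n.2) c, Finsupp.single (rix n j) 1

theorem be_rix (n : Gam l × Grp l) (j : ℤ) :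
    (M0 l).be (rix n j) = ind {ω | lv ω = j + lev n.2} * hgen n :=
  opExt fun ξ ω => by
    rw [M0_be, hgen, hp]
    simp only [mul_app, ind_apply, perm_apply, Set.mem_ofPred_eq, rix, lm_symm]
    by_cases h : lv ω = j + lev n.2
    · have e : ((lpw l (-(j + lev n.2)) * n.1 : Gam l) : ℝ) ≤ sc ω ↔ (n.1 : ℝ) ≤ pos ω := by
        rw [sc, h]
        exact mul_le_mul_iff_right₀ (lz_pos _)
      rw [if_pos h]
      simp only [e, h, true_and]
      split_ifs
      · refine congrArg (fun ω => ξ ω) (omExt (l := l) rfl ?_ ?_)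
        · rw [lv_dil, lv_tf, lv_lm, lev_inv]; omega
        · rw [pos_dil, pos_tf, pos_lm, h]
          apply (ga_mono n.2).injective
          rw [ga_inv, ga_eq, ← mul_assoc, ← lz_add]
          push_cast
          rw [lpw_coe, show lev n.2 + (j - (j + lev n.2)) = 0 by ring, zpow_zero]
          linear_combination (-(off n.2 : ℝ)) * lz_cancel' (l := l) (j + lev n.2)
      · rfl
    · rw [if_neg h, if_neg fun h' => h h'.1.symm]

theorem rho_Rf (m c : ℤ) (x : (Gam l × Grp l) →₀ ℂ) :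
    (M0 l).rho (Rf m c x) = ge l m * lc l x * (1 - ge l c) := by
  induction x using Finsupp.induction_linear with
  | zero => simp
  | add a b ha hb => simp only [map_add, ha, hb, mul_add, add_mul]
  | single n a =>
    simp only [Rf, lc, Finsupp.linearCombination_single, map_smul, map_sum, Model.rho_single,
      one_smul, be_rix, mul_smul_comm, smul_mul_assoc]
    congr 1
    rw [← Finset.sum_mul, one_sub_ge, mul_assoc, hgen_lv, ← mul_assoc, ge, ind_mul]
    congr 1
    refine opExt fun ξ ω => ?_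
    rw [_root_.sum_apply, lp.coeFn_sum, Finset.sum_apply]
    simp only [ind_apply, Set.mem_ofPred_eq, Set.mem_inter_iff, Set.mem_Iio, ← sub_eq_iff_eq_add,
      Finset.sum_ite_eq, Finset.mem_Ico, sub_le_sub_iff_right]

def scl (l : ℝ) : Gam l →+ Gam l := AddMonoidHom.mulLeft (lpw l (-1))

omit hl in
theorem scl_coe (a : Gam l) : (scl l a : ℝ) = l ^ (-1 : ℤ) * a := rfl

theorem scl_mono : StrictMono (scl l) := fun a b h => by
  change l ^ (-1 : ℤ) * (a : ℝ) < l ^ (-1 : ℤ) * b
  exact mul_lt_mul_of_pos_left h (lz_pos _)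

theorem mapF_Rf (m c : ℤ) (x : (Gam l × Grp l) →₀ ℂ) :
    mapF (scl l) 1 (Rf m c x) = Rf (m + 1) (c + 1) x := by
  induction x using Finsupp.induction_linear with
  | zero => simp
  | add a b ha hb => simp only [map_add, ha, hb]
  | single n a =>
    simp only [Rf, Finsupp.linearCombination_single, map_smul, map_sum, mapF_single]
    congr 1
    rw [show m + 1 - lev n.2 = m - lev n.2 + 1 by ring, ← Finset.map_add_right_Ico, Finset.sum_map]
    refine Finset.sum_congr rfl fun j _ => ?_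
    congr 1
    have e : l ^ (-1 : ℤ) * l ^ (-(j + lev n.2)) = l ^ (-(j + 1 + lev n.2)) := by
      rw [← lz_add]; congr 1; ring
    refine Ix.ext ?_ rfl (Subtype.ext ?_) (Subtype.ext ?_)
    · change j + lev n.2 + 1 = j + 1 + lev n.2
      ring
    · change l ^ (-1 : ℤ) * (l ^ (-(j + lev n.2)) * _) = l ^ (-(j + 1 + lev n.2)) * _
      rw [← mul_assoc, e]
    · change l ^ (-1 : ℤ) * (l ^ (-(j + lev n.2)) * _) = l ^ (-(j + 1 + lev n.2)) * _
      rw [← mul_assoc, e]

theorem M0_fe (I : Finset ℤ) {β : Gam l} (h : 0 ≤ β) :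
    (M0 l).rho (fe I β) = ind {ω | lv ω ∈ I ∧ 0 ≤ sc ω ∧ sc ω < β} := by
  have h' : ((0 : Gam l) : ℝ) ≤ β := h
  have e : ∑ i ∈ I, (M0 l).E i = ind {ω | lv ω ∈ I} := opExt fun ξ ω => by
    rw [_root_.sum_apply, lp.coeFn_sum, Finset.sum_apply, ind_apply]
    simp only [M0, ind_apply, Set.mem_ofPred_eq, Finset.sum_ite_eq]
  rw [rho_fe, e]
  change _ * (ind {ω | ((0 : Gam l) : ℝ) ≤ sc ω} - ind {ω | (β : ℝ) ≤ sc ω}) = _
  rw [ind_sub (S := {ω | ((0 : Gam l) : ℝ) ≤ sc ω}) (T := {ω | (β : ℝ) ≤ sc ω})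
    fun _ x => h'.trans x, ind_mul]
  exact ind_congr fun ω => by simp

end Pool.Agent.P.MP_c88791_an
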