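import Pool.Agent.P.MP_c88791_an.Alg

/-! If `1_[0,N+k)` and `1_[0,N)` are equivalent in the crossed product then `k ∈ (l-1)Γ`. -/

noncomputable section
open scoped Topology Classical
open Filter

namespace Pool.Agent.P.MP_c88791_an

section est

variable {Ω : Type}

theorem nm3 {a b c : B Ω} {x y z : ℝ} (ha : ‖a‖ ≤ x) (hb : ‖b‖ ≤ y) (hc : ‖c‖ ≤ z) :
    ‖a * b * c‖ ≤ x * y * z :=
  norm_mul_le_of_le (norm_mul_le_of_le ha hb) hc

theorem est_PI {W E E' g h : B Ω} (g1 : star g = g) (g2 : g * g = g) (h1 : star h = h)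
    (h2 : h * h = h) (hE : W * E = W) (c1 : h * E = E * h) (c2 : g * E' = E' * g)
    (hb : (1 - g) * W * (1 - h) = 0) (n1 : ‖W‖ ≤ 11 / 10) (n2 : ‖star W * W - E‖ ≤ 1 / 20000)
    (n3 : ‖W * star W - E'‖ ≤ 1 / 20000) :
    ‖g * W * h‖ ≤ 11 / 10 ∧
      ‖g * W * h * star (g * W * h) * (g * W * h) - g * W * h‖ ≤ 1 / 5000 := by
  have ng := norm_le_one_of_proj g1 g2
  have nh := norm_le_one_of_proj h1 h2
  have ng' : ‖1 - g‖ ≤ 1 := norm_le_one_of_proj (by rw [star_sub, star_one, g1])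
    (by rw [sub_mul, mul_sub, mul_sub, g2]; simp)
  have hb' : star W * (1 - g) = h * (star W * (1 - g)) := by
    have := congrArg star hb
    rw [star_mul, star_mul, star_sub, star_sub, star_one, g1, h1, star_zero, sub_mul, one_mul,
      sub_eq_zero] at this
    exact this
  have a1 : ‖g * W * h‖ ≤ 11 / 10 := by simpa using nm3 ng n1 nh
  refine ⟨a1, ?_⟩
  have e1 : g * W * h * E * h = g * W * h := by
    rw [mul_assoc _ h E, c1, mul_assoc, mul_assoc E, h2, ← mul_assoc, mul_assoc g, hE]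
  have e2 : g * E' * (1 - g) = 0 := by rw [c2, mul_assoc, mul_sub, g2, mul_one, sub_self, mul_zero]
  have e3 : g * W * h * star (g * W * h) * (g * W * h) = g * W * h * star W * g * W * h := by
    simp only [star_mul, g1, h1, mul_assoc]
    rw [← mul_assoc h h, h2, ← mul_assoc g g, g2]
  have e4 : g * (W * star W) * (1 - g) = g * W * h * star W * (1 - g) := by
    simp only [mul_assoc]; rw [← hb']
  have e : g * W * h * star (g * W * h) * (g * W * h) - g * W * h =
      g * W * h * (star W * W - E) * h - g * (W * star W - E') * (1 - g) * W * h := by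
    rw [e3, mul_sub (g * W * h), sub_mul, e1, mul_sub g, sub_mul, e2, e4]
    noncomm_ring
  rw [e]
  have a2 := nm3 a1 n2 nh
  have a3 := nm3 (nm3 ng n3 ng') n1 nh
  linarith [norm_sub_le (g * W * h * (star W * W - E) * h)
    (g * (W * star W - E') * (1 - g) * W * h)]

theorem est_S {X Z e p q : B Ω} (p2 : p * p = p) (pq : p * q = 0) (qp : q * p = 0)
    (c1 : p * e = e * p) (c2 : q * e = e * q) (hX : p * X = p * Z) (hX' : X * p = Z * p)
    (np : ‖p‖ ≤ 1) (nq : ‖q‖ ≤ 1) (npq : ‖p + q‖ ≤ 1) (n : ‖Z - e‖ ≤ 1 / 20000) :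
    ‖e * p + q * X * q - (p + q) * X * (p + q)‖ ≤ 1 / 5000 := by
  have e1 : p * e * (p + q) = e * p := by rw [c1, mul_assoc, mul_add, p2, pq, add_zero]
  have e2 : q * e * p = 0 := by rw [c2, mul_assoc, qp, mul_zero]
  have e0 : e * p + q * X * q - (p + q) * X * (p + q) =
      -(p * (Z - e) * (p + q) + q * (Z - e) * p) := by
    rw [mul_sub p, mul_sub q, sub_mul, sub_mul, e1, e2, ← hX, mul_assoc q Z, ← hX']
    noncomm_ring
  rw [e0, norm_neg]
  linarith [norm_add_le (p * (Z - e) * (p + q)) (q * (Z - e) * p), nm3 np n npq, nm3 nq n np]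

theorem piso {V E : B Ω} (h : star V * V = E) (h2 : E * E = E) : V * E = V := by
  have h1 : star E = E := by rw [← h, star_mul, star_star]
  have : star (V - V * E) * (V - V * E) = 0 := by
    rw [star_sub, star_mul, h1, sub_mul, mul_sub, mul_sub, ← mul_assoc, h, h2, mul_assoc E, h, h2,
      mul_assoc E, ← mul_assoc (star V), h, h2, h2, sub_self]
  exact (sub_eq_zero.1 ((CStarRing.star_mul_self_eq_zero_iff _).1 this)).symm

theorem est_W {V W : B Ω} (h1 : ‖V‖ ≤ 1) (h2 : ‖W - V‖ ≤ 1 / 100000) :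
    ‖W‖ ≤ 11 / 10 ∧ ‖star W * W - star V * V‖ ≤ 1 / 20000 ∧
      ‖W * star W - V * star V‖ ≤ 1 / 20000 := by
  have a1 : ‖W‖ ≤ 11 / 10 := by
    have := norm_add_le (W - V) V
    rw [sub_add_cancel] at this
    linarith
  have h3 : ‖star W - star V‖ ≤ 1 / 100000 := by rw [← star_sub, norm_star']; exact h2
  have h4 : ‖star V‖ ≤ 1 := by rw [norm_star']; exact h1
  refine ⟨a1, ?_, ?_⟩
  · have e : star W * W - star V * V = (star W - star V) * W + star V * (W - V) := by noncomm_ring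
    rw [e]
    linarith [norm_add_le ((star W - star V) * W) (star V * (W - V)), norm_mul_le_of_le h3 a1,
      norm_mul_le_of_le h4 h2]
  · have e : W * star W - V * star V = W * (star W - star V) + (W - V) * star V := by noncomm_ring
    rw [e]
    linarith [norm_add_le (W * (star W - star V)) ((W - V) * star V), norm_mul_le_of_le a1 h3,
      norm_mul_le_of_le h2 h4]

end est

variable {l : ℝ} [hl : Fact (0 < l ∧ l ≠ 1)]

theorem exists_W {V : B (Om l)} (hV : V ∈ crossed l) {a b : Gam l} (ha : 0 ≤ a) (hb : 0 ≤ b)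
    (h1 : star V * V = iv l 0 a) (h2 : V * star V = iv l 0 b) :
    ∃ x, lc l x * iv l 0 a = lc l x ∧ iv l 0 b * lc l x = lc l x ∧ ‖lc l x‖ ≤ 11 / 10 ∧
      ‖star (lc l x) * lc l x - iv l 0 a‖ ≤ 1 / 20000 ∧
      ‖lc l x * star (lc l x) - iv l 0 b‖ ≤ 1 / 20000 := by
  obtain ⟨w, hw, hd⟩ := Metric.mem_closure_iff.1 (crossed_le hV) (1 / 100000) (by norm_num)
  obtain ⟨x, hx⟩ := exists_lc (mul_mem (mul_mem (iv_mem hb) hw) (iv_mem ha))
  rw [ZeroMemClass.coe_zero] at hx
  have i1 : iv l 0 a * iv l 0 a = iv l 0 a := ind_idem _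
  have i2 : iv l 0 b * iv l 0 b = iv l 0 b := ind_idem _
  have e1 := piso h1 i1
  have e2 : iv l 0 b * V = V := by
    have := congrArg star (piso (V := star V) (by rw [star_star, h2]) i2)
    rwa [star_mul, star_star, iv, ind_star] at this
  have nV : ‖V‖ ≤ 1 := by
    have := CStarRing.norm_star_mul_self (x := V)
    have h3 : ‖star V * V‖ ≤ 1 := by rw [h1]; exact norm_ind_le _
    nlinarith [norm_nonneg V]
  have nd : ‖lc l x - V‖ ≤ 1 / 100000 := by
    have e : lc l x - V = iv l 0 b * (w - V) * iv l 0 a := by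
      rw [hx, mul_sub, sub_mul, e2, e1]
    rw [dist_comm, dist_eq_norm] at hd
    rw [e]
    have := nm3 (a := iv l 0 b) (c := iv l 0 a) (norm_ind_le _) hd.le (norm_ind_le _)
    linarith
  have := est_W nV nd
  rw [h1, h2] at this
  exact ⟨x, by rw [hx, mul_assoc, i1], by rw [hx, ← mul_assoc, ← mul_assoc, i2], this⟩

theorem ge_mul {a b : ℤ} (h : a ≤ b) : ge l a * ge l b = ge l b :=
  ind_mul_of_subset fun _ (x : b ≤ _) => h.trans x

theorem ge_mul' {a b : ℤ} (h : a ≤ b) : ge l b * ge l a = ge l b :=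
  ind_mul_of_subset' fun _ (x : b ≤ _) => h.trans x

theorem ge_star (a : ℤ) : star (ge l a) = ge l a := ind_star _

theorem ge_sub (i : ℤ) : ge l i - ge l (i + 1) = ind {ω | lv ω = i} := by
  rw [ge, ge, ind_sub (S := {ω | i ≤ lv ω}) (T := {ω | i + 1 ≤ lv ω})
    fun _ (x : i + 1 ≤ _) => show i ≤ _ by omega]
  refine ind_congr fun ω => ?_
  simp only [Set.mem_sdiff, Set.mem_ofPred_eq]
  omega

theorem fe_single (i : ℤ) {a : Gam l} (ha : 0 ≤ a) :
    (M0 l).rho (fe {i} (lpw l (-i) * a)) = iv l 0 a * (ge l i - ge l (i + 1)) := by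
  rw [M0_fe _ (show (0 : ℝ) ≤ l ^ (-i) * a from mul_nonneg (lz_pos _).le ha), ge_sub, iv, ind_mul]
  refine ind_congr fun ω => ?_
  simp only [Finset.mem_singleton, Set.mem_ofPred_eq, Set.mem_inter_iff, sc]
  constructor
  · rintro ⟨rfl, h1, h2⟩
    exact ⟨⟨(mul_nonneg_iff_of_pos_left (lz_pos _)).1 h1,
      lt_of_mul_lt_mul_left h2 (lz_pos _).le⟩, rfl⟩
  · rintro ⟨⟨h1, h2⟩, rfl⟩
    exact ⟨rfl, mul_nonneg (lz_pos _).le h1, mul_lt_mul_of_pos_left h2 (lz_pos _)⟩

def win (I : Finset ℤ) (a : Gam l) : Gam l := (∑ i ∈ I, lpw l (-i)) * a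

theorem win_nonneg (I : Finset ℤ) {a : Gam l} (ha : 0 ≤ a) : 0 ≤ win I a := by
  change (0 : ℝ) ≤ ((∑ i ∈ I, lpw l (-i) : Gam l) : ℝ) * a
  push_cast
  exact mul_nonneg (Finset.sum_nonneg fun i _ => (lz_pos _).le) ha

theorem win_mul {I : Finset ℤ} {a b : Gam l} (ha : 0 ≤ a) (hb : b ≤ a) {m n : ℤ}
    (h : ∀ i, m ≤ i → i < n → i ∈ I) :
    (M0 l).rho (fe I (win I a)) * (ge l m * (1 - ge l n) * iv l 0 b) =
      ge l m * (1 - ge l n) * iv l 0 b ∧
    ge l m * (1 - ge l n) * iv l 0 b * (M0 l).rho (fe I (win I a)) =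
      ge l m * (1 - ge l n) * iv l 0 b := by
  rw [M0_fe _ (win_nonneg I ha), one_sub_ge, ge, iv, ind_mul, ind_mul]
  have : {ω : Om l | m ≤ lv ω} ∩ {ω | lv ω ∈ Set.Iio n} ∩ {ω | 0 ≤ pos ω ∧ pos ω < b} ⊆
      {ω | lv ω ∈ I ∧ 0 ≤ sc ω ∧ sc ω < win I a} := by
    rintro ω ⟨⟨h1, h2⟩, h3, h4⟩
    have hI := h _ h1 h2
    refine ⟨hI, mul_nonneg (lz_pos _).le h3, ?_⟩
    have e1 : sc ω < l ^ (-lv ω) * a :=
      mul_lt_mul_of_pos_left (h4.trans_le hb) (lz_pos _)
    refine e1.trans_le ?_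
    change _ ≤ ((∑ i ∈ I, lpw l (-i) : Gam l) : ℝ) * a
    push_cast
    exact mul_le_mul_of_nonneg_right (Finset.single_le_sum (f := fun i => (lpw l (-i) : ℝ))
      (fun i _ => (lz_pos _).le) hI) ha
  exact ⟨ind_mul_of_subset this, ind_mul_of_subset' this⟩

theorem lift_core (R : Fin 3 → F (Gam l))
    {I : Finset ℤ} {β N K : Gam l} {i j : ℤ} (hβ : 0 ≤ β) (hN : 0 ≤ N) (hK : 0 ≤ K)
    (h1 : ∀ m, ‖(M0 l).rho (R m)‖ ≤ 11 / 10)
    (h2 : ∀ m, ‖(M0 l).rho (R m) * star ((M0 l).rho (R m)) * (M0 l).rho (R m) -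
      (M0 l).rho (R m)‖ ≤ 1 / 5000)
    (h3 : ∀ m, WS (M0 l) I β ((M0 l).rho (R m))) (h4 : WS (M0 l) I β ((M0 l).rho (fe {i} N)))
    (h5 : WS (M0 l) I β ((M0 l).rho (fe {j} K)))
    (h6 : ‖(M0 l).rho (fe {i} N) + (M0 l).rho (R 1) * star ((M0 l).rho (R 1)) -
      (M0 l).rho (R 0) * star ((M0 l).rho (R 0))‖ ≤ 1 / 5000)
    (h7 : ‖(M0 l).rho (fe {j} K) + star ((M0 l).rho (R 1)) * (M0 l).rho (R 1) -
      star ((M0 l).rho (R 2)) * (M0 l).rho (R 2)‖ ≤ 1 / 5000)
    (h8 : (M0 l).rho (fe {i} N) * (M0 l).rho (R 1) = 0)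
    (h9 : (M0 l).rho (R 1) * (M0 l).rho (fe {j} K) = 0)
    (h10 : mapF (scl l) 1 (R 0) = R 2) :
    ∃ γ : Gam l, (γ : ℝ) - N + K = l ^ (-1 : ℤ) * γ := by
  let s : Finset (Gam l) := {β, N, K} ∪
    Finset.univ.biUnion fun m => (R m).support.image Ix.a ∪ (R m).support.image Ix.g
  let Λ : AddSubgroup (Gam l) := AddSubgroup.closure s
  have : Module.Finite ℤ Λ := Module.Finite.iff_addGroup_fg.2
    ((AddGroup.fg_iff_addSubgroup_fg Λ).2 ⟨s, rfl⟩)
  have : Module.Free ℤ Λ := Module.free_of_finite_type_torsion_free'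
  have hs : ∀ x ∈ s, x ∈ Λ := fun x hx => AddSubgroup.subset_closure hx
  have hinj : Function.Injective (ixMap Λ.subtype 0) := fun p q h => by
    simp only [ixMap, Ix.mk.injEq, add_zero] at h
    exact Ix.ext h.1 h.2.1 (Subtype.ext h.2.2.1) (Subtype.ext h.2.2.2)
  let R' : Fin 3 → F Λ := fun m => Finsupp.comapDomain (ixMap Λ.subtype 0) (R m) hinj.injOn
  have hR : ∀ m, mapF Λ.subtype 0 (R' m) = R m := fun m =>
    Finsupp.mapDomain_comapDomain _ hinj _ fun p hp =>
      ⟨⟨p.i, p.j, ⟨p.a, hs _ (Finset.mem_union_right _ (Finset.mem_biUnion.2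
          ⟨m, Finset.mem_univ _, Finset.mem_union_left _ (Finset.mem_image_of_mem _ hp)⟩))⟩,
        ⟨p.g, hs _ (Finset.mem_union_right _ (Finset.mem_biUnion.2
          ⟨m, Finset.mem_univ _, Finset.mem_union_right _ (Finset.mem_image_of_mem _ hp)⟩))⟩⟩,
        by simp [ixMap]⟩
  let θ : Λ →+ ℝ := (Gam l).subtype.toAddMonoidHom.comp Λ.subtype
  have hρ : ∀ m, ((M0 l).comap Λ.subtype).rho (R' m) = (M0 l).rho (R m) := fun m => by
    rw [Model.rho_comap, hR]
  have hfe : ∀ (J : Finset ℤ) (x : Λ), ((M0 l).comap Λ.subtype).rho (fe J x) =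
      (M0 l).rho (fe J x) := fun J x => by rw [rho_fe, rho_fe]; rfl
  obtain ⟨γ, t1, t2⟩ := abs_core (M₀ := (M0 l).comap Λ.subtype) (θ := θ)
    (M0_true.comap Λ.subtype Subtype.val_injective) (fun _ _ h => h)
    (fun _ a _ b _ hab => M0_adm {a.1, b.1} a.1 (by simp) b.1 (by simp) hab) R' (I := I)
    (β := ⟨β, hs _ (by simp [s])⟩) (N := ⟨N, hs _ (by simp [s])⟩) (K := ⟨K, hs _ (by simp [s])⟩)
    (i := i) (j := j) hβ hN hK (by simpa only [hρ] using h1) (by simpa only [hρ] using h2)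
    (by simpa only [hρ, WS, hfe] using h3) (by simpa only [WS, hfe] using h4)
    (by simpa only [WS, hfe] using h5) (by simpa only [hρ, hfe] using h6)
    (by simpa only [hρ, hfe] using h7) (by simpa only [hρ, hfe] using h8)
    (by simpa only [hρ, hfe] using h9)
  have hm : Monotone Λ.subtype := fun _ _ h => h
  have e : ∀ m k, tau (fun a => (θ a : ℂ)) (fqk k (fmul (fstar (R' m)) (R' m))) =
      tau (fun a : Gam l => ((a : ℝ) : ℂ)) (fqk k (fmul (fstar (R m)) (R m))) := fun m k => by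
    rw [← hR, ← mapF_fstar, ← mapF_fmul _ hm, ← mapF_fqk _ hm,
      tau_mapF _ _ Subtype.val_injective]
    rfl
  have e' : ∀ k, tau (fun a : Gam l => ((a : ℝ) : ℂ)) (fqk k (fmul (fstar (R 2)) (R 2))) =
      ((l ^ (-1 : ℤ) : ℝ) : ℂ) *
        tau (fun a : Gam l => ((a : ℝ) : ℂ)) (fqk k (fmul (fstar (R 0)) (R 0))) := fun k => by
    rw [← h10, ← mapF_fstar, ← mapF_fmul _ scl_mono.monotone, ← mapF_fqk _ scl_mono.monotone,
      tau_mapF _ _ scl_mono.injective, ← tau_mul]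
    simp only [scl_coe, Complex.ofReal_mul]
  simp only [e, e'] at t1 t2
  refine ⟨γ, ?_⟩
  have := tendsto_nhds_unique t2 (t1.const_mul _)
  exact_mod_cast this

theorem core {N k : ℕ} {V : B (Om l)} (hV : V ∈ crossed l)
    (h1 : star V * V = iv l 0 ((N + k : ℕ) : Gam l)) (h2 : V * star V = iv l 0 (N : Gam l)) :
    ∃ γ ∈ Gam l, (k : ℝ) = (l - 1) * γ := by
  have ha : (0 : Gam l) ≤ ((N + k : ℕ) : Gam l) := Nat.cast_nonneg _
  have hb : (0 : Gam l) ≤ (N : Gam l) := Nat.cast_nonneg _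
  have hab : (N : Gam l) ≤ ((N + k : ℕ) : Gam l) := Nat.cast_le.2 (by omega)
  obtain ⟨x, w1, w2, w3, w4, w5⟩ := exists_W hV ha hb h1 h2
  obtain ⟨r, hr⟩ := band x
  set a : Gam l := ((N + k : ℕ) : Gam l) with hadef
  set b : Gam l := (N : Gam l) with hbdef
  have cE : ∀ (m : ℤ) (u : ℝ), ge l m * iv l 0 u = iv l 0 u * ge l m := fun m u => ind_comm _ _
  have cE' : ∀ (m : ℤ) (u : ℝ), (1 - ge l m) * iv l 0 u = iv l 0 u * (1 - ge l m) := fun m u => by
    rw [sub_mul, mul_sub, cE, one_mul, mul_one]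
  have s1 : ∀ m : ℤ, star (1 - ge l m) = 1 - ge l m := fun m => by rw [one_sub_ge, ind_star]
  have s2 : ∀ m : ℤ, (1 - ge l m) * (1 - ge l m) = 1 - ge l m := fun m => by
    rw [one_sub_ge, ind_idem]
  let I : Finset ℤ := Finset.Icc (-r) (2 * r + 2)
  have PI : ∀ m c : ℤ, m + r ≤ c → _ := fun m c h =>
    est_PI (ge_star m) (ge_mul le_rfl) (s1 c) (s2 c) w1 (cE' c _) (cE m _)
      (by rw [sub_sub_cancel]; exact (hr c m h).2) w3 w4 w5
  have WW : ∀ m c : ℤ, 0 ≤ m → c ≤ r + 2 →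
      WS (M0 l) I (win I a) (ge l m * lc l x * (1 - ge l c)) := fun m c hm hc => by
    constructor
    · have e1 := (hr (c + r) c le_rfl).1
      have e : ge l m * lc l x * (1 - ge l c) =
          ge l m * (1 - ge l (c + r)) * iv l 0 b * (lc l x * (1 - ge l c)) := by
        rw [mul_assoc _ (iv l 0 b), ← mul_assoc (iv l 0 b), w2, mul_assoc (ge l m) (1 - _), sub_mul,
          ← mul_assoc (ge l (c + r)), e1, one_mul, sub_zero, mul_assoc]
      rw [e, ← mul_assoc, (win_mul ha hab fun i h1 h2 => Finset.mem_Icc.2 (by omega)).1]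
    · have e1 := (hr m (m - r) (by omega)).1
      have e : ge l m * lc l x * (1 - ge l c) =
          ge l m * lc l x * (ge l (m - r) * (1 - ge l c) * iv l 0 a) := by
        rw [mul_sub, mul_one, sub_eq_zero] at e1
        rw [mul_assoc (ge l (m - r)), ← mul_assoc, ← e1, cE', ← mul_assoc, mul_assoc (ge l m) _
          (iv l 0 a), w1]
      rw [e, mul_assoc, (win_mul ha le_rfl fun i h1 h2 => Finset.mem_Icc.2 (by omega)).2]
  have WE : ∀ (i : ℤ) (u : Gam l), u ≤ a → i ∈ I →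
      WS (M0 l) I (win I a) (iv l 0 u * (ge l i - ge l (i + 1))) := fun i u hu hi => by
    have e : iv l 0 u * (ge l i - ge l (i + 1)) = ge l i * (1 - ge l (i + 1)) * iv l 0 u := by
      rw [mul_sub (ge l i), mul_one, ge_mul (by omega), sub_mul, mul_sub, cE, cE]
    rw [e]
    exact win_mul ha hu fun j h1 h2 => by rwa [show j = i by omega]
  have z1 := (hr (r + 1) 1 (by omega)).2
  have p1 : ∀ i : ℤ, star (ge l i - ge l (i + 1)) = ge l i - ge l (i + 1) := fun i => by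
    rw [ge_sub, ind_star]
  have p2 : ∀ i : ℤ, (ge l i - ge l (i + 1)) * (ge l i - ge l (i + 1)) = ge l i - ge l (i + 1) :=
    fun i => by rw [ge_sub, ind_idem]
  have p3 : ∀ i : ℤ, (ge l i - ge l (i + 1)) * ge l (i + 1) = 0 := fun i => by
    rw [sub_mul, ge_mul (by omega), ge_mul le_rfl, sub_self]
  have p4 : ∀ i : ℤ, ge l (i + 1) * (ge l i - ge l (i + 1)) = 0 := fun i => by
    rw [mul_sub, ge_mul' (by omega), ge_mul le_rfl, sub_self]
  have p5 : ∀ i : ℤ, (1 - ge l i) * (ge l i - ge l (i + 1)) = 0 := fun i => by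
    rw [sub_mul, mul_sub (ge l i), ge_mul (by omega), ge_mul (by omega), one_mul, sub_self]
  have p6 : ∀ i : ℤ, (ge l i - ge l (i + 1)) * (1 - ge l i) = 0 := fun i => by
    rw [← p1, ← s1, ← star_mul, p5, star_zero]
  have p7 : ∀ (i : ℤ) (u : ℝ), (ge l i - ge l (i + 1)) * iv l 0 u =
      iv l 0 u * (ge l i - ge l (i + 1)) := fun i u => by rw [sub_mul, mul_sub, cE, cE]
  have p30 : (ge l 0 - ge l (0 + 1)) * ge l 1 = 0 := p3 0
  have q1 : (ge l 0 - ge l (0 + 1)) * lc l x * (1 - ge l (r + 1)) =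
      (ge l 0 - ge l (0 + 1)) * lc l x := by
    have e : ge l 0 - ge l (0 + 1) = (ge l 0 - ge l (0 + 1)) * (1 - ge l 1) := by
      rw [mul_sub, mul_one, p30, sub_zero]
    rw [mul_sub, mul_one, e, mul_assoc _ (1 - ge l 1), mul_assoc _ ((1 - ge l 1) * _), z1, mul_zero,
      sub_zero]
  have q2 : ge l 1 * lc l x * (ge l (r + 1) - ge l (r + 1 + 1)) =
      lc l x * (ge l (r + 1) - ge l (r + 1 + 1)) := by
    have e : ge l (r + 1) - ge l (r + 1 + 1) = ge l (r + 1) * (ge l (r + 1) - ge l (r + 1 + 1)) := by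
      rw [mul_sub, ge_mul le_rfl, ge_mul (by omega)]
    rw [sub_mul, sub_mul, one_mul, sub_eq_zero] at z1
    rw [e, ← mul_assoc, ← z1, mul_assoc]
  obtain ⟨γ, hγ⟩ := lift_core ![Rf 0 (r + 1) x, Rf 1 (r + 1) x, Rf 1 (r + 1 + 1) x]
    (I := I) (i := 0) (j := r + 1) (N := lpw l (-0) * b) (K := lpw l (-(r + 1)) * a)
    (win_nonneg I ha) (show (0 : ℝ) ≤ l ^ (-0 : ℤ) * b from mul_nonneg (lz_pos _).le hb)
    (show (0 : ℝ) ≤ l ^ (-(r + 1) : ℤ) * a from mul_nonneg (lz_pos _).le ha)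
    (fun m => by
      fin_cases m <;> simp only [Fin.zero_eta, Fin.mk_one, Fin.reduceFinMk, Matrix.cons_val,
        rho_Rf] <;> exact (PI _ _ (by omega)).1)
    (fun m => by
      fin_cases m <;> simp only [Fin.zero_eta, Fin.mk_one, Fin.reduceFinMk, Matrix.cons_val,
        rho_Rf] <;> exact (PI _ _ (by omega)).2)
    (fun m => by
      fin_cases m <;> simp only [Fin.zero_eta, Fin.mk_one, Fin.reduceFinMk, Matrix.cons_val,
        rho_Rf] <;> exact WW _ _ (by omega) (by omega))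
    (by rw [fe_single _ hb]; exact WE _ _ hab (Finset.mem_Icc.2 (by omega)))
    (by rw [fe_single _ ha]; exact WE _ _ le_rfl (Finset.mem_Icc.2 (by omega)))
    (by
      simp only [Matrix.cons_val, rho_Rf, fe_single _ hb]
      have := est_S (X := lc l x * (1 - ge l (r + 1)) * star (lc l x)) (p2 0) (p3 0) (p4 0)
        (p7 0 _) (cE _ _) (by rw [← mul_assoc, ← mul_assoc, q1, mul_assoc])
        (by
          have := congrArg star q1
          rw [star_mul, star_mul, s1, p1] at this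
          rw [mul_assoc, mul_assoc, this, mul_assoc])
        (by rw [ge_sub]; exact norm_ind_le _) (norm_ind_le _)
        (by rw [sub_add_cancel]; exact norm_ind_le _) w5
      have e : ∀ m : ℤ, ge l m * lc l x * (1 - ge l (r + 1)) *
          star (ge l m * lc l x * (1 - ge l (r + 1))) =
          ge l m * (lc l x * (1 - ge l (r + 1)) * star (lc l x)) * ge l m := fun m => by
        simp only [star_mul, s1, ge_star, mul_assoc]
        rw [← mul_assoc (1 - _) (1 - _), s2]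
      rw [e, e]
      rwa [sub_add_cancel] at this)
    (by
      simp only [Matrix.cons_val, rho_Rf, fe_single _ ha]
      have := est_S (X := star (lc l x) * ge l 1 * lc l x) (p2 (r + 1)) (p6 _) (p5 _)
        (p7 _ _) (cE' _ _)
        (by
          have := congrArg star q2
          rw [star_mul, star_mul, star_mul, p1, ge_star] at this
          rw [← mul_assoc, this, mul_assoc])
        (by rw [mul_assoc, mul_assoc, ← mul_assoc (ge l 1), q2, mul_assoc])
        (by rw [ge_sub]; exact norm_ind_le _) (by rw [one_sub_ge]; exact norm_ind_le _)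
        (by rw [add_comm, sub_add_sub_cancel, one_sub_ge]; exact norm_ind_le _) w4
      have e : ∀ m : ℤ, star (ge l 1 * lc l x * (1 - ge l m)) * (ge l 1 * lc l x * (1 - ge l m)) =
          (1 - ge l m) * (star (lc l x) * ge l 1 * lc l x) * (1 - ge l m) := fun m => by
        simp only [star_mul, s1, ge_star, mul_assoc]
        rw [← mul_assoc (ge l 1) (ge l 1), ge_mul le_rfl]
      rw [e, e]
      rwa [add_comm (ge l _ - _), sub_add_sub_cancel] at this)
    (by
      simp only [Matrix.cons_val, rho_Rf, fe_single _ hb]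
      rw [mul_assoc, mul_assoc (ge l 1), ← mul_assoc (ge l 0 - _), p30, zero_mul, mul_zero])
    (by
      simp only [Matrix.cons_val, rho_Rf, fe_single _ ha]
      rw [← p7, mul_assoc, ← mul_assoc (1 - _), p5, zero_mul, mul_zero])
    (by
      simp only [Matrix.cons_val]
      rw [mapF_Rf, zero_add])
  refine ⟨N * ∑ i ∈ Finset.range (r + 1), l ^ i - l ^ r * γ, sub_mem (mul_mem (natCast_mem _ _)
    (sum_mem fun i _ => by simpa using zpow_mem_Gam l i))
    (mul_mem (by simpa using zpow_mem_Gam l r) γ.2), ?_⟩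
  have g1 := mul_geom_sum l (r + 1)
  have g2 : l ^ (-(r + 1) : ℤ) * l ^ (r + 1) = 1 := by
    exact_mod_cast lz_cancel (l := l) (r + 1)
  have g3 : l ^ (-1 : ℤ) * l = 1 := by simpa using lz_cancel (l := l) 1
  simp only [hadef, hbdef] at hγ
  push_cast at hγ
  rw [lpw_coe, lpw_coe, neg_zero, zpow_zero] at hγ
  linear_combination l ^ (r + 1) * hγ - (N + k) * g2 - N * g1 + l ^ r * γ * g3

end Pool.Agent.P.MP_c88791_an
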