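import Mathlib

/-!
Definitions for the algebra `Q^λ = e (C_0^λ(ℝ) ⋊ G_λ) e` and for `K_0` of a unital C*-algebra.
-/

noncomputable section
open scoped ENNReal Matrix

namespace Pool.Agent.P.MP_c88791_an

section K

variable (R : Type) [NonUnitalRing R] [StarRing R]

/-- A projection in a matrix algebra `M_n(R)`. -/
structure Proj where
  n : ℕ
  p : Matrix (Fin n) (Fin n) R
  sa : pᴴ = p
  idem : p * p = p

variable {R}

/-- Murray-von Neumann equivalence: `p = v* v` and `q = v v*` for a rectangular matrix `v`. -/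
def MvN (p q : Proj R) : Prop :=
  ∃ v : Matrix (Fin q.n) (Fin p.n) R, vᴴ * v = p.p ∧ v * vᴴ = q.p

/-- Block diagonal sum of two rectangular matrices. -/
def diag2 {a b c d : ℕ} (v : Matrix (Fin a) (Fin b) R) (w : Matrix (Fin c) (Fin d) R) :
    Matrix (Fin (a + c)) (Fin (b + d)) R :=
  Matrix.reindex finSumFinEquiv finSumFinEquiv (Matrix.fromBlocks v 0 0 w)

theorem diag2_ct {a b c d : ℕ} (v : Matrix (Fin a) (Fin b) R) (w : Matrix (Fin c) (Fin d) R) :
    (diag2 v w)ᴴ = diag2 vᴴ wᴴ := by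
  simp [diag2, Matrix.fromBlocks_conjTranspose]

omit [StarRing R] in
theorem diag2_mul {a b c d e f : ℕ} (v : Matrix (Fin a) (Fin b) R) (w : Matrix (Fin c) (Fin d) R)
    (v' : Matrix (Fin b) (Fin e) R) (w' : Matrix (Fin d) (Fin f) R) :
    diag2 v w * diag2 v' w' = diag2 (v * v') (w * w') := by
  simp [diag2, Matrix.submatrix_mul_equiv, Matrix.fromBlocks_multiply]

/-- The direct sum `p ⊕ q` of two projections. -/
def Proj.sum (p q : Proj R) : Proj R :=
  ⟨p.n + q.n, diag2 p.p q.p, by rw [diag2_ct, p.sa, q.sa], by rw [diag2_mul, p.idem, q.idem]⟩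

theorem MvN.of_equiv (p q : Proj R) (σ : Fin q.n ≃ Fin p.n) (h : p.p.submatrix σ σ = q.p) :
    MvN p q := by
  refine ⟨p.p.submatrix σ id, ?_, ?_⟩
  · rw [Matrix.conjTranspose_submatrix, p.sa, Matrix.submatrix_mul_equiv, p.idem]; rfl
  · rw [Matrix.conjTranspose_submatrix, p.sa, ← h]
    have := Matrix.submatrix_mul_equiv p.p p.p σ (Equiv.refl _) σ
    rwa [p.idem] at this

variable (R)

/-- `V(R)`: Murray-von Neumann classes of projections in matrix algebras over `R`. -/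
def V : Type := Quot (MvN (R := R))

variable {R}

theorem diag2_l {a b c d : ℕ} (v : Matrix (Fin a) (Fin b) R) (w : Matrix (Fin c) (Fin d) R) :
    (diag2 v w)ᴴ * diag2 v w = diag2 (vᴴ * v) (wᴴ * w) := by rw [diag2_ct, diag2_mul]

theorem diag2_r {a b c d : ℕ} (v : Matrix (Fin a) (Fin b) R) (w : Matrix (Fin c) (Fin d) R) :
    diag2 v w * (diag2 v w)ᴴ = diag2 (v * vᴴ) (w * wᴴ) := by rw [diag2_ct, diag2_mul]

/-- Addition of classes by direct sum. -/
def V.add : V R → V R → V R :=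
  Quot.map₂ Proj.sum
    (fun p _ _ ⟨v, h1, h2⟩ => ⟨diag2 p.p v,
      (diag2_l p.p v).trans (by rw [h1, p.sa, p.idem]; rfl),
      (diag2_r p.p v).trans (by rw [h2, p.sa, p.idem]; rfl)⟩)
    (fun _ _ q ⟨v, h1, h2⟩ => ⟨diag2 v q.p,
      (diag2_l v q.p).trans (by rw [h1, q.sa, q.idem]; rfl),
      (diag2_r v q.p).trans (by rw [h2, q.sa, q.idem]; rfl)⟩)

/-- The empty projection. -/
def Proj.zero : Proj R := ⟨0, 0, Matrix.conjTranspose_zero, Matrix.zero_mul _⟩

omit [StarRing R] in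
theorem diag2_comm {a b : ℕ} (p : Matrix (Fin a) (Fin a) R) (q : Matrix (Fin b) (Fin b) R) :
    ∃ σ : Fin (b + a) ≃ Fin (a + b), (diag2 p q).submatrix σ σ = diag2 q p := by
  refine ⟨(finSumFinEquiv.symm.trans (Equiv.sumComm _ _)).trans finSumFinEquiv, ?_⟩
  ext i j
  obtain ⟨i, rfl⟩ := finSumFinEquiv.surjective i
  obtain ⟨j, rfl⟩ := finSumFinEquiv.surjective j
  cases i <;> cases j <;> simp [diag2]

omit [StarRing R] in
theorem diag2_zero {a : ℕ} (p : Matrix (Fin a) (Fin a) R) (q : Matrix (Fin 0) (Fin 0) R) :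
    ∃ σ : Fin a ≃ Fin (a + 0), (diag2 p q).submatrix σ σ = p := by
  refine ⟨(Equiv.sumEmpty _ (Fin 0)).symm.trans finSumFinEquiv, ?_⟩
  ext i j
  simp [diag2]

omit [StarRing R] in
theorem diag2_assoc {a b c : ℕ} (p : Matrix (Fin a) (Fin a) R) (q : Matrix (Fin b) (Fin b) R)
    (r : Matrix (Fin c) (Fin c) R) : ∃ σ : Fin (a + (b + c)) ≃ Fin (a + b + c),
      (diag2 (diag2 p q) r).submatrix σ σ = diag2 p (diag2 q r) := by
  refine ⟨finSumFinEquiv.symm.trans ((Equiv.sumCongr (Equiv.refl _) finSumFinEquiv.symm).trans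
      ((Equiv.sumAssoc _ _ _).symm.trans
        ((Equiv.sumCongr finSumFinEquiv (Equiv.refl _)).trans finSumFinEquiv))), ?_⟩
  ext i j
  obtain ⟨i, rfl⟩ := finSumFinEquiv.surjective i
  obtain ⟨j, rfl⟩ := finSumFinEquiv.surjective j
  rcases i with i | i <;> rcases j with j | j
  · simp [diag2]
  · obtain ⟨j, rfl⟩ := finSumFinEquiv.surjective j
    cases j <;> simp [diag2]
  · obtain ⟨i, rfl⟩ := finSumFinEquiv.surjective i
    cases i <;> simp [diag2]
  · obtain ⟨i, rfl⟩ := finSumFinEquiv.surjective i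
    obtain ⟨j, rfl⟩ := finSumFinEquiv.surjective j
    cases i <;> cases j <;> simp [diag2]

theorem V.add_comm (x y : V R) : V.add x y = V.add y x := by
  induction x using Quot.ind with | _ p => ?_
  induction y using Quot.ind with | _ q => ?_
  obtain ⟨σ, h⟩ := diag2_comm p.p q.p
  exact Quot.sound (MvN.of_equiv (p.sum q) (q.sum p) σ h)

theorem V.add_zero (x : V R) : V.add x (Quot.mk _ Proj.zero) = x := by
  induction x using Quot.ind with | _ p => ?_
  obtain ⟨σ, h⟩ := diag2_zero p.p 0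
  exact Quot.sound (MvN.of_equiv (p.sum Proj.zero) p σ h)

theorem V.add_assoc (x y z : V R) : V.add (V.add x y) z = V.add x (V.add y z) := by
  induction x using Quot.ind with | _ p => ?_
  induction y using Quot.ind with | _ q => ?_
  induction z using Quot.ind with | _ r => ?_
  obtain ⟨σ, h⟩ := diag2_assoc p.p q.p r.p
  exact Quot.sound (MvN.of_equiv ((p.sum q).sum r) (p.sum (q.sum r)) σ h)

/-- `V(R)` is a commutative monoid under direct sum. -/
instance V.addCommMonoid : AddCommMonoid (V R) where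
  add := V.add
  zero := Quot.mk _ Proj.zero
  add_assoc := V.add_assoc
  add_comm := V.add_comm
  add_zero := V.add_zero
  zero_add := fun x => (V.add_comm _ x).trans (V.add_zero x)
  nsmul := @nsmulRec _ ⟨Quot.mk _ Proj.zero⟩ ⟨V.add⟩

variable (R)

/-- `K_0` of a C*-algebra that has a unit: the Grothendieck group of `V(R)`. -/
def K0 : AddCommGrpCat := AddCommGrpCat.of (Algebra.GrothendieckAddGroup (V R))

variable {R}

/-- `e` is a projection of `R`. -/
def IsPr (e : R) : Prop := star e = e ∧ e * e = e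

/-- The class in `K_0(R)` of a projection `e` of `R`. -/
def K0.cls (e : R) (h : IsPr e) : K0 R :=
  Algebra.GrothendieckAddGroup.of (M := V R) (Quot.mk _
    ⟨1, Matrix.of fun _ _ => e, by ext i j; simp [h.1],
      by ext i j; simp [Matrix.mul_apply, h.2]⟩)

end K

section CStar

/-- The `*`-subalgebras of a C*-algebra. -/
abbrev Sub (A : Type) [NonUnitalCStarAlgebra A] : Type := NonUnitalStarSubalgebra ℂ A

variable {A : Type} [NonUnitalCStarAlgebra A]

/-- The C*-subalgebra generated by a set: the closure of the `*`-algebra it generates. -/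
def gen (S : Set A) : Sub A :=
  (NonUnitalStarAlgebra.adjoin ℂ S).topologicalClosure

/-- `e` is a projection in `S`. -/
def IsProjIn (S : Sub A) (e : A) : Prop := e ∈ S ∧ IsPr e

/-- The corner `e S e`. -/
def corner {S : Sub A} {e : A} (h : IsProjIn S e) : Sub A where
  carrier := {T | ∃ a ∈ S, T = e * a * e}
  zero_mem' := ⟨0, zero_mem _, by simp⟩
  add_mem' := by
    rintro _ _ ⟨a, ha, rfl⟩ ⟨b, hb, rfl⟩
    exact ⟨a + b, add_mem ha hb, by rw [mul_add, add_mul]⟩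
  smul_mem' := by
    rintro c _ ⟨a, ha, rfl⟩
    exact ⟨c • a, SMulMemClass.smul_mem c ha, by rw [mul_smul_comm, smul_mul_assoc]⟩
  mul_mem' := by
    rintro _ _ ⟨a, ha, rfl⟩ ⟨b, hb, rfl⟩
    exact ⟨a * e * e * b, mul_mem (mul_mem (mul_mem ha h.1) h.1) hb, by simp only [mul_assoc]⟩
  star_mem' := by
    rintro _ ⟨a, ha, rfl⟩
    exact ⟨star a, star_mem ha, by simp only [star_mul, h.2.1, mul_assoc]⟩

/-- `K_0` of the corner `e S e`. -/
def cornerK0 {S : Sub A} {e : A} (h : IsProjIn S e) : AddCommGrpCat := K0 (corner h)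

/-- The unit `e` of the corner `e S e`. -/
def cornerOne {S : Sub A} {e : A} (h : IsProjIn S e) : corner h :=
  ⟨e, e, h.1, by rw [h.2.2, h.2.2]⟩

theorem cornerOne_pr {S : Sub A} {e : A} (h : IsProjIn S e) : IsPr (cornerOne h) :=
  ⟨Subtype.ext h.2.1, Subtype.ext h.2.2⟩

/-- The class in `K_0(e S e)` of the unit `e` of the corner. -/
def cornerUnit {S : Sub A} {e : A} (h : IsProjIn S e) : cornerK0 h :=
  K0.cls (cornerOne h) (cornerOne_pr h)

end CStar

/-- The Hilbert space `ℓ²(Ω)`. -/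
abbrev H (Ω : Type) : Type := lp (fun _ : Ω => ℂ) 2

instance H_complete (Ω : Type) : CompleteSpace (H Ω) := inferInstance

/-- The C*-algebra of bounded functions on `X` with the supremum norm. -/
abbrev Linf (X : Type) : Type := lp (fun _ : X => ℂ) ∞

/-- The C*-algebra of bounded operators on `ℓ²(Ω)`. -/
abbrev B (Ω : Type) : Type := H Ω →L[ℂ] H Ω

theorem two_pos' : 0 < (2 : ℝ≥0∞).toReal := by norm_num

theorem mul_sum_le {X Ω : Type} (f : Linf X) (π : Ω → X) (ξ : H Ω) (s : Finset Ω) :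
    ∑ ω ∈ s, ‖f (π ω) * ξ ω‖ ^ (2 : ℝ≥0∞).toReal ≤ (‖f‖ * ‖ξ‖) ^ (2 : ℝ≥0∞).toReal := by
  rw [Real.mul_rpow (norm_nonneg _) (norm_nonneg _)]
  refine le_trans ?_ (mul_le_mul_of_nonneg_left (lp.sum_rpow_le_norm_rpow two_pos' ξ s)
    (by positivity))
  rw [Finset.mul_sum]
  refine Finset.sum_le_sum fun ω _ => ?_
  rw [norm_mul, Real.mul_rpow (norm_nonneg _) (norm_nonneg _)]
  gcongr
  exact lp.norm_apply_le_norm ENNReal.top_ne_zero f _

/-- The vector `ω ↦ f (π ω) * ξ ω`. -/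
def mulVec {X Ω : Type} (f : Linf X) (π : Ω → X) (ξ : H Ω) : H Ω :=
  ⟨fun ω => f (π ω) * ξ ω, memℓp_gen' (mul_sum_le f π ξ)⟩

theorem mulVec_add {X Ω : Type} (f : Linf X) (π : Ω → X) (ξ η : H Ω) :
    mulVec f π (ξ + η) = mulVec f π ξ + mulVec f π η := lp.ext (funext fun _ => mul_add _ _ _)

theorem mulVec_smul {X Ω : Type} (f : Linf X) (π : Ω → X) (c : ℂ) (ξ : H Ω) :
    mulVec f π (c • ξ) = c • mulVec f π ξ := lp.ext (funext fun _ => mul_left_comm _ _ _)

theorem mulVec_norm {X Ω : Type} (f : Linf X) (π : Ω → X) (ξ : H Ω) :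
    ‖mulVec f π ξ‖ ≤ ‖f‖ * ‖ξ‖ :=
  lp.norm_le_of_forall_sum_le two_pos' (by positivity) (mul_sum_le f π ξ)

/-- The multiplication operator `(mulOp f π ξ) ω = f (π ω) * ξ ω` on `ℓ²(Ω)`. -/
def mulOp {X Ω : Type} (f : Linf X) (π : Ω → X) : B Ω :=
  LinearMap.mkContinuous
    { toFun := mulVec f π, map_add' := mulVec_add f π, map_smul' := mulVec_smul f π }
    ‖f‖ (mulVec_norm f π)

theorem comp_sum_le {Ω Ω' : Type} (ι : Ω ↪ Ω') (ξ : H Ω') (s : Finset Ω) :
    ∑ ω ∈ s, ‖ξ (ι ω)‖ ^ (2 : ℝ≥0∞).toReal ≤ (1 * ‖ξ‖) ^ (2 : ℝ≥0∞).toReal := by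
  rw [one_mul]
  refine le_trans (le_of_eq ?_) (lp.sum_rpow_le_norm_rpow two_pos' ξ (s.map ι))
  rw [Finset.sum_map]

/-- The vector `ω ↦ ξ (ι ω)`. -/
def compVec {Ω Ω' : Type} (ι : Ω ↪ Ω') (ξ : H Ω') : H Ω :=
  ⟨fun ω => ξ (ι ω), memℓp_gen' (comp_sum_le ι ξ)⟩

theorem compVec_add {Ω Ω' : Type} (ι : Ω ↪ Ω') (ξ η : H Ω') :
    compVec ι (ξ + η) = compVec ι ξ + compVec ι η := rfl

theorem compVec_smul {Ω Ω' : Type} (ι : Ω ↪ Ω') (c : ℂ) (ξ : H Ω') :
    compVec ι (c • ξ) = c • compVec ι ξ := rfl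

theorem compVec_norm {Ω Ω' : Type} (ι : Ω ↪ Ω') (ξ : H Ω') : ‖compVec ι ξ‖ ≤ 1 * ‖ξ‖ :=
  lp.norm_le_of_forall_sum_le two_pos' (by positivity) (comp_sum_le ι ξ)

/-- The composition operator `(compOp ι ξ) ω = ξ (ι ω)` of an injective map `ι`. -/
def compOp {Ω Ω' : Type} (ι : Ω ↪ Ω') : H Ω' →L[ℂ] H Ω :=
  LinearMap.mkContinuous
    { toFun := compVec ι, map_add' := compVec_add ι, map_smul' := compVec_smul ι }
    1 (compVec_norm ι)

/-- The indicator function of a set, as a bounded function. -/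
def chi {X : Type} (S : Set X) : Linf X :=
  ⟨S.indicator 1, memℓp_infty ⟨1, by
    rintro _ ⟨x, rfl⟩
    by_cases h : x ∈ S <;> simp [h]⟩⟩

/-- The ring `ℤ[l, l⁻¹] ⊆ ℝ`; its additive group is `Γ_l`. -/
def Gam (l : ℝ) : Subring ℝ := Subring.closure {l, l⁻¹}

/-- The group `G_l = Γ_l ⋊ ⟨l⟩`, as the group of affine maps `x ↦ a + l ^ i * x` of `ℝ`. -/
def Grp (l : ℝ) : Subgroup (Equiv.Perm ℝ) :=
  Subgroup.closure {g | ∃ a ∈ Gam l, ∃ i : ℤ, ∀ x, g x = a + l ^ i * x}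

/-- `C_0^l(ℝ)`: the C*-algebra of bounded functions generated by the indicator functions of the
intervals `[a, b)` with `a < b` in `Γ_l`. -/
def C0 (l : ℝ) : Sub (Linf ℝ) :=
  gen {f | ∃ a ∈ Gam l, ∃ b ∈ Gam l, a < b ∧ f = chi (Set.Ico a b)}

/-- Regular representation on `ℓ²(ℝ × G_l)`, function part:
`(piOp f ξ) (x, h) = (h⁻¹.f) x * ξ (x, h) = f (h x) * ξ (x, h)`. -/
def piOp (l : ℝ) (f : Linf ℝ) : B (ℝ × Grp l) :=
  mulOp f fun ω => (ω.2 : Equiv.Perm ℝ) ω.1

/-- Regular representation on `ℓ²(ℝ × G_l)`, group part: `(lamOp g ξ) (x, h) = ξ (x, g⁻¹ h)`. -/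
def lamOp (l : ℝ) (g : Grp l) : B (ℝ × Grp l) :=
  compOp (Equiv.prodCongr (Equiv.refl ℝ) (Equiv.mulLeft g⁻¹)).toEmbedding

/-- The (reduced) crossed product `A^l = C_0^l(ℝ) ⋊ G_l`: the C*-algebra generated by the
operators `piOp f * lamOp g`. -/
def crossed (l : ℝ) : Sub (B (ℝ × Grp l)) :=
  gen {T | ∃ f ∈ C0 l, ∃ g : Grp l, T = piOp l f * lamOp l g}

/-- The projection `e = 1_[0,1)`. -/
def eOp (l : ℝ) : B (ℝ × Grp l) := piOp l (chi (Set.Ico 0 1))

theorem mulOp_apply {X Ω : Type} (f : Linf X) (π : Ω → X) (ξ : H Ω) (ω : Ω) :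
    mulOp f π ξ ω = f (π ω) * ξ ω := rfl

theorem compOp_apply {Ω Ω' : Type} (ι : Ω ↪ Ω') (ξ : H Ω') (ω : Ω) :
    compOp ι ξ ω = ξ (ι ω) := rfl

theorem mulOp_mul {X Ω : Type} (f g : Linf X) (π : Ω → X) :
    mulOp (f * g) π = mulOp f π * mulOp g π :=
  ContinuousLinearMap.ext fun _ => lp.ext (funext fun _ => mul_assoc _ _ _)

theorem mulOp_star {X Ω : Type} (f : Linf X) (π : Ω → X) :
    star (mulOp f π) = mulOp (star f) π := by
  rw [ContinuousLinearMap.star_eq_adjoint, eq_comm, ContinuousLinearMap.eq_adjoint_iff]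
  intro ξ η
  simp only [lp.inner_eq_tsum, mulOp_apply, lp.star_apply]
  refine tsum_congr fun ω => ?_
  simp only [RCLike.inner_apply, map_mul, RCLike.star_def, RingHomCompTriple.comp_apply,
    RingHom.id_apply]
  ring

theorem chi_mul {X : Type} (S T : Set X) : chi S * chi T = chi (S ∩ T) :=
  lp.ext (Set.inter_indicator_one (s := S) (t := T) (M₀ := ℂ)).symm

theorem chi_star {X : Type} (S : Set X) : star (chi S) = chi S :=
  lp.ext (funext fun x => by
    change star (S.indicator (1 : X → ℂ) x) = S.indicator 1 x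
    by_cases h : x ∈ S <;> simp [h])

theorem eOp_mul (l : ℝ) : eOp l * eOp l = eOp l := by
  rw [eOp, piOp, ← mulOp_mul, chi_mul, Set.inter_self]

theorem eOp_star (l : ℝ) : star (eOp l) = eOp l := by
  rw [eOp, piOp, mulOp_star, chi_star]

theorem lamOp_one (l : ℝ) : lamOp l 1 = 1 :=
  ContinuousLinearMap.ext fun ξ => lp.ext (funext fun ω => by
    rw [lamOp, compOp_apply]; simp)

theorem pi_lam_mem (l : ℝ) {f : Linf ℝ} (hf : f ∈ C0 l) (g : Grp l) :
    piOp l f * lamOp l g ∈ crossed l :=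
  NonUnitalStarSubalgebra.le_topologicalClosure _
    (NonUnitalStarAlgebra.subset_adjoin ℂ _ ⟨f, hf, g, rfl⟩)

theorem chi_mem (l : ℝ) {a b : ℝ} (ha : a ∈ Gam l) (hb : b ∈ Gam l) (h : a < b) :
    chi (Set.Ico a b) ∈ C0 l :=
  NonUnitalStarSubalgebra.le_topologicalClosure _
    (NonUnitalStarAlgebra.subset_adjoin ℂ _ ⟨a, ha, b, hb, h, rfl⟩)

theorem eOp_mem (l : ℝ) : eOp l ∈ crossed l := by
  have := pi_lam_mem l (chi_mem l (zero_mem _) (one_mem _) zero_lt_one) 1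
  rwa [lamOp_one, mul_one] at this

theorem eOp_proj (l : ℝ) : IsProjIn (crossed l) (eOp l) := ⟨eOp_mem l, eOp_star l, eOp_mul l⟩

/-- `K_0(Q^l)` for the corner `Q^l = e A^l e`. -/
def KQ (l : ℝ) : AddCommGrpCat := cornerK0 (eOp_proj l)

/-- The class `[1]_0` of the unit `e` in `K_0(Q^l)`. -/
def unitClass (l : ℝ) : KQ l := cornerUnit (eOp_proj l)

end Pool.Agent.P.MP_c88791_an
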