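import Pool.Agent.P.MP_c88791_an.Newton

/-! The formal algebra of half-lines, translations and levels, and its models. -/

noncomputable section
open scoped Topology Classical
open Filter

namespace Pool.Agent.P.MP_c88791_an

@[ext] structure Ix (Λ : Type) where
  i : ℤ
  j : ℤ
  a : Λ
  g : Λ

abbrev F (Λ : Type) : Type := Ix Λ →₀ ℂ

variable {Λ Λ' Ω : Type} [AddCommGroup Λ] [LinearOrder Λ] [AddCommGroup Λ'] [LinearOrder Λ']

def mulB (p q : Ix Λ) : F Λ :=
  if p.j = q.i then Finsupp.single ⟨p.i, q.j, max p.a (q.a + p.g), p.g + q.g⟩ 1 else 0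

def fmul : F Λ →ₗ[ℂ] F Λ →ₗ[ℂ] F Λ :=
  Finsupp.linearCombination ℂ fun p => Finsupp.linearCombination ℂ fun q => mulB p q

theorem fmul_eq (t u : F Λ) :
    fmul t u = ∑ p ∈ t.support, ∑ q ∈ u.support, (t p * u q) • mulB p q := by
  rw [fmul, Finsupp.linearCombination_apply, Finsupp.sum, LinearMap.sum_apply]
  refine Finset.sum_congr rfl fun p _ => ?_
  rw [LinearMap.smul_apply, Finsupp.linearCombination_apply, Finsupp.sum, Finset.smul_sum]
  exact Finset.sum_congr rfl fun q _ => by rw [smul_smul]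

theorem fmul_single (p q : Ix Λ) (c d : ℂ) :
    fmul (Finsupp.single p c) (Finsupp.single q d) = (c * d) • mulB p q := by
  simp [fmul, smul_smul]

def starB (p : Ix Λ) : Ix Λ := ⟨p.j, p.i, p.a - p.g, -p.g⟩

def fstar : F Λ →+ F Λ :=
  Finsupp.liftAddHom fun p => (Finsupp.singleAddHom (starB p)).comp (starAddEquiv (R := ℂ))

omit [LinearOrder Λ] in
theorem fstar_single (p : Ix Λ) (c : ℂ) :
    fstar (Finsupp.single p c) = Finsupp.single (starB p) (star c) := by
  simp [fstar]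

def fnw (t : F Λ) : F Λ := 3 • fmul t t - 2 • fmul (fmul t t) t

def fqk (k : ℕ) (t : F Λ) : F Λ := fnw^[k] t

theorem fqk_succ (k : ℕ) (t : F Λ) : fqk (k + 1) t = fnw (fqk k t) :=
  Function.iterate_succ_apply' _ _ _

def ixMap (φ : Λ →+ Λ') (s : ℤ) (p : Ix Λ) : Ix Λ' := ⟨p.i + s, p.j + s, φ p.a, φ p.g⟩

def mapF (φ : Λ →+ Λ') (s : ℤ) : F Λ →ₗ[ℂ] F Λ' := Finsupp.lmapDomain ℂ ℂ (ixMap φ s)

omit [LinearOrder Λ] [LinearOrder Λ'] in
theorem mapF_single (φ : Λ →+ Λ') (s : ℤ) (p : Ix Λ) (c : ℂ) :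
    mapF φ s (Finsupp.single p c) = Finsupp.single (ixMap φ s p) c := by
  simp [mapF]

theorem mapF_fmul (φ : Λ →+ Λ') (hφ : Monotone φ) (s : ℤ) (t u : F Λ) :
    mapF φ s (fmul t u) = fmul (mapF φ s t) (mapF φ s u) := by
  induction t using Finsupp.induction_linear with
  | zero => simp
  | add a b ha hb => simp [ha, hb]
  | single p c =>
    induction u using Finsupp.induction_linear with
    | zero => simp
    | add a b ha hb => simp only [map_add, ha, hb]
    | single q d =>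
      rw [mapF_single, mapF_single, fmul_single, fmul_single, map_smul, mulB, mulB]
      by_cases h : p.j = q.i
      · rw [if_pos h, if_pos (by simp [ixMap, h]), mapF_single]
        simp [ixMap, hφ.map_max]
      · rw [if_neg h, if_neg (by simp [ixMap, h]), map_zero]

omit [LinearOrder Λ] [LinearOrder Λ'] in
theorem mapF_fstar (φ : Λ →+ Λ') (s : ℤ) (t : F Λ) : mapF φ s (fstar t) = fstar (mapF φ s t) := by
  induction t using Finsupp.induction_linear with
  | zero => simp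
  | add a b ha hb => simp [ha, hb]
  | single p c =>
    rw [fstar_single, mapF_single, mapF_single, fstar_single]
    simp [ixMap, starB]

theorem mapF_fqk (φ : Λ →+ Λ') (hφ : Monotone φ) (s : ℤ) (k : ℕ) (t : F Λ) :
    mapF φ s (fqk k t) = fqk k (mapF φ s t) := by
  induction k with
  | zero => rfl
  | succ k ih =>
    rw [fqk_succ, fqk_succ, fnw, fnw, map_sub, map_nsmul, map_nsmul, mapF_fmul φ hφ,
      mapF_fmul φ hφ, mapF_fmul φ hφ, ih]

def tau (φ : Λ → ℂ) : F Λ →ₗ[ℂ] ℂ :=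
  Finsupp.linearCombination ℂ fun p => if p.i = p.j ∧ p.g = 0 then -φ p.a else 0

theorem tau_mapF (ψ : Λ' → ℂ) (φ : Λ →+ Λ') (hφ : Function.Injective φ) (s : ℤ) (t : F Λ) :
    tau ψ (mapF φ s t) = tau (fun a => ψ (φ a)) t := by
  induction t using Finsupp.induction_linear with
  | zero => simp
  | add a b ha hb => simp [ha, hb]
  | single p c =>
    rw [mapF_single]
    simp [tau, ixMap, map_eq_zero_iff φ hφ]

theorem tau_eq (φ : Λ → ℂ) (t : F Λ) :
    tau φ t = ∑ p ∈ t.support, t p * if p.i = p.j ∧ p.g = 0 then -φ p.a else 0 := by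
  rw [tau, Finsupp.linearCombination_apply, Finsupp.sum]; rfl

theorem tau_mul (φ : Λ → ℂ) (c : ℂ) (t : F Λ) : tau (fun a => c * φ a) t = c * tau φ t := by
  rw [tau_eq, tau_eq, Finset.mul_sum]
  refine Finset.sum_congr rfl fun p _ => ?_
  split_ifs <;> ring

set_option linter.dupNamespace false in
structure Model (Λ Ω : Type) [AddCommGroup Λ] where
  E : ℤ → B Ω
  Sh : ℤ → B Ω
  U : Λ → B Ω
  P : Λ → B Ω
  E_mul : ∀ i j, E i * E j = if i = j then E i else 0
  E_star : ∀ i, star (E i) = E i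
  Sh_mul : ∀ l m, Sh l * Sh m = Sh (l + m)
  Sh_zero : Sh 0 = 1
  Sh_star : ∀ l, star (Sh l) = Sh (-l)
  Sh_E : ∀ l j, Sh l * E j = E (j + l) * Sh l
  U_mul : ∀ g h, U g * U h = U (g + h)
  U_zero : U 0 = 1
  U_star : ∀ g, star (U g) = U (-g)
  U_P : ∀ g b, U g * P b = P (b + g) * U g
  P_star : ∀ a, star (P a) = P a
  P_idem : ∀ a, P a * P a = P a
  P_E : ∀ a i, P a * E i = E i * P a
  U_E : ∀ g i, U g * E i = E i * U g
  Sh_P : ∀ l a, Sh l * P a = P a * Sh l
  Sh_U : ∀ l g, Sh l * U g = U g * Sh l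

namespace Model

variable (M : Model Λ Ω)

def be (p : Ix Λ) : B Ω := M.E p.i * (M.P p.a * (M.U p.g * M.Sh (p.i - p.j)))

def rho : F Λ →ₗ[ℂ] B Ω := Finsupp.linearCombination ℂ M.be

omit [LinearOrder Λ] in
theorem rho_single (p : Ix Λ) (c : ℂ) : M.rho (Finsupp.single p c) = c • M.be p := by
  simp [rho]

omit [LinearOrder Λ] in
theorem rho_eq (t : F Λ) : M.rho t = ∑ p ∈ t.support, t p • M.be p := by
  rw [rho, Finsupp.linearCombination_apply, Finsupp.sum]

omit [LinearOrder Λ] in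
theorem assoc_of {a b c d : B Ω} (h : a * b = c * d) (x : B Ω) : a * (b * x) = c * (d * x) := by
  rw [← mul_assoc, h, mul_assoc]

theorem be_mul (p q : Ix Λ) (h : M.P p.a * M.P (q.a + p.g) = M.P (max p.a (q.a + p.g))) :
    M.be p * M.be q = M.rho (mulB p q) := by
  have e : M.be p * M.be q = (M.E p.i * M.E (q.i + (p.i - p.j))) * ((M.P p.a * M.P (q.a + p.g)) *
      (M.U p.g * M.U q.g * (M.Sh (p.i - p.j) * M.Sh (q.i - q.j)))) := by
    simp only [be, mul_assoc]
    rw [assoc_of (M.Sh_E _ _), assoc_of (M.U_E _ _), assoc_of (M.P_E _ _), assoc_of (M.Sh_P _ _),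
      assoc_of (M.U_P _ _), assoc_of (M.Sh_U _ _)]
  rw [e, h, M.E_mul, M.U_mul, M.Sh_mul, mulB]
  by_cases hj : p.j = q.i
  · rw [if_pos hj, if_pos (by omega), rho_single, one_smul, be]
    congr 4
    simp only
    omega
  · rw [if_neg hj, if_neg (by omega), map_zero, zero_mul]

theorem rho_fmul (t u : F Λ) (h : ∀ p ∈ t.support, ∀ q ∈ u.support,
    M.P p.a * M.P (q.a + p.g) = M.P (max p.a (q.a + p.g))) :
    M.rho (fmul t u) = M.rho t * M.rho u := by
  rw [fmul_eq, map_sum, rho_eq M t, rho_eq M u, Finset.sum_mul]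
  refine Finset.sum_congr rfl fun p hp => ?_
  rw [map_sum, Finset.mul_sum]
  refine Finset.sum_congr rfl fun q hq => ?_
  rw [map_smul, ← be_mul M p q (h p hp q hq), smul_mul_smul_comm]

omit [LinearOrder Λ] in
theorem be_star (p : Ix Λ) : star (M.be p) = M.be (starB p) := by
  simp only [be, starB, star_mul, M.E_star, M.P_star, M.U_star, M.Sh_star, mul_assoc, neg_sub]
  rw [M.P_E, assoc_of (M.U_E _ _), assoc_of (M.Sh_E _ _), M.U_P, assoc_of (M.Sh_P _ _), M.Sh_U,
    ← sub_eq_add_neg]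
  congr 2
  omega

omit [LinearOrder Λ] in
theorem rho_fstar (t : F Λ) : M.rho (fstar t) = star (M.rho t) := by
  induction t using Finsupp.induction_linear with
  | zero => simp
  | add a b ha hb => simp [ha, hb]
  | single p c => rw [fstar_single, rho_single, rho_single, star_smul, be_star]

def Adm (X : Finset Λ) : Prop := ∀ a ∈ X, ∀ b ∈ X, a ≤ b → M.P a * M.P b = M.P b

theorem Adm.mono {M : Model Λ Ω} {X Y : Finset Λ} (h : M.Adm Y) (hs : X ⊆ Y) : M.Adm X :=
  fun a ha b hb => h a (hs ha) b (hs hb)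

theorem Adm.max {M : Model Λ Ω} {X : Finset Λ} (h : M.Adm X) {a b : Λ} (ha : a ∈ X) (hb : b ∈ X) :
    M.P a * M.P b = M.P (max a b) := by
  rcases le_total a b with hab | hab
  · rw [max_eq_right hab, h a ha b hb hab]
  · rw [max_eq_left hab, ← M.P_star a, ← M.P_star b, ← star_mul, h b hb a ha hab]

def comap (φ : Λ' →+ Λ) : Model Λ' Ω where
  E := M.E
  Sh := M.Sh
  U g := M.U (φ g)
  P a := M.P (φ a)
  E_mul := M.E_mul
  E_star := M.E_star
  Sh_mul := M.Sh_mul
  Sh_zero := M.Sh_zero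
  Sh_star := M.Sh_star
  Sh_E := M.Sh_E
  U_mul g h := by rw [M.U_mul, map_add]
  U_zero := by rw [map_zero, M.U_zero]
  U_star g := by rw [M.U_star, map_neg]
  U_P g b := by rw [M.U_P, map_add]
  P_star _ := M.P_star _
  P_idem _ := M.P_idem _
  P_E _ _ := M.P_E _ _
  U_E _ _ := M.U_E _ _
  Sh_P _ _ := M.Sh_P _ _
  Sh_U _ _ := M.Sh_U _ _

omit [LinearOrder Λ] [LinearOrder Λ'] in
theorem rho_comap (φ : Λ' →+ Λ) (t : F Λ') : (M.comap φ).rho t = M.rho (mapF φ 0 t) := by
  induction t using Finsupp.induction_linear with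
  | zero => simp
  | add a b ha hb => simp [ha, hb]
  | single p c =>
    rw [mapF_single, rho_single, rho_single]
    simp [be, comap, ixMap]

end Model

def admF (Λ Ω : Type) [AddCommGroup Λ] [LinearOrder Λ] : Filter (Model Λ Ω) where
  sets := {s | ∃ X : Finset Λ, ∀ M, M.Adm X → M ∈ s}
  univ_sets := ⟨∅, fun _ _ => trivial⟩
  sets_of_superset := fun ⟨X, h⟩ hs => ⟨X, fun M hM => hs (h M hM)⟩
  inter_sets := fun ⟨X, h⟩ ⟨Y, h'⟩ => ⟨X ∪ Y, fun M hM =>
    ⟨h M (hM.mono Finset.subset_union_left), h' M (hM.mono Finset.subset_union_right)⟩⟩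

theorem ev_adm {Φ : Model Λ Ω → Prop} :
    (∀ᶠ M in admF Λ Ω, Φ M) ↔ ∃ X : Finset Λ, ∀ M, M.Adm X → Φ M := Iff.rfl

theorem ev_fmul (t u : F Λ) : ∀ᶠ M in admF Λ Ω, M.rho (fmul t u) = M.rho t * M.rho u := by
  refine ev_adm.2 ⟨t.support.image Ix.a ∪
    (t.support ×ˢ u.support).image fun x => x.2.a + x.1.g, fun M hM => ?_⟩
  refine M.rho_fmul t u fun p hp q hq => hM.max ?_ ?_
  · exact Finset.mem_union_left _ (Finset.mem_image_of_mem _ hp)
  · exact Finset.mem_union_right _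
      (Finset.mem_image.2 ⟨(p, q), Finset.mem_product.2 ⟨hp, hq⟩, rfl⟩)

theorem ev_fqk (k : ℕ) (t : F Λ) : ∀ᶠ M in admF Λ Ω, M.rho (fqk k t) = qk k (M.rho t) := by
  induction k with
  | zero => exact Eventually.of_forall fun _ => rfl
  | succ k ih =>
    filter_upwards [ih, ev_fmul (fqk k t) (fqk k t), ev_fmul (fmul (fqk k t) (fqk k t)) (fqk k t)]
      with M h1 h2 h3
    rw [fqk_succ, qk_succ, fnw, nw, map_sub, map_nsmul, map_nsmul, h3, h2, h1]

end Pool.Agent.P.MP_c88791_an
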