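import Pool.Agent.P.MP_c88791_an.Pair

/-! Gap labelling: the rank density of a formal almost projection lies in the group. -/

noncomputable section
open scoped Topology Classical
open Filter

namespace Pool.Agent.P.MP_c88791_an

variable {Λ Ω : Type} [AddCommGroup Λ] [LinearOrder Λ]

def fe (I : Finset ℤ) (β : Λ) : F Λ :=
  ∑ i ∈ I, (Finsupp.single ⟨i, i, 0, 0⟩ 1 - Finsupp.single ⟨i, i, β, 0⟩ 1)

omit [LinearOrder Λ] in
theorem rho_fe (M : Model Λ Ω) (I : Finset ℤ) (β : Λ) :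
    M.rho (fe I β) = (∑ i ∈ I, M.E i) * (M.P 0 - M.P β) := by
  simp only [fe, map_sum, map_sub, M.rho_single, one_smul, Model.be, sub_self, M.U_zero,
    M.Sh_zero, mul_one, Finset.sum_mul, mul_sub, Finset.sum_sub_distrib]

theorem sum_lE (I : Finset ℤ) : ∑ i ∈ I, lE i = ind {ω | ω.1 ∈ I} :=
  opExt fun ξ ω => by
    rw [_root_.sum_apply, lp.coeFn_sum, Finset.sum_apply, ind_apply]
    simp only [lE, ind_apply, Set.mem_ofPred_eq, Finset.sum_ite_eq]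

theorem up_subset {a b : ℤ} (h : a ≤ b) : {ω : ZZ | b ≤ ω.2} ⊆ {ω : ZZ | a ≤ ω.2} :=
  fun _ hω => h.trans hω

omit [LinearOrder Λ] in
theorem nm_fe (ν : Module.Dual ℤ Λ) (I : Finset ℤ) {β : Λ} (h : 0 ≤ ν β) :
    (nm ν).rho (fe I β) = ind ((I ×ˢ Finset.Ico 0 (ν β) : Finset ZZ) : Set ZZ) := by
  rw [rho_fe]
  change (∑ i ∈ I, lE i) * (pS1.pu (ν 0) _ - pS1.pu (ν β) _) = _
  rw [sum_lE, pS1_pu, pS1_pu, map_zero, ind_sub (up_subset h), ind_mul]
  exact ind_congr fun ω => by simp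

omit [LinearOrder Λ] in
theorem bcl_fe (t : ℝ) (ν ν' : Module.Dual ℤ Λ) (I : Finset ℤ) {β : Λ} (h : 0 ≤ ν β)
    (h' : 0 ≤ ν' β) :
    Supp (I ×ˢ Finset.Ico 0 (2 * (ν β + ν' β))) (((bcl t).model ν ν').rho (fe I β)) := by
  have hst : star (((bcl t).model ν ν').rho (fe I β)) = ((bcl t).model ν ν').rho (fe I β) := by
    rw [rho_fe, star_mul, star_sub, Model.P_star, Model.P_star, Model.sumE_star, sub_mul, mul_sub]
    simp only [Finset.mul_sum, Finset.sum_mul, Model.P_E]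
  have key : ind ((I ×ˢ Finset.Ico 0 (2 * (ν β + ν' β)) : Finset ZZ) : Set ZZ) *
      ((bcl t).model ν ν').rho (fe I β) = ((bcl t).model ν ν').rho (fe I β) := by
    rw [rho_fe]
    change _ * ((∑ i ∈ I, lE i) * ((bcl t).pu (ν 0) (ν' 0) - (bcl t).pu (ν β) (ν' β))) =
      (∑ i ∈ I, lE i) * ((bcl t).pu (ν 0) (ν' 0) - (bcl t).pu (ν β) (ν' β))
    have e1 := (bcl t).pu_mul h h'
    have e2 := (bcl t).pu_mul (n := ν β) (m := ν' β) (n' := ν β + ν' β) (m' := ν β + ν' β)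
      (by omega) (by omega)
    have e3 := congrArg star e2
    rw [star_mul, Pair.pu_star, Pair.pu_star, bcl_pu_diag] at e3
    rw [Pair.pu_zero] at e1
    have e4 : ind ((I ×ˢ Finset.Ico 0 (2 * (ν β + ν' β)) : Finset ZZ) : Set ZZ) *
        ind {ω | ω.1 ∈ I} = ind {ω | ω.1 ∈ I} * (P0 - ind {ω | 2 * (ν β + ν' β) ≤ ω.2}) := by
      rw [P0, ind_sub (up_subset (by omega)), ind_mul, ind_mul]
      exact ind_congr fun ω => by simp; tauto
    have e5 : ind {ω : ZZ | 2 * (ν β + ν' β) ≤ ω.2} * P0 = ind {ω | 2 * (ν β + ν' β) ≤ ω.2} :=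
      ind_mul_of_subset' (up_subset (by omega))
    rw [map_zero, map_zero, Pair.pu_zero, sum_lE, ← mul_assoc, e4, mul_assoc, sub_mul, mul_sub P0,
      mul_sub _ P0, P0_idem, e1, e3, e5, sub_self, sub_zero]
  exact ⟨key, by rw [← hst, ← ind_star, ← star_mul, key]⟩

def WS (M : Model Λ Ω) (I : Finset ℤ) (β : Λ) (a : B Ω) : Prop :=
  M.rho (fe I β) * a = a ∧ a * M.rho (fe I β) = a

omit [LinearOrder Λ] in
theorem WS.supp {M : Model Λ Ω} {I : Finset ℤ} {β : Λ} {a : B Ω} (h : WS M I β a) {S : Finset Ω}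
    (hs : Supp S (M.rho (fe I β))) : Supp S a :=
  ⟨by rw [← h.1, ← mul_assoc, hs.1], by rw [← h.2, mul_assoc, hs.2]⟩

omit [LinearOrder Λ] in
theorem WS.supp_nm {ν : Module.Dual ℤ Λ} {I : Finset ℤ} {β : Λ} {a : B ZZ}
    (h : WS (nm ν) I β a) (hβ : 0 ≤ ν β) : Supp (I ×ˢ Finset.Ico 0 (ν β)) a :=
  h.supp (by rw [nm_fe ν I hβ]; exact supp_ind _)

def Gd (M : Model Λ Ω) (I : Finset ℤ) (β : Λ) (y : F Λ) : Prop :=
  AP (M.rho y) ∧ WS M I β (M.rho y)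

def coneF (Λ : Type) [AddCommGroup Λ] [LinearOrder Λ] : Filter (Module.Dual ℤ Λ) where
  sets := {s | ∃ X : Finset Λ, ∀ ν : Module.Dual ℤ Λ, StrictMonoOn ν X → ν ∈ s}
  univ_sets := ⟨∅, fun _ _ => trivial⟩
  sets_of_superset := fun ⟨X, h⟩ hs => ⟨X, fun M hM => hs (h M hM)⟩
  inter_sets := fun ⟨X, h⟩ ⟨Y, h'⟩ => ⟨X ∪ Y, fun M hM =>
    ⟨h M (hM.mono (by simp)), h' M (hM.mono (by simp))⟩⟩

theorem ev_cone {Φ : Module.Dual ℤ Λ → Prop} : (∀ᶠ ν in coneF Λ, Φ ν) ↔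
    ∃ X : Finset Λ, ∀ ν : Module.Dual ℤ Λ, StrictMonoOn ν X → Φ ν := Iff.rfl

theorem nm_adm {ν : Module.Dual ℤ Λ} {X : Finset Λ} (h : StrictMonoOn ν X) : (nm ν).Adm X :=
  pS1.model_adm h.monotoneOn fun _ _ _ _ _ => le_rfl

theorem tendsto_nm : Tendsto (nm : Module.Dual ℤ Λ → Model Λ ZZ) (coneF Λ) (admF Λ ZZ) :=
  fun _ ⟨X, h⟩ => ⟨X, fun _ hν => h _ (nm_adm hν)⟩

theorem ev_nonneg {β : Λ} (hβ : 0 ≤ β) : ∀ᶠ ν in coneF Λ, 0 ≤ ν β :=
  ev_cone.2 ⟨{0, β}, fun ν hν => by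
    simpa using hν.monotoneOn (a := 0) (b := β) (by simp) (by simp) hβ⟩

theorem rk_additive {I : Finset ℤ} {β : Λ} (hβ : 0 ≤ β) {y : F Λ}
    (hy : ∀ᶠ M in admF Λ ZZ, Gd M I β y) : ∃ X : Finset Λ,
      (∀ ν : Module.Dual ℤ Λ, StrictMonoOn ν X → ∃ n : ℕ, rk ((nm ν).rho y) = n) ∧
      ∀ ν ν' : Module.Dual ℤ Λ, StrictMonoOn ν X → StrictMonoOn ν' X →
        rk ((nm (ν + ν')).rho y) = rk ((nm ν).rho y) + rk ((nm ν').rho y) := by
  obtain ⟨X, hX⟩ := ev_adm.1 hy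
  obtain ⟨Y, hY⟩ := ev_cone.1 (ev_nonneg hβ)
  have hx : ∀ ν : Module.Dual ℤ Λ, StrictMonoOn ν (X ∪ Y : Finset Λ) → StrictMonoOn ν X :=
    fun ν h => h.mono (by simp)
  have hy : ∀ ν : Module.Dual ℤ Λ, StrictMonoOn ν (X ∪ Y : Finset Λ) → 0 ≤ ν β :=
    fun ν h => hY ν (h.mono (by simp))
  refine ⟨X ∪ Y, fun ν h => ?_, fun ν ν' h h' => ?_⟩
  · have := hX _ (nm_adm (hx ν h))
    exact rk_nat (this.2.supp_nm (hy ν h)) this.1
  · have hb : ∀ t, Gd ((bcl t).model ν ν') I β y := fun t =>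
      hX _ ((bcl t).model_adm (hx ν h).monotoneOn (hx ν' h').monotoneOn)
    have hs := fun t => (hb t).2.supp (bcl_fe t ν ν' I (hy ν h) (hy ν' h'))
    rw [← bcl_one_rho, ← rk_homotopy (continuous_rho ν ν' y) (fun t _ => hs t) fun t _ => (hb t).1]
    exact rk_split iOdd iEven odd_even_disj odd_even_cover (hs 0) (rel_odd ν ν' y)
      (rel_even ν ν' y) (hb 0).1 (hX _ (nm_adm (hx ν h))).1 (hX _ (nm_adm (hx ν' h'))).1

theorem ext_add {A : Type} [AddCommGroup A] (C : Set A) (hadd : ∀ a ∈ C, ∀ b ∈ C, a + b ∈ C)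
    {a₀ : A} (h₀ : a₀ ∈ C) (habs : ∀ k, ∃ n : ℕ, k + n • a₀ ∈ C) (r : A → ℤ)
    (hr : ∀ a ∈ C, ∀ b ∈ C, r (a + b) = r a + r b) : ∃ φ : A →+ ℤ, ∀ a ∈ C, r a = φ a := by
  have h1 : ∀ a ∈ C, ∀ n : ℕ, a + n • a₀ ∈ C ∧ r (a + n • a₀) = r a + n * r a₀ := by
    intro a ha n
    induction n with
    | zero => simpa using ha
    | succ n ih =>
      rw [succ_nsmul, ← add_assoc]
      exact ⟨hadd _ ih.1 _ h₀, by rw [hr _ ih.1 _ h₀, ih.2]; push_cast; ring⟩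
  have h2 : ∀ k (n m : ℕ), k + n • a₀ ∈ C → k + m • a₀ ∈ C →
      r (k + n • a₀) - n * r a₀ = r (k + m • a₀) - m * r a₀ := by
    intro k n m hn hm
    have e1 := (h1 _ hn m).2
    have e2 := (h1 _ hm n).2
    rw [add_right_comm] at e2
    linarith
  choose n hn using habs
  refine ⟨AddMonoidHom.mk' (fun k => r (k + n k • a₀) - n k * r a₀) fun k l => ?_, fun a ha => ?_⟩
  · have e : k + l + (n k + n l) • a₀ = k + n k • a₀ + (l + n l • a₀) := by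
      rw [add_nsmul]; abel
    have hm : k + l + (n k + n l) • a₀ ∈ C := e ▸ hadd _ (hn k) _ (hn l)
    rw [h2 _ _ _ (hn (k + l)) hm, e, hr _ (hn k) _ (hn l)]
    push_cast; ring
  · have := h2 a 0 (n a) (by simpa using ha) (hn a)
    simpa using this

theorem gap_add [Module.Free ℤ Λ] [Module.Finite ℤ Λ] [(coneF Λ).NeBot] {I : Finset ℤ} {β : Λ}
    (hβ : 0 ≤ β) {y : F Λ} (hy : ∀ᶠ M in admF Λ ZZ, Gd M I β y) :
    ∃ γ : Λ, ∀ᶠ ν in coneF Λ, rk ((nm ν).rho y) = ν γ := by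
  obtain ⟨X, h1, h2⟩ := rk_additive hβ hy
  obtain ⟨ν₀, h₀⟩ := (ev_cone (Φ := fun ν => StrictMonoOn ν X)).2 ⟨X, fun _ h => h⟩ |>.exists
  let r : Module.Dual ℤ Λ → ℤ := fun ν => ⌊(rk ((nm ν).rho y)).re⌋
  have hr : ∀ ν : Module.Dual ℤ Λ, StrictMonoOn ν X → rk ((nm ν).rho y) = r ν := by
    intro ν h
    obtain ⟨n, hn⟩ := h1 ν h
    simp [r, hn]
  have hadd : ∀ ν ν' : Module.Dual ℤ Λ, StrictMonoOn ν X → StrictMonoOn ν' X →
      StrictMonoOn (ν + ν' : Module.Dual ℤ Λ) X :=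
    fun ν ν' h h' a ha b hb hab => add_lt_add (h ha hb hab) (h' ha hb hab)
  obtain ⟨φ, hφ⟩ := ext_add {ν : Module.Dual ℤ Λ | StrictMonoOn ν X}
    (fun ν h ν' h' => hadd ν ν' h h') h₀ (fun κ => by
      refine ⟨2 * ∑ x ∈ X, (κ x).natAbs + 1, fun a ha b hb hab => ?_⟩
      have e1 := h₀ ha hb hab
      have e2 : (κ a).natAbs ≤ ∑ x ∈ X, (κ x).natAbs :=
        Finset.single_le_sum (f := fun x => (κ x).natAbs) (fun _ _ => Nat.zero_le _) ha
      have e3 : (κ b).natAbs ≤ ∑ x ∈ X, (κ x).natAbs :=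
        Finset.single_le_sum (f := fun x => (κ x).natAbs) (fun _ _ => Nat.zero_le _) hb
      generalize ∑ x ∈ X, (κ x).natAbs = N at *
      simp only [LinearMap.add_apply, LinearMap.smul_apply, nsmul_eq_mul]
      have e4 : κ a - κ b < (2 * N + 1 : ℕ) := by omega
      have e5 : (0 : ℤ) ≤ (2 * N + 1 : ℕ) := by positivity
      nlinarith) r (fun ν h ν' h' => by
      have := h2 ν ν' h h'
      rw [hr _ (hadd ν ν' h h'), hr _ h, hr _ h'] at this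
      exact_mod_cast this)
  refine ⟨(Module.evalEquiv ℤ Λ).symm φ.toIntLinearMap, ev_cone.2 ⟨X, fun ν h => ?_⟩⟩
  rw [hr ν h, hφ ν h, Module.apply_evalEquiv_symm_apply]
  rfl

omit [LinearOrder Λ] in
theorem ent_be (ν : Module.Dual ℤ Λ) (p : Ix Λ) (ω : ZZ) : ent ((nm ν).be p) ω ω =
    if ω.1 = p.i ∧ ν p.a ≤ ω.2 ∧ p.i = p.j ∧ ν p.g = 0 then 1 else 0 := by
  change (lE p.i * (pS1.pu (ν p.a) _ * (pS1.u (ν p.g) _ * lSh (p.i - p.j)))) (dl ω) ω = _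
  rw [pS1_pu, pS1_u]
  simp only [mul_app, lE, ind_apply, perm_apply, lSh, dl_apply, Set.mem_ofPred_eq]
  have : ((Equiv.prodCongr (Equiv.addRight (p.i - p.j)) (Equiv.refl ℤ)).symm
      ((fp (Equiv.addRight (ν p.g))).symm ω) = ω) ↔ p.i = p.j ∧ ν p.g = 0 := by
    change ((ω.1 + -(p.i - p.j), ω.2 + -(ν p.g)) : ZZ) = ω ↔ _
    rw [Prod.ext_iff]
    simp only
    omega
  simp only [this]
  split_ifs <;> simp_all

theorem tr_nm {ν : Module.Dual ℤ Λ} {t : F Λ} (h : ∀ p ∈ t.support, ν p.g = 0 → p.g = 0)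
    {S : Finset ZZ} (hs : Supp S ((nm ν).rho t)) :
    tr ((nm ν).rho t) = tau (fun a => (ν a : ℂ)) t := by
  let I : Finset ℤ := S.image Prod.fst ∪ t.support.image Ix.i
  obtain ⟨M₀, hM₀⟩ : ∃ M₀ : ℤ, ∀ m ∈ S.image Prod.snd ∪ t.support.image fun p => ν p.a,
      |m| < M₀ := by
    obtain ⟨M₀, hM₀⟩ := ((S.image Prod.snd ∪ t.support.image fun p => ν p.a).image abs).bddAbove
    exact ⟨M₀ + 1, fun m hm => Int.lt_add_one_of_le (hM₀ (Finset.mem_image_of_mem _ hm))⟩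
  have key : ∀ M, M₀ ≤ M → tr ((nm ν).rho t) = tau (fun a => (ν a : ℂ)) t +
      M * ∑ p ∈ t.support, t p * if p.i = p.j ∧ p.g = 0 then 1 else 0 := by
    intro M hM
    have hS : S ⊆ I ×ˢ Finset.Ico (-M) M := fun ω hω => by
      have := abs_lt.1 (hM₀ ω.2 (Finset.mem_union_left _ (Finset.mem_image_of_mem _ hω)))
      exact Finset.mem_product.2 ⟨Finset.mem_union_left _ (Finset.mem_image_of_mem _ hω),
        Finset.mem_Ico.2 ⟨by omega, by omega⟩⟩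
    rw [(hs.mono hS).tr_eq, tau_eq, Finset.mul_sum, ← Finset.sum_add_distrib, Model.rho_eq, trS]
    simp only [show ∀ (T : B ZZ) (ω : ZZ), ent T ω ω = entL ω ω T from fun _ _ => rfl, map_sum,
      map_smul, smul_eq_mul]
    rw [Finset.sum_comm]
    refine Finset.sum_congr rfl fun p hp => ?_
    simp only [show ∀ (T : B ZZ) (ω : ZZ), entL ω ω T = ent T ω ω from fun _ _ => rfl, ent_be]
    rw [← Finset.mul_sum, mul_left_comm, ← mul_add]
    congr 1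
    by_cases hc : p.i = p.j ∧ p.g = 0
    · have ha := abs_lt.1 (hM₀ (ν p.a) (Finset.mem_union_right _ (Finset.mem_image_of_mem _ hp)))
      have hi : p.i ∈ I := Finset.mem_union_right _ (Finset.mem_image_of_mem _ hp)
      rw [if_pos hc, if_pos hc, Finset.sum_boole]
      have : (I ×ˢ Finset.Ico (-M) M).filter
          (fun ω => ω.1 = p.i ∧ ν p.a ≤ ω.2 ∧ p.i = p.j ∧ ν p.g = 0) =
          {p.i} ×ˢ Finset.Ico (ν p.a) M := by
        ext ω
        simp only [Finset.mem_filter, Finset.mem_product, Finset.mem_Ico, Finset.mem_singleton,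
          hc.2, map_zero]
        constructor
        · rintro ⟨⟨_, _, h3⟩, h4, h5, _⟩; exact ⟨h4, h5, h3⟩
        · rintro ⟨h1, h2, h3⟩; exact ⟨⟨h1 ▸ hi, by omega, h3⟩, h1, h2, hc.1, trivial⟩
      rw [this, Finset.card_product, Finset.card_singleton, one_mul, Int.card_Ico]
      have : ((M - ν p.a).toNat : ℤ) = M - ν p.a := Int.toNat_of_nonneg (by omega)
      have : (((M - ν p.a).toNat : ℕ) : ℂ) = M - ν p.a := by exact_mod_cast this
      rw [this]; ring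
    · rw [if_neg hc, if_neg hc, mul_zero, add_zero]
      exact Finset.sum_eq_zero fun ω _ => if_neg fun h' => hc ⟨h'.2.2.1, h p hp h'.2.2.2⟩
  have e1 := key M₀ le_rfl
  have e2 := key (M₀ + 1) (by omega)
  push_cast at e2
  linear_combination (M₀ + 1 : ℂ) * e1 - (M₀ : ℂ) * e2

theorem ev_inj (t : F Λ) : ∀ᶠ ν in coneF Λ, ∀ p ∈ t.support, ν p.g = 0 → p.g = 0 :=
  ev_cone.2 ⟨insert 0 (t.support.image Ix.g), fun ν hν p hp h =>
    hν.injOn (by simp only [Finset.coe_insert]; exact Or.inr (Finset.mem_image_of_mem _ hp))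
      (by simp) (by rw [h, map_zero])⟩

omit [LinearOrder Λ] in
theorem exists_seq [Module.Free ℤ Λ] [Module.Finite ℤ Λ] (θ : Λ →+ ℝ) :
    ∃ ν : ℕ → Module.Dual ℤ Λ, ∀ x, Tendsto (fun T : ℕ => (ν T x : ℝ) / T) atTop (𝓝 (θ x)) := by
  let b := Module.Free.chooseBasis ℤ Λ
  refine ⟨fun T => b.constr ℤ fun i => ⌊(T : ℝ) * θ (b i)⌋, fun x => ?_⟩
  have h1 : ∀ c : ℝ, Tendsto (fun T : ℕ => ((⌊(T : ℝ) * c⌋ : ℤ) : ℝ) / T) atTop (𝓝 c) := by
    intro c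
    rw [tendsto_iff_norm_sub_tendsto_zero]
    refine squeeze_zero' (Eventually.of_forall fun _ => norm_nonneg _) ?_
      tendsto_one_div_atTop_nhds_zero_nat
    filter_upwards [eventually_gt_atTop 0] with T hT
    have hT' : (0 : ℝ) < T := by exact_mod_cast hT
    have e : ((⌊(T : ℝ) * c⌋ : ℤ) : ℝ) / T - c = (⌊(T : ℝ) * c⌋ - T * c) / T := by field_simp
    rw [e, Real.norm_eq_abs, abs_div, abs_of_pos hT']
    gcongr
    rw [abs_le]
    constructor <;> linarith [Int.floor_le ((T : ℝ) * c), Int.lt_floor_add_one ((T : ℝ) * c)]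
  have h2 : θ x = ∑ i, (b.repr x i : ℝ) * θ (b i) := by
    conv_lhs => rw [← b.sum_repr x]
    simp only [map_sum, map_zsmul, zsmul_eq_mul]
  rw [h2]
  refine (tendsto_finsetSum _ fun i _ => (h1 (θ (b i))).const_mul (b.repr x i : ℝ)).congr
    fun T => ?_
  rw [Module.Basis.constr_apply_fintype]
  simp [Finset.sum_div, mul_div_assoc]

theorem tendsto_cone {θ : Λ →+ ℝ} (hθ : StrictMono θ) {ν : ℕ → Module.Dual ℤ Λ}
    (hν : ∀ x, Tendsto (fun T : ℕ => (ν T x : ℝ) / T) atTop (𝓝 (θ x))) :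
    Tendsto ν atTop (coneF Λ) := by
  rintro s ⟨X, hX⟩
  have : ∀ᶠ T in atTop, ∀ x ∈ X ×ˢ X, x.1 < x.2 → ν T x.1 < ν T x.2 := by
    rw [Finset.eventually_all]
    intro x _
    by_cases h : x.1 < x.2
    · filter_upwards [(hν x.1).eventually_lt (hν x.2) (hθ h)] with T hT _
      have := lt_of_mul_lt_mul_right hT (by positivity)
      exact_mod_cast this
    · exact Eventually.of_forall fun _ h' => (h h').elim
  rw [mem_map]
  filter_upwards [this] with T hT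
  exact hX _ fun a ha b hb hab => hT (a, b) (Finset.mem_product.2 ⟨ha, hb⟩) hab

omit [LinearOrder Λ] in
theorem tendsto_seq_c {θ : Λ →+ ℝ} {ν : ℕ → Module.Dual ℤ Λ}
    (hν : ∀ x, Tendsto (fun T : ℕ => (ν T x : ℝ) / T) atTop (𝓝 (θ x))) (x : Λ) :
    Tendsto (fun T : ℕ => (ν T x : ℂ) / T) atTop (𝓝 (θ x : ℂ)) := by
  simpa [Function.comp_def] using (Complex.continuous_ofReal.tendsto _).comp (hν x)

theorem gap_dens {θ : Λ →+ ℝ} (hθ : StrictMono θ) {ν : ℕ → Module.Dual ℤ Λ}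
    (hν : ∀ x, Tendsto (fun T : ℕ => (ν T x : ℝ) / T) atTop (𝓝 (θ x))) {I : Finset ℤ} {β : Λ}
    (hβ : 0 ≤ β) {y : F Λ} (hy : ∀ᶠ M in admF Λ ZZ, Gd M I β y) {L : ℂ}
    (hL : Tendsto (fun T : ℕ => rk ((nm (ν T)).rho y) / T) atTop (𝓝 L)) :
    Tendsto (fun k => tau (fun a => (θ a : ℂ)) (fqk k y)) atTop (𝓝 L) := by
  have hc := tendsto_cone hθ hν
  rw [tendsto_iff_norm_sub_tendsto_zero]
  refine squeeze_zero (g := fun k : ℕ => I.card * θ β * (1 / 2 ^ k)) (fun _ => norm_nonneg _)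
    (fun k => ?_) (by simpa using tendsto_half.const_mul (I.card * θ β))
  have h1 : Tendsto (fun T : ℕ => tau (fun a => (ν T a : ℂ)) (fqk k y) / T) atTop
      (𝓝 (tau (fun a => (θ a : ℂ)) (fqk k y))) := by
    simp only [tau_eq, Finset.sum_div, mul_div_assoc]
    refine tendsto_finsetSum _ fun p _ => Tendsto.const_mul _ ?_
    split_ifs
    · simpa [neg_div] using (tendsto_seq_c hν p.a).neg
    · simp
  refine le_of_tendsto_of_tendsto (h1.sub hL).norm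
    (((hν β).const_mul (I.card : ℝ)).mul_const (1 / 2 ^ k)) ?_
  filter_upwards [hc.eventually (tendsto_nm.eventually hy),
    hc.eventually (tendsto_nm.eventually (ev_fqk k y)), hc.eventually (ev_inj (fqk k y)),
    hc.eventually (ev_nonneg hβ)] with T h1 h2 h3 h4
  have hs := h1.2.supp_nm h4
  have e := rk_approx hs h1.1 k
  rw [← h2, tr_nm h3 (h2 ▸ hs.qk k), Finset.card_product, Int.card_Ico, sub_zero] at e
  have e' : (((ν T β).toNat : ℕ) : ℝ) = ν T β := by exact_mod_cast Int.toNat_of_nonneg h4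
  rw [← sub_div, norm_div, Complex.norm_natCast]
  refine (div_le_div_of_nonneg_right e (by positivity)).trans (le_of_eq ?_)
  push_cast
  rw [e']; ring

end Pool.Agent.P.MP_c88791_an
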