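import Pool.Agent.P.MP_c88791_an.Abs

/-! The affine group and the true model on `ℓ²(ℝ × G)`. -/

noncomputable section
open scoped Topology Classical
open Filter

namespace Pool.Agent.P.MP_c88791_an

variable {l : ℝ}

theorem zpow_mem_Gam (l : ℝ) (i : ℤ) : l ^ i ∈ Gam l := by
  have h1 : l ∈ Gam l := Subring.subset_closure (by simp)
  have h2 : l⁻¹ ∈ Gam l := Subring.subset_closure (by simp)
  rcases Int.eq_nat_or_neg i with ⟨n, rfl | rfl⟩
  · rw [zpow_natCast]; exact pow_mem h1 n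
  · rw [zpow_neg, zpow_natCast, ← inv_pow]; exact pow_mem h2 n

def lpw (l : ℝ) (i : ℤ) : Gam l := ⟨l ^ i, zpow_mem_Gam l i⟩

@[simp] theorem lpw_coe (i : ℤ) : (lpw l i : ℝ) = l ^ i := rfl

variable [hl : Fact (0 < l ∧ l ≠ 1)]

theorem lpos : 0 < l := hl.out.1
theorem lne : l ≠ 0 := hl.out.1.ne'
theorem lz_pos (i : ℤ) : 0 < l ^ i := zpow_pos lpos i
theorem lz_add (i j : ℤ) : l ^ (i + j) = l ^ i * l ^ j := zpow_add₀ lne i j
theorem lz_cancel (i : ℤ) : l ^ (-i) * l ^ i = 1 := by rw [← lz_add]; simp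
theorem lz_cancel' (i : ℤ) : l ^ i * l ^ (-i) = 1 := by rw [← lz_add]; simp

theorem mem_Grp {g : Equiv.Perm ℝ} (hg : g ∈ Grp l) :
    ∃ a ∈ Gam l, ∃ i : ℤ, ∀ x, g x = a + l ^ i * x := by
  induction hg using Subgroup.closure_induction with
  | mem g hg => exact hg
  | one => exact ⟨0, zero_mem _, 0, fun x => by simp⟩
  | mul g h _ _ hg hh =>
    obtain ⟨a, ha, i, hg⟩ := hg
    obtain ⟨b, hb, j, hh⟩ := hh
    exact ⟨a + l ^ i * b, add_mem ha (mul_mem (zpow_mem_Gam l i) hb), i + j, fun x => by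
      rw [Equiv.Perm.mul_apply, hg, hh, lz_add]; ring⟩
  | inv g _ hg =>
    obtain ⟨a, ha, i, hg⟩ := hg
    refine ⟨-(l ^ (-i) * a), neg_mem (mul_mem (zpow_mem_Gam l _) ha), -i, fun x => ?_⟩
    rw [Equiv.Perm.inv_eq_iff_eq, hg]
    linear_combination (a - x) * lz_cancel' (l := l) i

def ga (g : Grp l) (x : ℝ) : ℝ := (g : Equiv.Perm ℝ) x

def lev (g : Grp l) : ℤ := (mem_Grp g.2).choose_spec.2.choose

def off (g : Grp l) : Gam l := ⟨(mem_Grp g.2).choose, (mem_Grp g.2).choose_spec.1⟩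

theorem ga_eq (g : Grp l) (x : ℝ) : ga g x = off g + l ^ lev g * x :=
  (mem_Grp g.2).choose_spec.2.choose_spec x

omit hl in
theorem ga_mul (g h : Grp l) (x : ℝ) : ga (g * h) x = ga g (ga h x) := rfl

theorem lev_off {g : Grp l} {a : ℝ} {i : ℤ} (h : ∀ x, ga g x = a + l ^ i * x) :
    lev g = i ∧ (off g : ℝ) = a := by
  have h0 := h 0
  have h1 := h 1
  rw [ga_eq] at h0 h1
  exact ⟨zpow_right_injective₀ lpos hl.out.2 (by linarith : l ^ lev g = l ^ i), by linarith⟩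

theorem lev_mul (g h : Grp l) : lev (g * h) = lev g + lev h :=
  (lev_off (a := off g + l ^ lev g * off h) fun x => by
    rw [ga_mul, ga_eq, ga_eq, lz_add]; ring).1

theorem lev_one : lev (1 : Grp l) = 0 :=
  (lev_off (a := 0) fun x => by simp [ga]).1

theorem lev_inv (g : Grp l) : lev g⁻¹ = -lev g := by
  have := lev_mul g g⁻¹
  rw [mul_inv_cancel, lev_one] at this
  omega

def mkG (a : Gam l) (i : ℤ) : Grp l :=
  ⟨{ toFun := fun x => a + l ^ i * x
     invFun := fun y => l ^ (-i) * (y - a)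
     left_inv := fun x => by linear_combination x * lz_cancel (l := l) i
     right_inv := fun y => by linear_combination (y - a) * lz_cancel' (l := l) i },
    Subgroup.subset_closure ⟨a, a.2, i, fun _ => rfl⟩⟩

theorem ga_mkG (a : Gam l) (i : ℤ) (x : ℝ) : ga (mkG a i) x = a + l ^ i * x := rfl

theorem lev_mkG (a : Gam l) (i : ℤ) : lev (mkG a i) = i := (lev_off (ga_mkG a i)).1

theorem ga_mono (g : Grp l) : StrictMono (ga g) := fun x y h => by
  rw [ga_eq, ga_eq]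
  linarith [mul_lt_mul_of_pos_left h (lz_pos (l := l) (lev g))]

omit hl in
theorem ga_inv (g : Grp l) (x : ℝ) : ga g (ga g⁻¹ x) = x := by
  rw [← ga_mul, mul_inv_cancel]; rfl

def gact (g : Grp l) (a : Gam l) : Gam l := off g + lpw l (lev g) * a

theorem gact_coe (g : Grp l) (a : Gam l) : (gact g a : ℝ) = ga g a := (ga_eq g a).symm

abbrev Om (l : ℝ) : Type := ℝ × Grp l

def pos (ω : Om l) : ℝ := ga ω.2 ω.1

def lv (ω : Om l) : ℤ := lev ω.2

def sc (ω : Om l) : ℝ := l ^ (-lv ω) * pos ω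

theorem omExt {ω u : Om l} (h1 : ω.1 = u.1) (h2 : lv ω = lv u) (h3 : pos ω = pos u) : ω = u := by
  refine Prod.ext h1 (Subtype.ext (Equiv.ext fun x => ?_))
  change ga ω.2 x = ga u.2 x
  rw [pos, pos, ga_eq, ga_eq, h1] at h3
  rw [lv, lv] at h2
  rw [ga_eq, ga_eq]
  rw [h2] at h3 ⊢
  linarith

def lm (g : Grp l) : Equiv.Perm (Om l) := Equiv.prodCongr (Equiv.refl ℝ) (Equiv.mulLeft g)

omit hl in
theorem lamOp_eq (g : Grp l) : lamOp l g = perm (lm g) := rfl

omit hl in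
theorem lm_mul (g h : Grp l) : lm g * lm h = lm (g * h) :=
  Equiv.ext fun _ => Prod.ext rfl (mul_assoc _ _ _).symm

omit hl in
theorem lm_symm (g : Grp l) : (lm g).symm = lm g⁻¹ := rfl

omit hl in
theorem lm_one : lm (1 : Grp l) = 1 := Equiv.ext fun _ => Prod.ext rfl (one_mul _)

omit hl in
theorem pos_lm (g : Grp l) (ω : Om l) : pos (lm g ω) = ga g (pos ω) := rfl

theorem lv_lm (g : Grp l) (ω : Om l) : lv (lm g ω) = lev g + lv ω := lev_mul _ _

omit hl in
theorem fst_lm (g : Grp l) (ω : Om l) : (lm g ω).1 = ω.1 := rfl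

def tf (γ : Gam l) (ω : Om l) : Om l := lm (mkG (lpw l (lv ω) * γ) 0) ω

theorem lv_tf (γ : Gam l) (ω : Om l) : lv (tf γ ω) = lv ω := by
  rw [tf, lv_lm, lev_mkG, zero_add]

theorem pos_tf (γ : Gam l) (ω : Om l) : pos (tf γ ω) = pos ω + l ^ lv ω * γ := by
  rw [tf, pos_lm, ga_mkG]; simp [add_comm]

theorem tf_tf (γ δ : Gam l) (ω : Om l) : tf γ (tf δ ω) = tf (γ + δ) ω :=
  omExt rfl (by simp only [lv_tf]) (by simp only [pos_tf, lv_tf]; push_cast; ring)

theorem tf_zero (ω : Om l) : tf 0 ω = ω := omExt rfl (lv_tf _ _) (by simp [pos_tf])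

theorem sc_tf (γ : Gam l) (ω : Om l) : sc (tf γ ω) = sc ω + γ := by
  rw [sc, sc, lv_tf, pos_tf]
  linear_combination γ * lz_cancel (l := l) (lv ω)

def tU (γ : Gam l) : Equiv.Perm (Om l) where
  toFun := tf γ
  invFun := tf (-γ)
  left_inv ω := by rw [tf_tf, neg_add_cancel, tf_zero]
  right_inv ω := by rw [tf_tf, add_neg_cancel, tf_zero]

def dil (l : ℝ) [Fact (0 < l ∧ l ≠ 1)] (m : ℤ) : Grp l := mkG 0 m

theorem lv_dil (m : ℤ) (ω : Om l) : lv (lm (dil l m) ω) = m + lv ω := by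
  rw [lv_lm, dil, lev_mkG]

theorem pos_dil (m : ℤ) (ω : Om l) : pos (lm (dil l m) ω) = l ^ m * pos ω := by
  rw [pos_lm, dil, ga_mkG]; simp

theorem sc_dil (m : ℤ) (ω : Om l) : sc (lm (dil l m) ω) = sc ω := by
  rw [sc, sc, lv_dil, pos_dil, neg_add, lz_add]
  linear_combination l ^ (-lv ω) * pos ω * lz_cancel (l := l) m

theorem dil_mul (m n : ℤ) : lm (dil l m) * lm (dil l n) = lm (dil l (m + n)) :=
  Equiv.ext fun ω => omExt rfl
    (by simp only [Equiv.Perm.mul_apply, lv_dil, add_assoc])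
    (by simp only [Equiv.Perm.mul_apply, pos_dil, lz_add, mul_assoc])

theorem dil_zero : lm (dil l 0) = 1 :=
  Equiv.ext fun ω => omExt rfl (by simp [lv_dil]) (by simp [pos_dil])

theorem dil_symm (m : ℤ) : (lm (dil l m)).symm = lm (dil l (-m)) :=
  (eq_inv_of_mul_eq_one_left (by rw [dil_mul, neg_add_cancel, dil_zero])).symm

def M0 (l : ℝ) [Fact (0 < l ∧ l ≠ 1)] : Model (Gam l) (Om l) where
  E i := ind {ω | lv ω = i}
  Sh m := perm (lm (dil l m))
  U γ := perm (tU γ)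
  P a := ind {ω | (a : ℝ) ≤ sc ω}
  E_mul i j := by
    rw [ind_mul]
    split_ifs with h
    · subst h; rw [Set.inter_self]
    · exact ind_eq_zero fun ω hω => h (hω.1.symm.trans hω.2)
  E_star _ := ind_star _
  Sh_mul m n := by rw [perm_mul, dil_mul]
  Sh_zero := by rw [dil_zero, perm_one]
  Sh_star m := by rw [perm_star, ← dil_symm]; rfl
  Sh_E m j := by
    rw [perm_ind, dil_symm]
    congr 1
    refine ind_congr fun ω => ?_
    simp only [Set.mem_preimage, Set.mem_ofPred_eq, lv_dil]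
    omega
  U_mul γ δ := by
    rw [perm_mul]
    congr 1
    exact Equiv.ext fun ω => tf_tf γ δ ω
  U_zero := by
    rw [← perm_one]
    congr 1
    exact Equiv.ext fun ω => tf_zero ω
  U_star γ := by
    rw [perm_star]
    congr 1
    exact Equiv.ext fun ω => rfl
  U_P γ b := by
    rw [perm_ind]
    congr 1
    refine ind_congr fun ω => ?_
    change (b : ℝ) ≤ sc (tf (-γ) ω) ↔ ((b + γ : Gam l) : ℝ) ≤ sc ω
    rw [sc_tf]
    push_cast
    constructor <;> intro h <;> linarith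
  P_star _ := ind_star _
  P_idem _ := ind_idem _
  P_E _ _ := ind_comm _ _
  U_E γ i := by
    rw [perm_ind]
    congr 1
    refine ind_congr fun ω => ?_
    change lv (tf (-γ) ω) = i ↔ lv ω = i
    rw [lv_tf]
  Sh_P m a := by
    rw [perm_ind, dil_symm]
    congr 1
    refine ind_congr fun ω => ?_
    simp only [Set.mem_preimage, Set.mem_ofPred_eq, sc_dil]
  Sh_U m γ := by
    rw [perm_mul, perm_mul]
    congr 1
    refine Equiv.ext fun ω => ?_
    change lm (dil l m) (tf γ ω) = tf γ (lm (dil l m) ω)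
    exact omExt rfl (by simp only [lv_dil, lv_tf])
      (by simp only [pos_dil, pos_tf, lv_dil, lz_add]; ring)

theorem M0_adm (X : Finset (Gam l)) : (M0 l).Adm X := fun a _ b _ hab =>
  ind_mul_of_subset fun _ (h : (b : ℝ) ≤ _) => le_trans (show (a : ℝ) ≤ b from hab) h

theorem M0_be (p : Ix (Gam l)) (ξ : H (Om l)) (ω : Om l) : (M0 l).be p ξ ω =
    if p.i = lv ω ∧ (p.a : ℝ) ≤ sc ω then ξ (lm (dil l (p.j - p.i)) (tf (-p.g) ω)) else 0 := by
  change (ind {ω | lv ω = p.i} * (ind {ω | (p.a : ℝ) ≤ sc ω} * (perm (tU p.g) *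
    perm (lm (dil l (p.i - p.j))))) : B (Om l)) ξ ω = _
  simp only [mul_app, ind_apply, perm_apply, dil_symm, Set.mem_ofPred_eq, neg_sub, ite_and,
    eq_comm (a := lv ω)]
  rfl

theorem M0_true : (M0 l).IsTrue fun a => (a : ℝ) := fun s => by
  have h1 : ∀ o : ℤ × Gam l, lv ((s, mkG (lpw l o.1 * o.2) o.1) : Om l) = o.1 :=
    fun o => lev_mkG _ _
  have h2 : ∀ o : ℤ × Gam l, pos ((s, mkG (lpw l o.1 * o.2) o.1) : Om l) = l ^ o.1 * (s + o.2) :=
    fun o => by rw [pos, ga_mkG]; push_cast; rw [lpw_coe]; ring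
  have h3 : ∀ o : ℤ × Gam l, sc ((s, mkG (lpw l o.1 * o.2) o.1) : Om l) = s + o.2 :=
    fun o => by rw [sc, h1, h2, ← mul_assoc, lz_cancel, one_mul]
  refine ⟨⟨fun o => (s, mkG (lpw l o.1 * o.2) o.1), fun o o' h => ?_⟩, fun p ξ o => ?_⟩
  · have e1 := congrArg lv h
    have e2 := congrArg sc h
    simp only [h1, h3] at e1 e2
    exact Prod.ext e1 (Subtype.ext (by linarith))
  · simp only [Function.Embedding.coeFn_mk]
    rw [M0_be, h1, h3]
    split_ifs with h
    · refine congrArg (fun ω => ξ ω) (omExt (l := l) rfl ?_ ?_)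
      · rw [lv_dil, lv_tf, h1, h1 (p.j, o.2 - p.g)]
        simp only
        omega
      · rw [pos_dil, pos_tf, h1, h2, h2 (p.j, o.2 - p.g), ← h.1, ← mul_add, ← mul_assoc, ← lz_add]
        push_cast
        rw [sub_add_cancel]
        ring
    · rfl

end Pool.Agent.P.MP_c88791_an
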