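import Pool.Agent.P.MP_c88791_an.Core

/-! Matrices over `Q` versus operators in the crossed product; multiples of the unit class. -/

noncomputable section
open scoped Topology Classical Matrix

namespace Pool.Agent.P.MP_c88791_an

variable {l : ℝ} [hl : Fact (0 < l ∧ l ≠ 1)]

theorem lm_iv (g : Grp l) (a b : ℝ) :
    perm (lm g) * iv l a b = iv l (ga g a) (ga g b) * perm (lm g) := by
  rw [iv, iv, perm_ind, lm_symm]
  congr 1
  refine ind_congr fun ω => ?_
  simp only [Set.mem_preimage, Set.mem_ofPred_eq, pos_lm]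
  rw [← (ga_mono g).le_iff_le, ← (ga_mono g).lt_iff_lt (b := b), ga_inv]

omit hl in
theorem iv_star (a b : ℝ) : star (iv l a b) = iv l a b := ind_star _

omit hl in
theorem iv_idem (a b : ℝ) : iv l a b * iv l a b = iv l a b := ind_idem _

omit hl in
theorem iv_orth {a b c d : ℝ} (h : b ≤ c) : iv l a b * iv l c d = 0 := by
  rw [iv, iv, ind_mul]
  exact ind_eq_zero fun ω hω => by linarith [hω.1.2, hω.2.1]

omit hl in
theorem iv_orth' {a b c d : ℝ} (h : b ≤ c) : iv l c d * iv l a b = 0 := by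
  rw [iv, iv, ind_comm]
  exact iv_orth h

omit hl in
theorem iv_self (a : ℝ) : iv l a a = 0 := ind_eq_zero fun ω hω => by linarith [hω.1, hω.2]

omit hl in
theorem iv_add {a b c : ℝ} (h1 : a ≤ b) (h2 : b ≤ c) : iv l a b + iv l b c = iv l a c := by
  rw [← eq_sub_iff_add_eq, iv, iv, iv, ind_sub (S := {ω : Om l | a ≤ pos ω ∧ pos ω < c})
    (T := {ω : Om l | b ≤ pos ω ∧ pos ω < c}) fun _ x => ⟨h1.trans x.1, x.2⟩]
  refine ind_congr fun ω => ?_
  simp only [Set.mem_sdiff, Set.mem_ofPred_eq, not_and, not_lt]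
  exact ⟨fun h => ⟨⟨h.1, h.2.trans_le h2⟩, fun x => absurd h.2 (not_lt.2 x)⟩,
    fun h => ⟨h.1.1, not_le.1 fun x => absurd h.1.2 (not_lt.2 (h.2 x))⟩⟩

omit hl in
theorem iv_lm_mem {a b : ℝ} (ha : a ∈ Gam l) (hb : b ∈ Gam l) (h : a ≤ b) (g : Grp l) :
    iv l a b * perm (lm g) ∈ crossed l := by
  rcases h.eq_or_lt with rfl | h
  · rw [iv_self, zero_mul]; exact zero_mem _
  · rw [← piOp_chi, ← lamOp_eq]; exact pi_lam_mem l (chi_mem l ha hb h) g

omit hl in
theorem iv_crossed {a b : ℝ} (ha : a ∈ Gam l) (hb : b ∈ Gam l) (h : a ≤ b) :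
    iv l a b ∈ crossed l := by
  have := iv_lm_mem ha hb h 1
  rwa [lm_one, perm_one, mul_one] at this

omit hl in
theorem eOp_eq : eOp l = iv l 0 1 := piOp_chi 0 1

omit hl in
theorem lm_unit (g : Grp l) : star (perm (lm g)) * perm (lm g) = 1 ∧
    perm (lm g) * star (perm (lm g)) = 1 := (permU (lm g)).2

/-- The partial isometry from `[0,1)` onto `[i,i+1)`. -/
def su (l : ℝ) [Fact (0 < l ∧ l ≠ 1)] (i : ℕ) : B (Om l) := perm (lm (mkG (i : Gam l) 0)) * eOp l

theorem su_eq (i : ℕ) : su l i = iv l i (i + 1) * perm (lm (mkG (i : Gam l) 0)) := by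
  rw [su, eOp_eq, lm_iv]
  simp [ga_mkG]

theorem su_mem (i : ℕ) : su l i ∈ crossed l := by
  rw [su_eq]
  exact iv_lm_mem (natCast_mem _ _) (add_mem (natCast_mem _ _) (one_mem _)) (by linarith) _

theorem su_e (i : ℕ) : su l i * eOp l = su l i := by rw [su, mul_assoc, eOp_mul]

theorem e_su (i : ℕ) : eOp l * star (su l i) = star (su l i) := by
  rw [← eOp_star, ← star_mul, su_e]

theorem su_self (i : ℕ) : star (su l i) * su l i = eOp l := by
  rw [su, star_mul, mul_assoc, ← mul_assoc (star (perm _)), (lm_unit _).1, one_mul, eOp_star,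
    eOp_mul]

theorem su_ne {i j : ℕ} (h : i ≠ j) : star (su l i) * su l j = 0 := by
  rw [su_eq, su_eq, star_mul, iv_star, mul_assoc, ← mul_assoc (iv l _ _)]
  rcases h.lt_or_gt with h | h
  · rw [iv_orth (by exact_mod_cast h), zero_mul, mul_zero]
  · rw [iv_orth' (by exact_mod_cast h), zero_mul, mul_zero]

theorem su_star (i : ℕ) : su l i * star (su l i) = iv l i (i + 1) := by
  rw [su_eq, star_mul, mul_assoc, ← mul_assoc (perm _), (lm_unit _).2, one_mul, iv_star, iv_idem]

theorem su_sum (n : ℕ) : ∑ i : Fin n, su l i * star (su l i) = iv l 0 n := by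
  induction n with
  | zero => simp [iv_self]
  | succ n ih =>
    rw [Fin.sum_univ_castSucc]
    simp only [Fin.val_castSucc, Fin.val_last]
    rw [ih, su_star, iv_add (Nat.cast_nonneg n) (by linarith), Nat.cast_succ]

/-- The corner `Q^l = e A^l e`. -/
def Q (l : ℝ) : NonUnitalStarSubalgebra ℂ (B (Om l)) := corner (eOp_proj l)

/-- The unit of `Q^l`. -/
def unitQ (l : ℝ) : Q l := ⟨eOp l, eOp l, eOp_mem l, by rw [eOp_mul, eOp_mul]⟩

omit hl in
theorem Q_e (x : Q l) : eOp l * x = x ∧ x * eOp l = x := by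
  obtain ⟨_, a, _, rfl⟩ := x
  exact ⟨by rw [← mul_assoc, ← mul_assoc, eOp_mul], by rw [mul_assoc, eOp_mul]⟩

omit hl in
theorem Q_mem (x : Q l) : (x : B (Om l)) ∈ crossed l := by
  obtain ⟨_, a, ha, rfl⟩ := x
  exact mul_mem (mul_mem (eOp_mem l) ha) (eOp_mem l)

/-- A matrix over `Q` as an element of the crossed product. -/
def pack {a b : ℕ} (v : Matrix (Fin a) (Fin b) (Q l)) : B (Om l) :=
  ∑ i : Fin a, ∑ j : Fin b, su l i * v i j * star (su l j)

theorem pack_mem {a b : ℕ} (v : Matrix (Fin a) (Fin b) (Q l)) : pack v ∈ crossed l :=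
  sum_mem fun _ _ => sum_mem fun _ _ =>
    mul_mem (mul_mem (su_mem _) (Q_mem _)) (star_mem (su_mem _))

theorem su_pack {a b : ℕ} (v : Matrix (Fin a) (Fin b) (Q l)) (i : Fin a) :
    star (su l i) * pack v = ∑ j : Fin b, v i j * star (su l j) := by
  rw [pack, Finset.mul_sum, Finset.sum_eq_single i]
  · simp only [Finset.mul_sum, ← mul_assoc, su_self, (Q_e _).1]
  · intro k _ hk
    simp only [Finset.mul_sum, ← mul_assoc, su_ne (Fin.val_injective.ne hk.symm), zero_mul,
      Finset.sum_const_zero]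
  · simp

theorem unpack_pack {a b : ℕ} (v : Matrix (Fin a) (Fin b) (Q l)) (i : Fin a) (j : Fin b) :
    star (su l i) * pack v * su l j = v i j := by
  rw [su_pack, Finset.sum_mul, Finset.sum_eq_single j]
  · rw [mul_assoc, su_self, (Q_e _).2]
  · intro k _ hk
    rw [mul_assoc, su_ne (Fin.val_injective.ne hk), mul_zero]
  · simp

theorem pack_mul {a b c : ℕ} (v : Matrix (Fin a) (Fin b) (Q l)) (w : Matrix (Fin b) (Fin c) (Q l)) :
    pack v * pack w = pack (v * w) := by
  rw [pack, Finset.sum_mul, pack.eq_1 (v * w)]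
  refine Finset.sum_congr rfl fun i _ => ?_
  simp only [Finset.sum_mul, mul_assoc, su_pack, Matrix.mul_apply, Finset.mul_sum,
    AddSubmonoidClass.coe_finsetSum, MulMemClass.coe_mul]
  exact Finset.sum_comm

theorem pack_star {a b : ℕ} (v : Matrix (Fin a) (Fin b) (Q l)) : star (pack v) = pack vᴴ := by
  simp only [pack, star_sum, star_mul, star_star, Matrix.conjTranspose_apply, mul_assoc,
    StarMemClass.coe_star]
  exact Finset.sum_comm

theorem iv_pack {a b : ℕ} (v : Matrix (Fin a) (Fin b) (Q l)) : iv l 0 a * pack v = pack v := by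
  rw [← su_sum, Finset.sum_mul]
  simp only [mul_assoc, su_pack]
  simp only [Finset.mul_sum, pack, mul_assoc]

/-- Murray-von Neumann equivalence inside the crossed product. -/
def Eqv (l : ℝ) (P P' : B (Om l)) : Prop := ∃ V ∈ crossed l, star V * V = P ∧ V * star V = P'

/-- The class of a projection. -/
def cl (p : Proj (Q l)) : V (Q l) := Quot.mk _ p

theorem Eqv.of_quot {p q : Proj (Q l)} (h : cl p = cl q) :
    Eqv l (pack p.p) (pack q.p) := by
  have idem : ∀ p : Proj (Q l), pack p.p * pack p.p = pack p.p := fun p => by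
    rw [pack_mul, p.idem]
  have key : ∀ p q : Proj (Q l), Relation.EqvGen MvN p q → Eqv l (pack p.p) (pack q.p) := by
    intro p q h
    induction h with
    | rel p q h =>
      obtain ⟨v, h1, h2⟩ := h
      exact ⟨pack v, pack_mem v, by rw [pack_star, pack_mul, h1], by rw [pack_star, pack_mul, h2]⟩
    | refl p => exact ⟨pack p.p, pack_mem _, by rw [pack_star, p.sa, idem],
        by rw [pack_star, p.sa, idem]⟩
    | symm p q _ ih =>
      obtain ⟨V, hV, h1, h2⟩ := ih
      exact ⟨star V, star_mem hV, by rw [star_star, h2], by rw [star_star, h1]⟩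
    | trans p q r _ _ ih ih' =>
      obtain ⟨V, hV, h1, h2⟩ := ih
      obtain ⟨W, hW, h3, h4⟩ := ih'
      refine ⟨W * V, mul_mem hW hV, ?_, ?_⟩
      · rw [star_mul, mul_assoc, ← mul_assoc (star W), h3, ← h2, ← mul_assoc, ← mul_assoc,
          mul_assoc _ (star V), h1, idem]
      · rw [star_mul, mul_assoc, ← mul_assoc V, h2, ← h3, ← mul_assoc, ← mul_assoc,
          mul_assoc _ W, h4, idem]
  exact key p q (Quot.eqvGen_exact h)

omit hl in
theorem piso' {V E : B (Om l)} (h : V * star V = E) (h2 : E * E = E) : E * V = V := by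
  have h1 : star E = E := by rw [← h, star_mul, star_star]
  have := congrArg star (piso (V := star V) (by rw [star_star, h]) h2)
  rwa [star_mul, star_star, h1] at this

theorem Eqv.to_quot {p q : Proj (Q l)} (h : Eqv l (pack p.p) (pack q.p)) :
    cl p = cl q := by
  obtain ⟨V, hV, h1, h2⟩ := h
  have e1 : iv l 0 q.n * V = V := by
    rw [← piso' h2 (by rw [pack_mul, q.idem]), ← mul_assoc, iv_pack]
  have e2 : iv l 0 p.n * star V = star V := by
    rw [← piso' (V := star V) (by rw [star_star, h1]) (by rw [pack_mul, p.idem]), ← mul_assoc,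
      iv_pack]
  have hm : ∀ i j : ℕ, star (su l i) * V * su l j ∈ Q l := fun i j =>
    ⟨_, mul_mem (mul_mem (star_mem (su_mem i)) hV) (su_mem j), by
      rw [← mul_assoc, ← mul_assoc, e_su, mul_assoc _ _ (eOp l), su_e]⟩
  refine Quot.sound ⟨Matrix.of fun i j => ⟨_, hm i j⟩, ?_, ?_⟩
  · refine Matrix.ext fun j k => Subtype.ext ?_
    have e3 : star V * V = star V * (iv l 0 q.n * V) := by rw [e1]
    rw [← unpack_pack p.p, ← h1, e3, ← su_sum]
    simp only [Matrix.mul_apply, Matrix.conjTranspose_apply, Matrix.of_apply, Finset.mul_sum,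
      Finset.sum_mul, AddSubmonoidClass.coe_finsetSum, MulMemClass.coe_mul, StarMemClass.coe_star,
      star_mul, star_star, mul_assoc]
  · refine Matrix.ext fun j k => Subtype.ext ?_
    have e3 : V * star V = V * (iv l 0 p.n * star V) := by rw [e2]
    rw [← unpack_pack q.p, ← h2, e3, ← su_sum]
    simp only [Matrix.mul_apply, Matrix.conjTranspose_apply, Matrix.of_apply, Finset.mul_sum,
      Finset.sum_mul, AddSubmonoidClass.coe_finsetSum, MulMemClass.coe_mul, StarMemClass.coe_star,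
      star_mul, star_star, mul_assoc]

/-- The unit of `Q` as a `1 × 1` projection. -/
def uP (l : ℝ) : Proj (Q l) :=
  ⟨1, Matrix.of fun _ _ => unitQ l, Matrix.ext fun _ _ => Subtype.ext (eOp_star l),
    Matrix.ext fun _ _ => by simpa [Matrix.mul_apply] using Subtype.ext (eOp_mul l)⟩

omit hl in
theorem unitClass_eq (k : ℕ) :
    k • unitClass l = 0 ↔ k • Algebra.GrothendieckAddGroup.of (cl (uP l)) = 0 := Iff.rfl

theorem pack_sum (q : Proj (Q l)) : pack (q.sum (uP l)).p = pack q.p + iv l q.n (q.n + 1) := by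
  rw [← su_star]
  change pack (diag2 q.p (Matrix.of fun (_ _ : Fin 1) => unitQ l)) = _
  rw [pack, ← finSumFinEquiv.sum_comp, Fintype.sum_sum_type, pack]
  congr 1
  · refine Finset.sum_congr rfl fun i _ => ?_
    rw [← finSumFinEquiv.sum_comp, Fintype.sum_sum_type]
    simp [diag2]
  · rw [Fin.sum_univ_one, ← finSumFinEquiv.sum_comp, Fintype.sum_sum_type]
    simp [diag2, unitQ, su_e]

theorem add_units (q : Proj (Q l)) (k : ℕ) : ∃ q' : Proj (Q l), q'.n = q.n + k ∧
    pack q'.p = pack q.p + iv l q.n (q.n + k : ℕ) ∧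
      cl q + k • cl (uP l) = cl q' := by
  induction k with
  | zero => exact ⟨q, rfl, by rw [add_zero, iv_self, add_zero], by rw [zero_nsmul, add_zero]⟩
  | succ k ih =>
    obtain ⟨q', h1, h2, h3⟩ := ih
    refine ⟨q'.sum (uP l), by rw [← add_assoc, ← h1]; rfl, ?_, ?_⟩
    · rw [pack_sum, h2, h1, add_assoc, iv_add (by simp) (by simp)]
      push_cast
      rw [add_assoc]
    · rw [succ_nsmul, ← add_assoc, h3]; rfl

theorem lower {k : ℕ} (h : k • unitClass l = 0) : ∃ γ ∈ Gam l, (k : ℝ) = (l - 1) * γ := by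
  rw [unitClass_eq, ← map_nsmul, ← map_zero (Algebra.GrothendieckAddGroup.of (M := V (Q l)))] at h
  obtain ⟨⟨c, hc'⟩, hc⟩ := ((AddLocalization.addMonoidOf ⊤).eq_iff_exists).1 h
  obtain ⟨q, rfl⟩ : ∃ q, cl q = c := Quot.exists_rep c
  obtain ⟨q', h1, h2, h3⟩ := add_units q k
  obtain ⟨V, hV, e1, e2⟩ := Eqv.of_quot (h3.symm.trans (hc.trans (add_zero _)))
  have i1 : pack q.p * pack q.p = pack q.p := by rw [pack_mul, q.idem]
  have i2 : star (pack q.p) = pack q.p := by rw [pack_star, q.sa]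
  have a1 := piso' e2 i1
  have a2 := piso e1 (by rw [pack_mul, q'.idem])
  have a3 := iv_pack q.p
  have a4 : pack q.p * iv l 0 q.n = pack q.p := by rw [← i2, ← iv_star, ← star_mul, a3]
  have a5 : iv l q.n (q.n + k : ℕ) * iv l 0 q.n = 0 := iv_orth' le_rfl
  have b1 : (iv l 0 q.n - pack q.p) * V = 0 := by
    rw [← a1, ← mul_assoc, sub_mul, a3, i1, sub_self, zero_mul]
  have b2 : V * (iv l 0 q.n - pack q.p) = 0 := by
    rw [← a2, h2, mul_assoc, add_mul, mul_sub, mul_sub, a4, i1, ← a3, ← mul_assoc (iv l _ _), a5,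
      zero_mul, sub_self, sub_self, add_zero, mul_zero]
  have b3 : star (iv l 0 q.n - pack q.p) = iv l 0 q.n - pack q.p := by rw [star_sub, iv_star, i2]
  have b4 : (iv l 0 q.n - pack q.p) * (iv l 0 q.n - pack q.p) = iv l 0 q.n - pack q.p := by
    rw [sub_mul, mul_sub, mul_sub, iv_idem, a3, a4, i1, sub_self, sub_zero]
  refine core (N := q.n) (V := V + (iv l 0 q.n - pack q.p)) (add_mem hV (sub_mem
    (iv_crossed (zero_mem _) (natCast_mem _ _) (Nat.cast_nonneg _)) (pack_mem _))) ?_ ?_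
  · have b5 : star V * (iv l 0 q.n - pack q.p) = 0 := by rw [← b3, ← star_mul, b1, star_zero]
    rw [star_add, b3, add_mul, mul_add, mul_add, b1, b4, b5, e1, h2, SubringClass.coe_natCast,
      ← iv_add (Nat.cast_nonneg q.n) (Nat.cast_le.2 (Nat.le_add_right _ k))]
    abel
  · have b5 : (iv l 0 q.n - pack q.p) * star V = 0 := by rw [← b3, ← star_mul, b2, star_zero]
    rw [star_add, b3, add_mul, mul_add, mul_add, b2, b4, b5, e2, SubringClass.coe_natCast]
    abel

theorem upper {k : ℕ} {γ : ℝ} (hγ : γ ∈ Gam l) (h : (k : ℝ) = (l - 1) * γ) :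
    k • unitClass l = 0 := by
  obtain ⟨j, δ, h0, hδ⟩ : ∃ (j : ℤ) (δ : Gam l), (0 : ℝ) ≤ δ ∧ l ^ j * δ = k + δ := by
    rcases le_total 0 γ with h0 | h0
    · exact ⟨1, ⟨γ, hγ⟩, h0, by simp only [zpow_one]; linarith⟩
    · refine ⟨-1, -(lpw l 1 * ⟨γ, hγ⟩), ?_, ?_⟩
      · simpa using mul_nonpos_of_nonneg_of_nonpos (lpos (l := l)).le h0
      · have := lz_cancel (l := l) 1
        push_cast
        rw [lpw_coe]
        rw [zpow_one] at this ⊢
        linear_combination -γ * this - h
  obtain ⟨N, hN⟩ := exists_nat_ge (δ : ℝ)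
  obtain ⟨p, -, p2, p3⟩ := add_units (l := l) Proj.zero N
  obtain ⟨q, -, q2, q3⟩ := add_units (l := l) Proj.zero (N + k)
  have z : pack (Proj.zero : Proj (Q l)).p = 0 := by simp [pack, Proj.zero]
  have z' : (Proj.zero : Proj (Q l)).n = 0 := rfl
  rw [z, z', zero_add, zero_add, Nat.cast_zero] at p2 q2
  set u := perm (lm (mkG (0 : Gam l) j)) with hu
  set w := perm (lm (mkG (k : Gam l) 0)) with hw
  have c1 : u * iv l 0 δ = iv l 0 (k + δ) * u := by
    rw [hu, lm_iv, ga_mkG, ga_mkG, hδ]; simp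
  have c2 : w * iv l δ N = iv l (k + δ) (N + k : ℕ) * w := by
    rw [hw, lm_iv, ga_mkG, ga_mkG]; simp [add_comm]
  have hk : (0 : ℝ) ≤ k := Nat.cast_nonneg k
  have hle : (k : ℝ) + δ ≤ (N + k : ℕ) := by push_cast; linarith
  have m1 : (k : ℝ) + δ ∈ Gam l := add_mem (natCast_mem _ _) δ.2
  have key : Eqv l (pack p.p) (pack q.p) := by
    refine ⟨u * iv l 0 δ + w * iv l δ N, ?_, ?_, ?_⟩
    · rw [c1, c2]
      exact add_mem (iv_lm_mem (zero_mem _) m1 (by linarith) _)
        (iv_lm_mem m1 (natCast_mem _ _) hle _)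
    · have d : star (u * iv l 0 δ) * (w * iv l δ N) = 0 := by
        rw [c1, c2, star_mul, iv_star, mul_assoc, ← mul_assoc (iv l _ _), iv_orth le_rfl, zero_mul,
          mul_zero]
      have d' : star (w * iv l δ N) * (u * iv l 0 δ) = 0 := by
        simpa only [star_mul, star_star, star_zero] using congrArg star d
      rw [star_add, add_mul, mul_add, mul_add, d, d', p2, ← iv_add h0 hN, star_mul, star_mul,
        mul_assoc, mul_assoc, ← mul_assoc (star u), ← mul_assoc (star w), (lm_unit _).1,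
        (lm_unit _).1, one_mul, one_mul, iv_star, iv_star, iv_idem, iv_idem, add_zero, zero_add]
    · have d : (u * iv l 0 δ) * star (w * iv l δ N) = 0 := by
        rw [star_mul, iv_star, mul_assoc, ← mul_assoc (iv l _ _), iv_orth le_rfl, zero_mul,
          mul_zero]
      have d' : (w * iv l δ N) * star (u * iv l 0 δ) = 0 := by
        simpa only [star_mul, star_star, star_zero] using congrArg star d
      rw [star_add, add_mul, mul_add, mul_add, d, d', q2, ← iv_add (by linarith) hle, c1, c2,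
        star_mul, star_mul, mul_assoc, mul_assoc, ← mul_assoc u, ← mul_assoc w, (lm_unit _).2,
        (lm_unit _).2, one_mul, one_mul, iv_star, iv_star, iv_idem, iv_idem, add_zero, zero_add]
  have e := congrArg Algebra.GrothendieckAddGroup.of (p3.trans (key.to_quot.trans q3.symm))
  rw [map_add, map_add, map_nsmul, map_nsmul, add_nsmul, add_right_inj, left_eq_add] at e
  exact (unitClass_eq k).2 e

end Pool.Agent.P.MP_c88791_an
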