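import Pool.Agent.P.MP_c88791_an.Ops

/-! Newton iteration from almost idempotents to idempotents, and the rank. -/

noncomputable section
open scoped Topology Classical
open Filter

namespace Pool.Agent.P.MP_c88791_an

section ring

variable {A : Type} [Ring A]

def nw (x : A) : A := 3 • (x * x) - 2 • (x * x * x)

def qk (k : ℕ) (x : A) : A := nw^[k] x

theorem qk_zero (x : A) : qk 0 x = x := rfl

theorem qk_succ (k : ℕ) (x : A) : qk (k + 1) x = nw (qk k x) := Function.iterate_succ_apply' _ _ _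

theorem nw_sub (x : A) : nw x - x = 2 • (x * (x - x * x)) - (x - x * x) := by
  unfold nw; noncomm_ring

theorem nw_def (x : A) : nw x - nw x * nw x =
    3 • ((x - x * x) * (x - x * x)) + 4 • ((x - x * x) * (x - x * x) * (x - x * x)) := by
  unfold nw; noncomm_ring

theorem qk_idem {p : A} (h : p * p = p) (k : ℕ) : qk k p = p := by
  induction k with
  | zero => rfl
  | succ k ih => rw [qk_succ, ih, nw, h, h]; abel

theorem qk_orth {a b : A} (h : a * b = 0) (h' : b * a = 0) (k : ℕ) :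
    qk k (a + b) = qk k a + qk k b ∧ qk k a * qk k b = 0 ∧ qk k b * qk k a = 0 := by
  induction k with
  | zero => exact ⟨rfl, h, h'⟩
  | succ k ih =>
    obtain ⟨h1, h2, h3⟩ := ih
    rw [qk_succ, qk_succ, qk_succ, h1]
    generalize qk k a = x at *
    generalize qk k b = y at *
    have e1 : ∀ z : A, x * (y * z) = 0 := fun z => by rw [← mul_assoc, h2, zero_mul]
    have e2 : ∀ z : A, y * (x * z) = 0 := fun z => by rw [← mul_assoc, h3, zero_mul]
    refine ⟨?_, ?_, ?_⟩
    · simp only [nw, add_mul, mul_add, mul_assoc, h2, h3, mul_zero, add_zero, zero_add,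
        smul_add]
      abel
    · simp only [nw, sub_mul, mul_sub, smul_mul_assoc, mul_smul_comm, mul_assoc, e1, mul_zero,
        smul_zero, sub_zero]
    · simp only [nw, sub_mul, mul_sub, smul_mul_assoc, mul_smul_comm, mul_assoc, e2, mul_zero,
        smul_zero, sub_zero]

theorem qk_swap (a b : A) (k : ℕ) : ∃ h, qk k (a * b) = a * h * b ∧ qk k (b * a) = b * a * h := by
  induction k with
  | zero => exact ⟨1, by simp [qk_zero], by simp [qk_zero]⟩
  | succ k ih =>
    obtain ⟨h, h1, h2⟩ := ih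
    refine ⟨3 • (h * (b * a) * h) - 2 • (h * (b * a) * h * (b * a) * h), ?_, ?_⟩
    · rw [qk_succ, h1, nw]; noncomm_ring
    · rw [qk_succ, h2, nw]; noncomm_ring

end ring

variable {Ω Ω' : Type}

def AP (x : B Ω) : Prop := ‖x‖ ≤ 5 ∧ ‖x - x * x‖ ≤ 1 / 100

theorem AP.est {x : B Ω} (h : AP x) (k : ℕ) :
    ‖qk k x‖ ≤ 6 - 1 / 2 ^ k ∧ ‖qk k x - qk k x * qk k x‖ ≤ 1 / 100 / 2 ^ k ∧
      ‖qk (k + 1) x - qk k x‖ ≤ 13 / 100 / 2 ^ k := by
  have step : ∀ (y : B Ω) (t : ℝ), ‖y‖ ≤ 6 → ‖y - y * y‖ ≤ t → ‖nw y - y‖ ≤ 13 * t := by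
    intro y t h1 h2
    rw [nw_sub]
    have := norm_sub_le (2 • (y * (y - y * y))) (y - y * y)
    have h3 : ‖2 • (y * (y - y * y))‖ ≤ 2 * ‖y * (y - y * y)‖ := by
      simpa using norm_nsmul_le (n := 2) (a := y * (y - y * y))
    have h4 := norm_mul_le y (y - y * y)
    have h5 : ‖y‖ * ‖y - y * y‖ ≤ 6 * t :=
      mul_le_mul h1 h2 (norm_nonneg _) (by norm_num)
    linarith
  have key : ∀ k : ℕ, ‖qk k x‖ ≤ 6 - 1 / 2 ^ k ∧
      ‖qk k x - qk k x * qk k x‖ ≤ 1 / 100 / 2 ^ k := by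
    intro k
    induction k with
    | zero => exact ⟨by rw [qk_zero]; linarith [h.1], by rw [qk_zero]; simpa using h.2⟩
    | succ k ih =>
      obtain ⟨h1, h2⟩ := ih
      have hp : (0 : ℝ) < 1 / 2 ^ k := by positivity
      have hp1 : (1 : ℝ) / 2 ^ k ≤ 1 := by
        rw [div_le_one (by positivity)]; exact one_le_pow₀ (by norm_num)
      have e : (1 : ℝ) / 2 ^ (k + 1) = 1 / 2 ^ k / 2 := by rw [pow_succ]; field_simp
      have e' : (1 : ℝ) / 100 / 2 ^ (k + 1) = 1 / 2 ^ k / 200 := by rw [pow_succ]; field_simp; ring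
      have e'' : (1 : ℝ) / 100 / 2 ^ k = 1 / 2 ^ k / 100 := by field_simp
      rw [qk_succ, e, e']
      rw [e''] at h2
      generalize qk k x = y at *
      constructor
      · have := step y _ (by linarith) h2
        have h3 := norm_add_le (nw y - y) y
        rw [sub_add_cancel] at h3
        linarith
      · rw [nw_def]
        generalize y - y * y = d at *
        have h3 : ‖3 • (d * d)‖ ≤ 3 * ‖d * d‖ := by
          simpa using norm_nsmul_le (n := 3) (a := d * d)
        have h4 : ‖4 • (d * d * d)‖ ≤ 4 * ‖d * d * d‖ := by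
          simpa using norm_nsmul_le (n := 4) (a := d * d * d)
        have h5 := norm_mul_le d d
        have h6 := norm_mul_le (d * d) d
        have h7 := norm_add_le (3 • (d * d)) (4 • (d * d * d))
        have h8 : ‖d‖ ≤ 1 / 100 := by linarith
        have h9 := norm_nonneg d
        have h10 : ‖d * d‖ ≤ ‖d‖ / 100 := by nlinarith
        have h11 : ‖d * d * d‖ ≤ ‖d‖ / 100 := by nlinarith [norm_nonneg (d * d)]
        linarith
  refine ⟨(key k).1, (key k).2, ?_⟩
  rw [qk_succ]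
  have hp : (0 : ℝ) < 1 / 2 ^ k := by positivity
  refine (step _ _ (by linarith [(key k).1]) (key k).2).trans (le_of_eq ?_)
  ring

def proj (x : B Ω) : B Ω := limUnder atTop fun k => qk k x

theorem AP.dist_le {x : B Ω} (h : AP x) (k : ℕ) :
    dist (qk k x) (qk (k + 1) x) ≤ 1 / 2 / 2 ^ k := by
  rw [dist_comm, dist_eq_norm]
  exact (h.est k).2.2.trans (div_le_div_of_nonneg_right (by norm_num) (by positivity))

theorem AP.tendsto {x : B Ω} (h : AP x) : Tendsto (fun k => qk k x) atTop (𝓝 (proj x)) :=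
  (cauchySeq_of_le_geometric_two h.dist_le).tendsto_limUnder

theorem AP.norm_sub {x : B Ω} (h : AP x) (k : ℕ) : ‖qk k x - proj x‖ ≤ 1 / 2 ^ k := by
  rw [← dist_eq_norm]
  exact dist_le_of_le_geometric_two_of_tendsto h.dist_le h.tendsto k

theorem tendsto_half : Tendsto (fun k : ℕ => (1 : ℝ) / 2 ^ k) atTop (𝓝 0) := by
  simpa [one_div, inv_pow] using
    tendsto_pow_atTop_nhds_zero_of_lt_one (r := (2 : ℝ)⁻¹) (by norm_num) (by norm_num)

theorem AP.idem {x : B Ω} (h : AP x) : proj x * proj x = proj x := by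
  have h1 := h.tendsto.sub (h.tendsto.mul h.tendsto)
  have h2 : Tendsto (fun k => qk k x - qk k x * qk k x) atTop (𝓝 0) := by
    refine squeeze_zero_norm (a := fun k : ℕ => (1 : ℝ) / 2 ^ k) (fun k => ?_) tendsto_half
    refine (h.est k).2.1.trans ?_
    gcongr; norm_num
  exact (sub_eq_zero.1 (tendsto_nhds_unique h1 h2)).symm

theorem Supp.qk {S : Finset Ω} {x : B Ω} (h : Supp S x) (k : ℕ) : Supp S (qk k x) := by
  induction k with
  | zero => exact h
  | succ k ih =>
    rw [qk_succ]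
    exact ((ih.mul ih).nsmul 3).sub (((ih.mul ih).mul ih).nsmul 2)

theorem Supp.of_tendsto {S : Finset Ω} {f : ℕ → B Ω} {x : B Ω} (h : ∀ k, Supp S (f k))
    (ht : Tendsto f atTop (𝓝 x)) : Supp S x :=
  ⟨tendsto_nhds_unique (ht.const_mul _) (by simpa only [fun k => (h k).1] using ht),
    tendsto_nhds_unique (ht.mul_const _) (by simpa only [fun k => (h k).2] using ht)⟩

theorem Supp.proj {S : Finset Ω} {x : B Ω} (h : Supp S x) (ha : AP x) : Supp S (proj x) :=
  Supp.of_tendsto h.qk ha.tendsto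

def rk (x : B Ω) : ℂ := tr (proj x)

theorem rk_nat {S : Finset Ω} {x : B Ω} (h : Supp S x) (ha : AP x) : ∃ n : ℕ, rk x = n := by
  rw [rk, (h.proj ha).tr_eq]
  exact trS_idem (h.proj ha) ha.idem

theorem rk_approx {S : Finset Ω} {x : B Ω} (h : Supp S x) (ha : AP x) (k : ℕ) :
    ‖tr (qk k x) - rk x‖ ≤ S.card * (1 / 2 ^ k) := by
  rw [rk, (h.proj ha).tr_eq, (h.qk k).tr_eq, ← trS_sub]
  exact (norm_trS_le _ _).trans (by gcongr; exact ha.norm_sub k)

theorem rk_tendsto {S : Finset Ω} {x : B Ω} (h : Supp S x) (ha : AP x) :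
    Tendsto (fun k => tr (qk k x)) atTop (𝓝 (rk x)) := by
  rw [tendsto_iff_norm_sub_tendsto_zero]
  refine squeeze_zero (fun _ => norm_nonneg _) (rk_approx h ha) ?_
  simpa using tendsto_half.const_mul (S.card : ℝ)

theorem continuous_qk (k : ℕ) : Continuous fun x : B Ω => qk k x := by
  induction k with
  | zero => exact continuous_id
  | succ k ih =>
    simp only [qk_succ, nw]
    exact ((ih.mul ih).nsmul 3).sub (((ih.mul ih).mul ih).nsmul 2)

theorem rk_homotopy {S : Finset Ω} {y : ℝ → B Ω} (hc : Continuous y)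
    (hs : ∀ t ∈ Set.Icc (0 : ℝ) 1, Supp S (y t)) (ha : ∀ t ∈ Set.Icc (0 : ℝ) 1, AP (y t)) :
    rk (y 0) = rk (y 1) := by
  have hcont : ContinuousOn (fun t => rk (y t)) (Set.Icc 0 1) := by
    refine TendstoUniformlyOn.continuousOn (F := fun k t => trS S (qk k (y t))) (p := atTop) ?_
      (Eventually.frequently (Eventually.of_forall fun k =>
        ((continuous_trS S).comp ((continuous_qk k).comp hc)).continuousOn))
    rw [Metric.tendstoUniformlyOn_iff]
    intro ε hε
    have h1 : Tendsto (fun k : ℕ => (S.card : ℝ) * (1 / 2 ^ k)) atTop (𝓝 0) := by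
      simpa using tendsto_half.const_mul (S.card : ℝ)
    filter_upwards [h1.eventually (gt_mem_nhds hε)] with k hk t ht
    rw [dist_comm, dist_eq_norm, ← ((hs t ht).qk k).tr_eq]
    exact (rk_approx (hs t ht) (ha t ht) k).trans_lt hk
  have hre : ContinuousOn (fun t => (rk (y t)).re) (Set.Icc 0 1) :=
    Complex.continuous_re.comp_continuousOn hcont
  obtain ⟨n0, h0⟩ := rk_nat (hs 0 (by simp)) (ha 0 (by simp))
  obtain ⟨n1, h1⟩ := rk_nat (hs 1 (by simp)) (ha 1 (by simp))
  have key : ∀ m : ℕ, ((m : ℝ) + 1 / 2) ∉ Set.uIcc (n0 : ℝ) n1 := by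
    intro m hm
    have := intermediate_value_uIcc (a := (0 : ℝ)) (b := 1) (f := fun t => (rk (y t)).re)
      (by rwa [Set.uIcc_of_le zero_le_one])
    simp only [h0, h1, Complex.natCast_re] at this
    obtain ⟨t, ht, e⟩ := this hm
    rw [Set.uIcc_of_le zero_le_one] at ht
    obtain ⟨n, hn⟩ := rk_nat (hs t ht) (ha t ht)
    simp only [hn, Complex.natCast_re] at e
    have : (2 * n : ℝ) = 2 * m + 1 := by linarith
    have : 2 * n = 2 * m + 1 := by exact_mod_cast this
    omega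
  rw [h0, h1]
  rcases lt_trichotomy n0 n1 with h | h | h
  · exfalso
    have : (n0 : ℝ) + 1 ≤ n1 := by exact_mod_cast h
    exact key n0 (Set.mem_uIcc.2 (Or.inl ⟨by linarith, by linarith⟩))
  · rw [h]
  · exfalso
    have : (n1 : ℝ) + 1 ≤ n0 := by exact_mod_cast h
    exact key n1 (Set.mem_uIcc.2 (Or.inr ⟨by linarith, by linarith⟩))

theorem AP.of_close {x d : B Ω} (h1 : ‖x‖ ≤ 49 / 10) (h2 : ‖x - x * x‖ ≤ 1 / 1000)
    (h3 : ‖d‖ ≤ 1 / 2000) : AP (x + d) := by
  constructor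
  · linarith [norm_add_le x d]
  · have e : x + d - (x + d) * (x + d) = (x - x * x) + d - x * d - d * x - d * d := by noncomm_ring
    rw [e]
    have a1 := norm_sub_le ((x - x * x) + d - x * d - d * x) (d * d)
    have a2 := norm_sub_le ((x - x * x) + d - x * d) (d * x)
    have a3 := norm_sub_le ((x - x * x) + d) (x * d)
    have a4 := norm_add_le (x - x * x) d
    have a5 := norm_mul_le x d
    have a6 := norm_mul_le d x
    have a7 := norm_mul_le d d
    have a8 := norm_nonneg d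
    have a9 := norm_nonneg x
    nlinarith

theorem rk_close {S : Finset Ω} {x y : B Ω} (hx : Supp S x) (hy : Supp S y) (h1 : ‖x‖ ≤ 49 / 10)
    (h2 : ‖x - x * x‖ ≤ 1 / 1000) (h3 : ‖y - x‖ ≤ 1 / 2000) : rk x = rk y := by
  have := rk_homotopy (S := S) (y := fun t : ℝ => x + (t : ℂ) • (y - x)) (by fun_prop)
    (fun t _ => hx.add ((hy.sub hx).smul _)) (fun t ht => AP.of_close h1 h2 (by
      rw [norm_smul, Complex.norm_real, Real.norm_of_nonneg ht.1]
      nlinarith [ht.1, ht.2, norm_nonneg (y - x)]))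
  simpa using this

theorem rk_add {S : Finset Ω} {a b : B Ω} (ha : Supp S a) (hb : Supp S b) (h1 : AP a) (h2 : AP b)
    (h : a * b = 0) (h' : b * a = 0) : rk (a + b) = rk a + rk b := by
  have : proj (a + b) = proj a + proj b := by
    refine Tendsto.limUnder_eq ?_
    simpa only [fun k => (qk_orth h h' k).1] using h1.tendsto.add h2.tendsto
  rw [rk, rk, rk, this, ((ha.proj h1).add (hb.proj h2)).tr_eq, (ha.proj h1).tr_eq,
    (hb.proj h2).tr_eq, trS_add]

theorem rk_ind (S : Finset Ω) : rk (ind (S : Set Ω)) = S.card := by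
  have : proj (ind (S : Set Ω)) = ind (S : Set Ω) := by
    refine Tendsto.limUnder_eq ?_
    simpa only [qk_idem (ind_idem _)] using tendsto_const_nhds
  rw [rk, this, (supp_ind S).tr_eq, trS_ind]

theorem AP_ind (S : Set Ω) : AP (ind S) :=
  ⟨(norm_ind_le S).trans (by norm_num), by rw [ind_idem, sub_self, norm_zero]; norm_num⟩

theorem rk_swap {S : Finset Ω} {a b : B Ω} (ha : Supp S a) (hb : Supp S b) (h1 : AP (a * b))
    (h2 : AP (b * a)) : rk (a * b) = rk (b * a) := by
  refine tendsto_nhds_unique (rk_tendsto (ha.mul hb) h1) ?_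
  refine (rk_tendsto (hb.mul ha) h2).congr fun k => ?_
  rw [((ha.mul hb).qk k).tr_eq, ((hb.mul ha).qk k).tr_eq]
  obtain ⟨h, e1, e2⟩ := qk_swap a b k
  rw [e1, e2]
  have t1 := trS_comm S a (h * b)
  have t2 := trS_comm S (b * a) h
  rw [ha.2, mul_assoc h b, hb.2] at t1
  rw [mul_assoc b a, ha.2, mul_assoc h, ← mul_assoc (ind _) b, hb.1] at t2
  rw [t2, mul_assoc a, t1, mul_assoc]

theorem Rel.qk {ι : Ω ↪ Ω'} {T : B Ω} {T' : B Ω'} (h : Rel ι T T') (k : ℕ) :
    Rel ι (qk k T) (qk k T') := by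
  induction k with
  | zero => exact h
  | succ k ih =>
    rw [qk_succ, qk_succ]
    exact ((ih.mul ih).nsmul 3).sub (((ih.mul ih).mul ih).nsmul 2)

theorem Rel.proj {ι : Ω ↪ Ω'} {T : B Ω} {T' : B Ω'} (h : Rel ι T T') (h1 : AP T) (h2 : AP T') :
    Rel ι (proj T) (proj T') := fun ξ => by
  have t1 : Tendsto (fun k => compOp ι (MP_c88791_an.qk k T' ξ)) atTop
      (𝓝 (compOp ι (MP_c88791_an.proj T' ξ))) :=
    ((compOp ι).continuous.tendsto _).comp
      (((ContinuousLinearMap.apply ℂ _ ξ).continuous.tendsto _).comp h2.tendsto)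
  have t2 : Tendsto (fun k => MP_c88791_an.qk k T (compOp ι ξ)) atTop
      (𝓝 (MP_c88791_an.proj T (compOp ι ξ))) :=
    ((ContinuousLinearMap.apply ℂ _ (compOp ι ξ)).continuous.tendsto _).comp h1.tendsto
  exact tendsto_nhds_unique t1 (by simpa only [fun k => h.qk k ξ] using t2)

theorem rk_split (ι₁ ι₂ : Ω ↪ Ω') (hd : ∀ a b, ι₁ a ≠ ι₂ b)
    (hc : ∀ ω', (∃ a, ι₁ a = ω') ∨ ∃ b, ι₂ b = ω') {S : Finset Ω'} {T' : B Ω'} (hs : Supp S T')
    {T₁ T₂ : B Ω} (h₁ : Rel ι₁ T₁ T') (h₂ : Rel ι₂ T₂ T') (a : AP T') (a₁ : AP T₁) (a₂ : AP T₂) :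
    rk T' = rk T₁ + rk T₂ :=
  tr_split ι₁ ι₂ hd hc (hs.proj a) (h₁.proj a₁ a) (h₂.proj a₂ a)

end Pool.Agent.P.MP_c88791_an
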