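import Pool.Agent.P.MP_c88791_an.K0

/-! An integer lies in `(l - 1) Γ` exactly when it is a multiple of `f(1)`. -/

noncomputable section
open Polynomial

namespace Pool.Agent.P.MP_c88791_an

variable {l : ℝ}

theorem aeval_mem_Gam (l : ℝ) (g : ℤ[X]) : aeval l g ∈ Gam l := by
  have h1 : l ∈ Gam l := Subring.subset_closure (by simp)
  induction g using Polynomial.induction_on' with
  | add p q hp hq => rw [map_add]; exact add_mem hp hq
  | monomial n a =>
    rw [aeval_monomial]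
    exact mul_mem (intCast_mem _ a) (pow_mem h1 n)

theorem mem_Gam (hl : l ≠ 0) {γ : ℝ} (h : γ ∈ Gam l) :
    ∃ (n : ℕ) (g : ℤ[X]), l ^ n * γ = aeval l g := by
  induction h using Subring.closure_induction with
  | mem x hx =>
    rcases hx with rfl | rfl
    · exact ⟨0, X, by simp⟩
    · exact ⟨1, 1, by simp [hl]⟩
  | zero => exact ⟨0, 0, by simp⟩
  | one => exact ⟨0, 1, by simp⟩
  | add x y _ _ hx hy =>
    obtain ⟨n, g, hx⟩ := hx
    obtain ⟨m, g', hy⟩ := hy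
    refine ⟨n + m, X ^ m * g + X ^ n * g', ?_⟩
    simp only [map_add, map_mul, map_pow, aeval_X, ← hx, ← hy]
    ring
  | neg x _ hx =>
    obtain ⟨n, g, hx⟩ := hx
    exact ⟨n, -g, by rw [map_neg, ← hx, mul_neg]⟩
  | mul x y _ _ hx hy =>
    obtain ⟨n, g, hx⟩ := hx
    obtain ⟨m, g', hy⟩ := hy
    refine ⟨n + m, g * g', ?_⟩
    rw [map_mul, ← hx, ← hy]
    ring

variable {f : ℤ[X]} (hp : f.IsPrimitive)
  (hf : Associated (f.map (Int.castRingHom ℚ)) (minpoly ℚ l))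
include hp hf

theorem dvd_iff_root (g : ℤ[X]) : f ∣ g ↔ aeval l g = 0 := by
  rw [IsPrimitive.Int.dvd_iff_map_cast_dvd_map_cast f g hp, hf.dvd_iff_dvd_left,
    minpoly.dvd_iff, ← algebraMap_int_eq, aeval_map_algebraMap]

theorem eval_one_ne (h1 : l ≠ 1) : f.eval 1 ≠ 0 := fun h => by
  obtain ⟨g, hg⟩ := dvd_iff_isRoot.2 h
  have h2 := (dvd_iff_root hp hf f).1 dvd_rfl
  have h3 : aeval l g = 0 := by
    rw [hg, map_mul] at h2
    simpa [sub_ne_zero.2 h1] using h2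
  have h4 : g ≠ 0 := fun h0 => hp.ne_zero (by rw [hg, h0, mul_zero])
  have h5 := natDegree_le_of_dvd ((dvd_iff_root hp hf g).2 h3) h4
  rw [hg, natDegree_mul (X_sub_C_ne_zero 1) h4, natDegree_X_sub_C] at h5
  omega

theorem eval_one_mem : ∃ γ ∈ Gam l, (((f.eval 1).natAbs : ℕ) : ℝ) = (l - 1) * γ := by
  obtain ⟨g, hg⟩ := X_sub_C_dvd_sub_C_eval (p := f) (a := 1)
  have h2 := congrArg (aeval l) hg
  rw [map_sub, (dvd_iff_root hp hf f).1 dvd_rfl, map_mul, map_sub, aeval_X, aeval_C, aeval_C,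
    map_one, zero_sub, eq_intCast] at h2
  rcases Int.natAbs_eq (f.eval 1) with h | h
  · refine ⟨-aeval l g, neg_mem (aeval_mem_Gam l g), ?_⟩
    rw [h, Int.cast_natCast] at h2
    linarith
  · refine ⟨aeval l g, aeval_mem_Gam l g, ?_⟩
    rw [h, Int.cast_neg, Int.cast_natCast, neg_neg] at h2
    exact h2

theorem eval_one_dvd (hl : l ≠ 0) {k : ℕ} {γ : ℝ} (hγ : γ ∈ Gam l) (h : (k : ℝ) = (l - 1) * γ) :
    (f.eval 1).natAbs ∣ k := by
  obtain ⟨n, g, hg⟩ := mem_Gam hl hγ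
  have h1 := (dvd_iff_root hp hf (X ^ n * C (k : ℤ) - (X - 1) * g)).2 (by
    simp only [map_sub, map_mul, map_pow, aeval_X, map_one, map_natCast, ← hg, h]
    ring)
  have h2 := eval_dvd (x := 1) h1
  rw [← Int.natCast_dvd_natCast, Int.natAbs_dvd]
  simpa using h2

end Pool.Agent.P.MP_c88791_an
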