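import Pool.Agent.P.MP_c88791_an.Defs

/-! Indicator and permutation operators, matrix entries and traces on `ℓ²(Ω)`. -/

noncomputable section
open scoped ENNReal Classical

namespace Pool.Agent.P.MP_c88791_an

variable {Ω Ω' : Type}

theorem opExt {A C : H Ω' →L[ℂ] H Ω} (h : ∀ ξ ω, A ξ ω = C ξ ω) : A = C :=
  ContinuousLinearMap.ext fun ξ => lp.ext (funext fun ω => h ξ ω)

def ind (S : Set Ω) : B Ω := mulOp (chi S) id

theorem chi_apply {X : Type} (S : Set X) (x : X) : chi S x = if x ∈ S then 1 else 0 := by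
  change S.indicator (1 : X → ℂ) x = _
  by_cases h : x ∈ S <;> simp [h]

theorem ind_apply (S : Set Ω) (ξ : H Ω) (ω : Ω) : ind S ξ ω = if ω ∈ S then ξ ω else 0 := by
  rw [ind, mulOp_apply, chi_apply]
  by_cases h : ω ∈ S <;> simp [h]

theorem mulOp_chi {X : Type} (S : Set X) (π : Ω → X) : mulOp (chi S) π = ind (π ⁻¹' S) :=
  opExt fun ξ ω => by
    rw [ind_apply, mulOp_apply, chi_apply]
    by_cases h : π ω ∈ S <;> simp [h]

theorem mul_app (A C : B Ω) (ξ : H Ω) : (A * C) ξ = A (C ξ) := rfl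

theorem ind_mul (S T : Set Ω) : ind S * ind T = ind (S ∩ T) := by
  rw [ind, ind, ind, ← mulOp_mul, chi_mul]

theorem ind_star (S : Set Ω) : star (ind S) = ind S := by
  rw [ind, mulOp_star, chi_star]

theorem ind_idem (S : Set Ω) : ind S * ind S = ind S := by rw [ind_mul, Set.inter_self]

theorem ind_comm (S T : Set Ω) : ind S * ind T = ind T * ind S := by
  rw [ind_mul, ind_mul, Set.inter_comm]

theorem ind_univ : ind (Set.univ : Set Ω) = 1 := opExt fun ξ ω => by simp [ind_apply]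

theorem ind_empty : ind (∅ : Set Ω) = 0 := opExt fun ξ ω => by simp [ind_apply]

theorem ind_congr {S T : Set Ω} (h : ∀ ω, ω ∈ S ↔ ω ∈ T) : ind S = ind T := by
  rw [Set.ext h]

theorem ind_eq_zero {S : Set Ω} (h : ∀ ω, ω ∉ S) : ind S = 0 := by
  rw [← ind_empty]; exact ind_congr fun ω => by simp [h ω]

theorem ind_mul_of_subset {S T : Set Ω} (h : S ⊆ T) : ind T * ind S = ind S := by
  rw [ind_mul, Set.inter_eq_right.2 h]

theorem ind_mul_of_subset' {S T : Set Ω} (h : S ⊆ T) : ind S * ind T = ind S := by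
  rw [ind_mul, Set.inter_eq_left.2 h]

theorem ind_sub {S T : Set Ω} (h : T ⊆ S) : ind S - ind T = ind (S \ T) :=
  opExt fun ξ ω => by
    rw [_root_.sub_apply, lp.coeFn_sub, Pi.sub_apply, ind_apply, ind_apply, ind_apply]
    by_cases h1 : ω ∈ T
    · simp [h1, h h1]
    · by_cases h2 : ω ∈ S <;> simp [h1, h2]

theorem ind_compl (S : Set Ω) : ind Sᶜ = 1 - ind S := by
  rw [← ind_univ, ind_sub (Set.subset_univ _), Set.compl_eq_univ_sdiff]

theorem norm_le_one_of_proj {p : B Ω} (h1 : star p = p) (h2 : p * p = p) : ‖p‖ ≤ 1 := by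
  have h := CStarRing.norm_star_mul_self (x := p)
  rw [h1, h2] at h
  nlinarith [norm_nonneg p]

theorem norm_ind_le (S : Set Ω) : ‖ind S‖ ≤ 1 := norm_le_one_of_proj (ind_star S) (ind_idem S)

def perm (σ : Equiv.Perm Ω) : B Ω := compOp σ.symm.toEmbedding

theorem perm_apply (σ : Equiv.Perm Ω) (ξ : H Ω) (ω : Ω) : perm σ ξ ω = ξ (σ.symm ω) := rfl

theorem perm_mul (σ τ : Equiv.Perm Ω) : perm σ * perm τ = perm (σ * τ) := opExt fun _ _ => rfl

theorem perm_one : perm (1 : Equiv.Perm Ω) = 1 := opExt fun _ _ => rfl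

theorem perm_star (σ : Equiv.Perm Ω) : star (perm σ) = perm σ⁻¹ := by
  rw [ContinuousLinearMap.star_eq_adjoint, eq_comm, ContinuousLinearMap.eq_adjoint_iff]
  intro ξ η
  simp only [lp.inner_eq_tsum, perm_apply]
  rw [← σ.tsum_eq fun ω => inner ℂ (ξ ω) (η (σ.symm ω))]
  refine tsum_congr fun ω => ?_
  rw [Equiv.symm_apply_apply]
  rfl

theorem perm_ind (σ : Equiv.Perm Ω) (S : Set Ω) :
    perm σ * ind S = ind (σ.symm ⁻¹' S) * perm σ :=
  opExt fun ξ ω => by
    simp only [mul_app, perm_apply, ind_apply, Set.mem_preimage]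

def permU (σ : Equiv.Perm Ω) : unitary (B Ω) :=
  ⟨perm σ, by rw [perm_star, perm_mul, inv_mul_cancel, perm_one],
    by rw [perm_star, perm_mul, mul_inv_cancel, perm_one]⟩

theorem permU_coe (σ : Equiv.Perm Ω) : (permU σ : B Ω) = perm σ := rfl

def permHom : Equiv.Perm Ω →* unitary (B Ω) where
  toFun := permU
  map_one' := Subtype.ext perm_one
  map_mul' σ τ := Subtype.ext (perm_mul σ τ).symm

theorem permU_zpow (σ : Equiv.Perm Ω) (n : ℤ) : permU σ ^ n = permU (σ ^ n) :=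
  (map_zpow permHom σ n).symm

/-! ### Entries and traces -/

def dl (ω : Ω) : H Ω := lp.single 2 ω 1

theorem dl_apply (ω u : Ω) : dl ω u = if u = ω then 1 else 0 := by
  rw [dl, lp.single_apply, Pi.single_apply]

theorem norm_dl (ω : Ω) : ‖dl ω‖ = 1 := by
  rw [dl, lp.norm_single (by norm_num), norm_one]

def ent (T : B Ω) (ω u : Ω) : ℂ := T (dl u) ω

theorem norm_ent_le (T : B Ω) (ω u : Ω) : ‖ent T ω u‖ ≤ ‖T‖ := by
  refine (lp.norm_apply_le_norm (by norm_num) _ _).trans ?_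
  simpa [norm_dl] using T.le_opNorm (dl u)

theorem ent_add (A C : B Ω) (ω u : Ω) : ent (A + C) ω u = ent A ω u + ent C ω u := rfl
theorem ent_sub (A C : B Ω) (ω u : Ω) : ent (A - C) ω u = ent A ω u - ent C ω u := rfl
theorem ent_smul (c : ℂ) (A : B Ω) (ω u : Ω) : ent (c • A) ω u = c * ent A ω u := rfl

def entL (ω u : Ω) : B Ω →ₗ[ℂ] ℂ where
  toFun T := ent T ω u
  map_add' _ _ := rfl
  map_smul' _ _ := rfl

theorem continuous_ent (ω u : Ω) : Continuous fun T : B Ω => ent T ω u :=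
  ((entL ω u).mkContinuous 1 fun T => by
    rw [one_mul]; exact norm_ent_le T ω u).continuous

theorem ind_finset (S : Finset Ω) (ξ : H Ω) : ind (S : Set Ω) ξ = ∑ u ∈ S, ξ u • dl u := by
  refine lp.ext (funext fun ω => ?_)
  rw [ind_apply, lp.coeFn_sum, Finset.sum_apply]
  simp only [lp.coeFn_smul, Pi.smul_apply, dl_apply, smul_eq_mul, mul_ite, mul_one, mul_zero,
    Finset.sum_ite_eq, Finset.mem_coe]

theorem ent_mul_ind (S : Finset Ω) (A C : B Ω) (ω u : Ω) :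
    ent (A * ind (S : Set Ω) * C) ω u = ∑ v ∈ S, ent A ω v * ent C v u := by
  rw [ent, mul_app, mul_app, ind_finset, map_sum, lp.coeFn_sum, Finset.sum_apply]
  refine Finset.sum_congr rfl fun v _ => ?_
  rw [map_smul, lp.coeFn_smul, Pi.smul_apply, smul_eq_mul, mul_comm]
  rfl

def trS (S : Finset Ω) (T : B Ω) : ℂ := ∑ ω ∈ S, ent T ω ω

def tr (T : B Ω) : ℂ := ∑' ω, ent T ω ω

def Supp (S : Finset Ω) (T : B Ω) : Prop := ind (S : Set Ω) * T = T ∧ T * ind (S : Set Ω) = T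

theorem ent_eq_zero {S : Finset Ω} {T : B Ω} (h : ind (S : Set Ω) * T = T) {ω : Ω} (hω : ω ∉ S)
    (u : Ω) : ent T ω u = 0 := by
  rw [← h, ent, mul_app, ind_apply, if_neg (by simpa using hω)]

theorem Supp.tr_eq {S : Finset Ω} {T : B Ω} (h : Supp S T) : tr T = trS S T :=
  tsum_eq_sum fun _ hω => ent_eq_zero h.1 hω _

theorem Supp.summable {S : Finset Ω} {T : B Ω} (h : Supp S T) : Summable fun ω => ent T ω ω :=
  summable_of_ne_finset_zero (s := S) fun _ hω => ent_eq_zero h.1 hω _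

theorem Supp.mono {S S' : Finset Ω} {T : B Ω} (h : Supp S T) (hs : S ⊆ S') : Supp S' T := by
  constructor
  · rw [← h.1, ← mul_assoc, ind_mul_of_subset (by exact_mod_cast hs)]
  · rw [← h.2, mul_assoc, ind_mul_of_subset' (by exact_mod_cast hs)]

theorem Supp.add {S : Finset Ω} {A C : B Ω} (h : Supp S A) (h' : Supp S C) : Supp S (A + C) :=
  ⟨by rw [mul_add, h.1, h'.1], by rw [add_mul, h.2, h'.2]⟩

theorem Supp.sub {S : Finset Ω} {A C : B Ω} (h : Supp S A) (h' : Supp S C) : Supp S (A - C) :=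
  ⟨by rw [mul_sub, h.1, h'.1], by rw [sub_mul, h.2, h'.2]⟩

theorem Supp.smul {S : Finset Ω} {A : B Ω} (h : Supp S A) (c : ℂ) : Supp S (c • A) :=
  ⟨by rw [mul_smul_comm, h.1], by rw [smul_mul_assoc, h.2]⟩

theorem Supp.nsmul {S : Finset Ω} {A : B Ω} (h : Supp S A) (c : ℕ) : Supp S (c • A) :=
  ⟨by rw [mul_smul_comm, h.1], by rw [smul_mul_assoc, h.2]⟩

theorem Supp.mul {S : Finset Ω} {A C : B Ω} (h : Supp S A) (h' : Supp S C) : Supp S (A * C) :=
  ⟨by rw [← mul_assoc, h.1], by rw [mul_assoc, h'.2]⟩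

theorem Supp.star {S : Finset Ω} {A : B Ω} (h : Supp S A) : Supp S (star A) :=
  ⟨by rw [← ind_star, ← star_mul, h.2], by rw [← ind_star, ← star_mul, h.1]⟩

theorem supp_ind (S : Finset Ω) : Supp S (ind (S : Set Ω)) := ⟨ind_idem _, ind_idem _⟩

theorem trS_comm (S : Finset Ω) (A C : B Ω) :
    trS S (A * ind (S : Set Ω) * C) = trS S (C * ind (S : Set Ω) * A) := by
  simp only [trS, ent_mul_ind]
  rw [Finset.sum_comm]
  simp only [mul_comm]

theorem trS_add (S : Finset Ω) (A C : B Ω) : trS S (A + C) = trS S A + trS S C := by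
  simp only [trS, ent_add, Finset.sum_add_distrib]

theorem trS_sub (S : Finset Ω) (A C : B Ω) : trS S (A - C) = trS S A - trS S C := by
  simp only [trS, ent_sub, Finset.sum_sub_distrib]

theorem norm_trS_le (S : Finset Ω) (T : B Ω) : ‖trS S T‖ ≤ S.card * ‖T‖ := by
  refine (norm_sum_le _ _).trans ?_
  simpa using Finset.sum_le_card_nsmul S _ ‖T‖ fun ω _ => norm_ent_le T ω ω

theorem continuous_trS (S : Finset Ω) : Continuous fun T : B Ω => trS S T :=
  continuous_finsetSum _ fun ω _ => continuous_ent ω ω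

theorem trS_ind (S : Finset Ω) : trS S (ind (S : Set Ω)) = S.card := by
  rw [trS, Finset.card_eq_sum_ones, Nat.cast_sum]
  refine Finset.sum_congr rfl fun ω hω => ?_
  rw [ent, ind_apply, if_pos (by simpa using hω), dl_apply, if_pos rfl, Nat.cast_one]

theorem trS_idem {S : Finset Ω} {p : B Ω} (h : Supp S p) (hp : p * p = p) :
    ∃ n : ℕ, trS S p = n := by
  let M : Matrix S S ℂ := Matrix.of fun a b => ent p a b
  have hM : M * M = M := by
    ext a b
    have := ent_mul_ind S p p a b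
    rw [h.2, hp] at this
    rw [Matrix.mul_apply]
    simp only [M, Matrix.of_apply]
    rw [this, Finset.sum_coe_sort S fun v => ent p a v * ent p v b]
  have hi : IsIdempotentElem (Matrix.toLin' M) := by
    rw [IsIdempotentElem, Module.End.mul_eq_comp, ← Matrix.toLin'_mul, hM]
  have ht := (LinearMap.IsIdempotentElem.isProj_range _ hi).trace
  refine ⟨_, Eq.trans ?_ ht⟩
  rw [Matrix.trace_toLin'_eq, trS, Matrix.trace, ← Finset.sum_coe_sort S fun v => ent p v v]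
  rfl

theorem compOp_dl (ι : Ω ↪ Ω') (ω : Ω) : compOp ι (dl (ι ω)) = dl ω :=
  lp.ext (funext fun u => by rw [compOp_apply, dl_apply, dl_apply]; simp)

/-- `T` on `ℓ²(Ω)` is the part of `T'` on `ℓ²(Ω')` seen through `ι`. -/
def Rel (ι : Ω ↪ Ω') (T : B Ω) (T' : B Ω') : Prop := ∀ ξ, compOp ι (T' ξ) = T (compOp ι ξ)

theorem Rel.ent {ι : Ω ↪ Ω'} {T : B Ω} {T' : B Ω'} (h : Rel ι T T') (ω : Ω) :
    ent T ω ω = ent T' (ι ω) (ι ω) := by
  rw [MP_c88791_an.ent, ← compOp_dl ι ω, ← h]; rfl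

theorem Rel.mul {ι : Ω ↪ Ω'} {T U : B Ω} {T' U' : B Ω'} (h : Rel ι T T') (h' : Rel ι U U') :
    Rel ι (T * U) (T' * U') := fun ξ => by rw [mul_app, mul_app, h, h']

theorem Rel.add {ι : Ω ↪ Ω'} {T U : B Ω} {T' U' : B Ω'} (h : Rel ι T T') (h' : Rel ι U U') :
    Rel ι (T + U) (T' + U') := fun ξ => by
  rw [_root_.add_apply, _root_.add_apply, map_add, h, h']

theorem Rel.sub {ι : Ω ↪ Ω'} {T U : B Ω} {T' U' : B Ω'} (h : Rel ι T T') (h' : Rel ι U U') :
    Rel ι (T - U) (T' - U') := fun ξ => by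
  rw [_root_.sub_apply, _root_.sub_apply, map_sub, h, h']

theorem Rel.smul {ι : Ω ↪ Ω'} {T : B Ω} {T' : B Ω'} (h : Rel ι T T') (c : ℂ) :
    Rel ι (c • T) (c • T') := fun ξ => by
  rw [_root_.smul_apply, _root_.smul_apply, map_smul, h]

theorem Rel.nsmul {ι : Ω ↪ Ω'} {T : B Ω} {T' : B Ω'} (h : Rel ι T T') (c : ℕ) :
    Rel ι (c • T) (c • T') := fun ξ => by
  rw [_root_.smul_apply, _root_.smul_apply, map_nsmul, h]

theorem Rel.one (ι : Ω ↪ Ω') : Rel ι 1 1 := fun _ => rfl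

theorem Rel.zero (ι : Ω ↪ Ω') : Rel ι 0 0 := fun _ => by simp

theorem Rel.inv {ι : Ω ↪ Ω'} {u : unitary (B Ω)} {u' : unitary (B Ω')}
    (h : Rel ι (u : B Ω) (u' : B Ω')) :
    Rel ι ((u⁻¹ : unitary (B Ω)) : B Ω) ((u'⁻¹ : unitary (B Ω')) : B Ω') := fun ξ => by
  have h1 := h (((u'⁻¹ : unitary (B Ω')) : B Ω') ξ)
  rw [← mul_app, ← Submonoid.coe_mul, mul_inv_cancel] at h1
  rw [show compOp ι ξ = compOp ι (((1 : unitary (B Ω')) : B Ω') ξ) from rfl, h1, ← mul_app,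
    ← Submonoid.coe_mul, inv_mul_cancel]
  rfl

theorem Rel.zpow {ι : Ω ↪ Ω'} {u : unitary (B Ω)} {u' : unitary (B Ω')}
    (h : Rel ι (u : B Ω) (u' : B Ω')) (n : ℤ) :
    Rel ι ((u ^ n : unitary (B Ω)) : B Ω) ((u' ^ n : unitary (B Ω')) : B Ω') := by
  induction n using Int.induction_on with
  | zero => simpa using Rel.one ι
  | succ n ih => rw [zpow_add_one, zpow_add_one]; exact ih.mul h
  | pred n ih => rw [zpow_sub_one, zpow_sub_one]; exact ih.mul h.inv

theorem rel_ind (ι : Ω ↪ Ω') (S : Set Ω') : Rel ι (ind (ι ⁻¹' S)) (ind S) := fun ξ =>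
  lp.ext (funext fun ω => by
    simp only [compOp_apply, ind_apply, Set.mem_preimage])

theorem rel_perm (ι : Ω ↪ Ω') (σ : Equiv.Perm Ω) (σ' : Equiv.Perm Ω')
    (h : ∀ ω, σ'.symm (ι ω) = ι (σ.symm ω)) : Rel ι (perm σ) (perm σ') := fun ξ =>
  lp.ext (funext fun ω => by simp only [compOp_apply, perm_apply, h])

theorem tr_split (ι₁ ι₂ : Ω ↪ Ω') (hd : ∀ a b, ι₁ a ≠ ι₂ b)
    (hc : ∀ ω', (∃ a, ι₁ a = ω') ∨ ∃ b, ι₂ b = ω') {S : Finset Ω'} {T' : B Ω'} (hs : Supp S T')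
    {T₁ T₂ : B Ω} (h₁ : Rel ι₁ T₁ T') (h₂ : Rel ι₂ T₂ T') : tr T' = tr T₁ + tr T₂ := by
  have hsum := hs.summable
  have e1 : tr T₁ = ∑' ω', (Set.range ι₁).indicator (fun ω' => ent T' ω' ω') ω' := by
    rw [← ι₁.injective.tsum_eq (Set.support_indicator_subset)]
    exact tsum_congr fun ω => by rw [h₁.ent, Set.indicator_of_mem (Set.mem_range_self ω)]
  have e2 : tr T₂ = ∑' ω', (Set.range ι₂).indicator (fun ω' => ent T' ω' ω') ω' := by
    rw [← ι₂.injective.tsum_eq (Set.support_indicator_subset)]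
    exact tsum_congr fun ω => by rw [h₂.ent, Set.indicator_of_mem (Set.mem_range_self ω)]
  rw [e1, e2, ← (hsum.indicator _).tsum_add (hsum.indicator _)]
  refine tsum_congr fun ω' => ?_
  rcases hc ω' with ⟨a, rfl⟩ | ⟨b, rfl⟩
  · rw [Set.indicator_of_mem (Set.mem_range_self a), Set.indicator_of_notMem, add_zero]
    rintro ⟨b, hb⟩; exact hd a b hb.symm
  · rw [Set.indicator_of_mem (Set.mem_range_self b), Set.indicator_of_notMem, zero_add]
    rintro ⟨a, ha⟩; exact hd a b ha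

theorem norm_sq_hasSum (ξ : H Ω) : HasSum (fun ω => ‖ξ ω‖ ^ 2) (‖ξ‖ ^ 2) := by
  have := lp.hasSum_norm two_pos' ξ
  simpa using this

end Pool.Agent.P.MP_c88791_an
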