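import Pool.Agent.P.MP_c88791_an.Transfer

/-! Models built from pairs of commuting isometries, and the path joining
`(S, 1) ⊕ (1, S)` to `(S, S)`. -/

noncomputable section
open scoped Topology Classical
open Filter

namespace Pool.Agent.P.MP_c88791_an

variable {Λ : Type} [AddCommGroup Λ] [LinearOrder Λ]

abbrev ZZ : Type := ℤ × ℤ

def lE (i : ℤ) : B ZZ := ind {ω | ω.1 = i}

def lSh (l : ℤ) : B ZZ := perm (Equiv.prodCongr (Equiv.addRight l) (Equiv.refl ℤ))

def P0 : B ZZ := ind {ω | 0 ≤ ω.2}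

def fp (σ : Equiv.Perm ℤ) : Equiv.Perm ZZ := Equiv.prodCongr (Equiv.refl ℤ) σ

theorem lE_mul (i j : ℤ) : lE i * lE j = if i = j then lE i else 0 := by
  rw [lE, lE, ind_mul]
  split_ifs with h
  · subst h; rw [Set.inter_self]
  · exact ind_eq_zero fun ω hω => h (hω.1.symm.trans hω.2)

def Fib (T : B ZZ) : Prop := (∀ i, T * lE i = lE i * T) ∧ ∀ l, lSh l * T = T * lSh l

theorem Fib.mul {T U : B ZZ} (h : Fib T) (h' : Fib U) : Fib (T * U) :=
  ⟨fun i => by rw [mul_assoc, h'.1, ← mul_assoc, h.1, mul_assoc],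
    fun l => by rw [← mul_assoc, h.2, mul_assoc, h'.2, mul_assoc]⟩

theorem Fib.add {T U : B ZZ} (h : Fib T) (h' : Fib U) : Fib (T + U) :=
  ⟨fun i => by rw [add_mul, mul_add, h.1, h'.1], fun l => by rw [add_mul, mul_add, h.2, h'.2]⟩

theorem Fib.smul {T : B ZZ} (h : Fib T) (c : ℂ) : Fib (c • T) :=
  ⟨fun i => by rw [smul_mul_assoc, mul_smul_comm, h.1],
    fun l => by rw [smul_mul_assoc, mul_smul_comm, h.2]⟩

theorem Fib.one : Fib 1 := ⟨fun _ => by simp, fun _ => by simp⟩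

theorem comm_inv {u : unitary (B ZZ)} {T : B ZZ} (h : (u : B ZZ) * T = T * u) :
    ((u⁻¹ : unitary (B ZZ)) : B ZZ) * T = T * (u⁻¹ : unitary (B ZZ)) := by
  have h1 : ((u⁻¹ : unitary (B ZZ)) : B ZZ) * u = 1 := by
    rw [← Submonoid.coe_mul, inv_mul_cancel]; rfl
  have h2 : (u : B ZZ) * (u⁻¹ : unitary (B ZZ)) = 1 := by
    rw [← Submonoid.coe_mul, mul_inv_cancel]; rfl
  calc _ = ((u⁻¹ : unitary (B ZZ)) : B ZZ) * (T * u) * (u⁻¹ : unitary (B ZZ)) := by
        rw [mul_assoc, mul_assoc, h2, mul_one]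
    _ = _ := by rw [← h, ← mul_assoc, h1, one_mul]

theorem Fib.inv {u : unitary (B ZZ)} (h : Fib (u : B ZZ)) :
    Fib ((u⁻¹ : unitary (B ZZ)) : B ZZ) :=
  ⟨fun i => comm_inv (h.1 i), fun l => (comm_inv (h.2 l).symm).symm⟩

theorem Fib.zpow {u : unitary (B ZZ)} (h : Fib (u : B ZZ)) (n : ℤ) :
    Fib ((u ^ n : unitary (B ZZ)) : B ZZ) := by
  induction n using Int.induction_on with
  | zero => simpa using Fib.one
  | succ n ih => rw [zpow_add_one]; exact ih.mul h
  | pred n ih => rw [zpow_sub_one]; exact ih.mul h.inv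

theorem fib_fp (σ : Equiv.Perm ℤ) : Fib (perm (fp σ)) :=
  ⟨fun i => by rw [lE, perm_ind]; rfl, fun l => by rw [lSh, perm_mul, perm_mul]; rfl⟩

theorem fib_ind (S : Set ℤ) : Fib (ind {ω | ω.2 ∈ S}) :=
  ⟨fun i => ind_comm _ _, fun l => by rw [lSh, perm_ind]; rfl⟩

def Inv (T : B ZZ) : Prop := P0 * (T * P0) = T * P0

theorem P0_idem : P0 * P0 = P0 := ind_idem _

theorem P0_star : star P0 = P0 := ind_star _

theorem Inv.one : Inv 1 := by rw [Inv, one_mul, P0_idem]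

theorem Inv.mul {T U : B ZZ} (h : Inv T) (h' : Inv U) : Inv (T * U) := by
  rw [Inv, mul_assoc, ← h', ← mul_assoc T, ← mul_assoc P0, h]

theorem Inv.of_comm {T : B ZZ} (h : T * P0 = P0 * T) : Inv T := by
  rw [Inv, h, ← mul_assoc, P0_idem]

theorem Inv.zpow {u : unitary (B ZZ)} (h : Inv (u : B ZZ)) {n : ℤ} (hn : 0 ≤ n) :
    Inv ((u ^ n : unitary (B ZZ)) : B ZZ) := by
  obtain ⟨n, rfl⟩ := Int.eq_ofNat_of_zero_le hn
  rw [zpow_natCast]
  induction n with
  | zero => simpa using Inv.one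
  | succ n ih => rw [pow_succ]; exact (ih (by omega)).mul h

theorem inv_fp (σ : Equiv.Perm ℤ) (h : ∀ m, 0 ≤ σ.symm m → 0 ≤ m) : Inv (perm (fp σ)) := by
  rw [Inv, P0, perm_ind, ← mul_assoc, ind_mul_of_subset]
  exact fun ω hω => h ω.2 hω

structure Pair where
  V₁ : unitary (B ZZ)
  V₂ : unitary (B ZZ)
  comm : Commute V₁ V₂
  fib₁ : Fib (V₁ : B ZZ)
  fib₂ : Fib (V₂ : B ZZ)
  inv₁ : Inv (V₁ : B ZZ)
  inv₂ : Inv (V₂ : B ZZ)

namespace Pair

variable (R : Pair)

def u (n m : ℤ) : B ZZ := ((R.V₁ ^ n * R.V₂ ^ m : unitary (B ZZ)) : B ZZ)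

theorem u_mul (n m n' m' : ℤ) : R.u n m * R.u n' m' = R.u (n + n') (m + m') := by
  rw [u, u, u, ← Submonoid.coe_mul, zpow_add, zpow_add,
    (R.comm.zpow_zpow n' m).symm.mul_mul_mul_comm]

theorem u_zero : R.u 0 0 = 1 := by simp [u]

theorem u_star (n m : ℤ) : star (R.u n m) = R.u (-n) (-m) := by
  rw [u, u, ← Unitary.coe_star, Unitary.star_eq_inv, mul_inv_rev, ← zpow_neg, ← zpow_neg,
    (R.comm.zpow_zpow (-n) (-m)).eq]

theorem u_fib (n m : ℤ) : Fib (R.u n m) := (R.fib₁.zpow n).mul (R.fib₂.zpow m)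

theorem u_inv {n m : ℤ} (hn : 0 ≤ n) (hm : 0 ≤ m) : Inv (R.u n m) :=
  (R.inv₁.zpow hn).mul (R.inv₂.zpow hm)

def pu (n m : ℤ) : B ZZ := R.u n m * (P0 * R.u (-n) (-m))

theorem pu_mul {n m n' m' : ℤ} (hn : n ≤ n') (hm : m ≤ m') :
    R.pu n m * R.pu n' m' = R.pu n' m' := by
  have h := R.u_inv (n := -n + n') (m := -m + m') (by omega) (by omega)
  simp only [pu, mul_assoc]
  rw [← mul_assoc (R.u (-n) _) (R.u _ _), u_mul, ← mul_assoc (R.u (-n + n') _) P0, ← mul_assoc P0, h,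
    mul_assoc, ← mul_assoc (R.u _ _) (R.u _ _), u_mul, add_neg_cancel_left, add_neg_cancel_left]

theorem pu_star (n m : ℤ) : star (R.pu n m) = R.pu n m := by
  simp only [pu, star_mul, u_star, P0_star, neg_neg, mul_assoc]

theorem pu_zero : R.pu 0 0 = P0 := by simp [pu, u_zero]

theorem pu_fib (n m : ℤ) : Fib (R.pu n m) :=
  (R.u_fib _ _).mul ((fib_ind (Set.Ici 0)).mul (R.u_fib _ _))

def model (ν ν' : Module.Dual ℤ Λ) : Model Λ ZZ where
  E := lE
  Sh := lSh
  U g := R.u (ν g) (ν' g)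
  P a := R.pu (ν a) (ν' a)
  E_mul := lE_mul
  E_star _ := ind_star _
  Sh_mul l m := by
    rw [lSh, lSh, lSh, perm_mul]
    congr 1
    ext ω
    · change ω.1 + m + l = ω.1 + (l + m)
      ring
    · rfl
  Sh_zero := by
    rw [lSh, ← perm_one]
    congr 1
    ext ω <;> simp
  Sh_star l := by
    rw [lSh, lSh, perm_star]
    congr 1
    ext ω
    · rfl
    · rfl
  Sh_E l j := by
    rw [lSh, lE, lE, perm_ind]
    congr 1
    refine ind_congr fun ω => ?_
    simp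
    omega
  U_mul g h := by rw [u_mul, map_add, map_add]
  U_zero := by rw [map_zero, map_zero, u_zero]
  U_star g := by rw [u_star, map_neg, map_neg]
  U_P g b := by
    simp only [pu, mul_assoc, map_add]
    rw [← mul_assoc (R.u _ _) (R.u _ _), u_mul, u_mul, add_comm (ν g), add_comm (ν' g)]
    congr 3 <;> ring
  P_star _ := R.pu_star _ _
  P_idem _ := R.pu_mul le_rfl le_rfl
  P_E _ i := (R.pu_fib _ _).1 i
  U_E _ i := (R.u_fib _ _).1 i
  Sh_P l _ := (R.pu_fib _ _).2 l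
  Sh_U l _ := (R.u_fib _ _).2 l

theorem model_adm {ν ν' : Module.Dual ℤ Λ} {X : Finset Λ} (h : MonotoneOn ν X)
    (h' : MonotoneOn ν' X) : (R.model ν ν').Adm X :=
  fun _ ha _ hb hab => R.pu_mul (h ha hb hab) (h' ha hb hab)

end Pair

/-! ### The shift -/

def sS : unitary (B ZZ) := permU (fp (Equiv.addRight 1))

theorem sS_zpow (n : ℤ) : ((sS ^ n : unitary (B ZZ)) : B ZZ) = perm (fp (Equiv.addRight n)) := by
  induction n using Int.induction_on with
  | zero =>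
    rw [zpow_zero, Submonoid.coe_one, ← perm_one]
    congr 1
    ext ω <;> simp [fp]
  | succ n ih =>
    rw [zpow_add_one, Submonoid.coe_mul, ih, sS, permU_coe, perm_mul]
    congr 1
    ext ω
    · rfl
    · change ω.2 + 1 + (n : ℤ) = ω.2 + ((n : ℤ) + 1)
      ring
  | pred n ih =>
    rw [zpow_sub_one, Submonoid.coe_mul, ih, sS, ← Unitary.star_eq_inv, Unitary.coe_star,
      permU_coe, perm_star, perm_mul]
    congr 1
    ext ω
    · rfl
    · change ω.2 + -1 + -(n : ℤ) = ω.2 + (-(n : ℤ) - 1)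
      ring

theorem sS_inv : Inv (sS : B ZZ) := inv_fp _ fun m h => by
  change 0 ≤ m + -1 at h
  omega

def pS1 : Pair := ⟨sS, 1, Commute.one_right _, fib_fp _, Fib.one, sS_inv, Inv.one⟩

theorem conj_P0 (n : ℤ) : perm (fp (Equiv.addRight n)) * (P0 * perm (fp (Equiv.addRight (-n)))) =
    ind {ω | n ≤ ω.2} := by
  rw [← mul_assoc, P0, perm_ind, mul_assoc, perm_mul]
  have : fp (Equiv.addRight n) * fp (Equiv.addRight (-n)) = 1 := by
    ext ω <;> simp [fp]
  rw [this, perm_one, mul_one]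
  refine ind_congr fun ω => ?_
  change 0 ≤ ω.2 + -n ↔ n ≤ ω.2
  omega

theorem pS1_u (n m : ℤ) : pS1.u n m = perm (fp (Equiv.addRight n)) := by
  rw [Pair.u, ← sS_zpow]; simp [pS1]

theorem pS1_pu (n m : ℤ) : pS1.pu n m = ind {ω | n ≤ ω.2} := by
  rw [Pair.pu, pS1_u, pS1_u, conj_P0]

def nm (ν : Module.Dual ℤ Λ) : Model Λ ZZ := pS1.model ν 0

/-! ### The path -/

def flipZ : Equiv.Perm ℤ where
  toFun m := if m % 2 = 0 then m + 1 else m - 1
  invFun m := if m % 2 = 0 then m + 1 else m - 1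
  left_inv m := by dsimp only; split_ifs <;> omega
  right_inv m := by dsimp only; split_ifs <;> omega

def oddZ : Equiv.Perm ℤ where
  toFun m := if m % 2 = 0 then m else m + 2
  invFun m := if m % 2 = 0 then m else m - 2
  left_inv m := by dsimp only; split_ifs <;> omega
  right_inv m := by dsimp only; split_ifs <;> omega

def evenZ : Equiv.Perm ℤ where
  toFun m := if m % 2 = 0 then m + 2 else m
  invFun m := if m % 2 = 0 then m - 2 else m
  left_inv m := by dsimp only; split_ifs <;> omega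
  right_inv m := by dsimp only; split_ifs <;> omega

theorem fp_mul (σ τ : Equiv.Perm ℤ) : fp σ * fp τ = fp (σ * τ) := rfl

theorem permU_fp_mul (σ τ : Equiv.Perm ℤ) : permU (fp σ) * permU (fp τ) = permU (fp (σ * τ)) :=
  Subtype.ext (perm_mul _ _)

def Fl : B ZZ := perm (fp flipZ)

theorem Fl_mul : Fl * Fl = 1 := by
  rw [Fl, perm_mul, fp_mul, ← perm_one]
  congr 1
  ext ω
  · rfl
  · exact flipZ.left_inv ω.2

theorem Fl_star : star Fl = Fl := perm_star _

def zt (t : ℝ) : ℂ := Complex.exp (Real.pi * t * Complex.I)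

theorem zt_mul (t : ℝ) : zt t * star (zt t) = 1 := by
  have : ‖zt t‖ = 1 := by
    rw [zt, ← Complex.ofReal_mul]; exact Complex.norm_exp_ofReal_mul_I _
  rw [Complex.star_def, Complex.mul_conj, Complex.normSq_eq_norm_sq, this]; simp

def Wop (z : ℂ) : B ZZ := ((1 + z) / 2) • 1 + ((1 - z) / 2) • Fl

theorem Wop_mul (z w : ℂ) : Wop z * Wop w = Wop (z * w) := by
  simp only [Wop, add_mul, mul_add, smul_mul_assoc, mul_smul_comm, one_mul, mul_one, Fl_mul]
  module

theorem Wop_star (z : ℂ) : star (Wop z) = Wop (star z) := by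
  simp [Wop, Fl_star]

theorem Wop_one : Wop 1 = 1 := by simp [Wop]

def Wt (t : ℝ) : unitary (B ZZ) :=
  ⟨Wop (zt t), by rw [Wop_star, Wop_mul, mul_comm, zt_mul, Wop_one],
    by rw [Wop_star, Wop_mul, zt_mul, Wop_one]⟩

theorem Wop_comm (z : ℂ) {T : B ZZ} (h : Fl * T = T * Fl) : Wop z * T = T * Wop z := by
  simp only [Wop, add_mul, mul_add, smul_mul_assoc, mul_smul_comm, one_mul, mul_one, h]

theorem Fl_P0 : Fl * P0 = P0 * Fl := by
  rw [Fl, P0, perm_ind]
  congr 1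
  refine ind_congr fun ω => ?_
  change 0 ≤ (if ω.2 % 2 = 0 then ω.2 + 1 else ω.2 - 1) ↔ 0 ≤ ω.2
  split_ifs <;> omega

theorem odd_even : permU (fp oddZ) * permU (fp evenZ) = permU (fp (Equiv.addRight 2)) := by
  rw [permU_fp_mul]
  congr 2
  ext m
  change (if (if m % 2 = 0 then m + 2 else m) % 2 = 0 then (if m % 2 = 0 then m + 2 else m)
    else (if m % 2 = 0 then m + 2 else m) + 2) = m + 2
  split_ifs <;> omega

theorem even_odd : permU (fp evenZ) * permU (fp oddZ) = permU (fp (Equiv.addRight 2)) := by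
  rw [permU_fp_mul]
  congr 2
  ext m
  change (if (if m % 2 = 0 then m else m + 2) % 2 = 0 then (if m % 2 = 0 then m else m + 2) + 2
    else (if m % 2 = 0 then m else m + 2)) = m + 2
  split_ifs <;> omega

theorem Wt_two (t : ℝ) :
    Wt t * permU (fp (Equiv.addRight 2)) = permU (fp (Equiv.addRight 2)) * Wt t := by
  refine Subtype.ext (Wop_comm _ ?_)
  rw [permU_coe, Fl, perm_mul, perm_mul, fp_mul, fp_mul]
  congr 2
  ext m
  change (if (m + 2) % 2 = 0 then m + 2 + 1 else m + 2 - 1) =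
    (if m % 2 = 0 then m + 1 else m - 1) + 2
  split_ifs <;> omega

theorem bcl_mul (t : ℝ) : Wt t * permU (fp oddZ) * (permU (fp evenZ) * (Wt t)⁻¹) =
    permU (fp (Equiv.addRight 2)) := by
  rw [mul_assoc, ← mul_assoc (permU _), odd_even, ← mul_assoc, Wt_two, mul_inv_cancel_right]

theorem Wt_fib (t : ℝ) : Fib (Wt t : B ZZ) := (Fib.one.smul _).add ((fib_fp _).smul _)

def bcl (t : ℝ) : Pair where
  V₁ := Wt t * permU (fp oddZ)
  V₂ := permU (fp evenZ) * (Wt t)⁻¹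
  comm := by
    rw [Commute, SemiconjBy, bcl_mul, mul_assoc, inv_mul_cancel_left, even_odd]
  fib₁ := (Wt_fib t).mul (fib_fp _)
  fib₂ := (fib_fp _).mul (Wt_fib t).inv
  inv₁ := (Inv.of_comm (Wop_comm _ Fl_P0)).mul (inv_fp _ fun m h => by
    change 0 ≤ (if m % 2 = 0 then m else m - 2) at h
    split_ifs at h <;> omega)
  inv₂ := Inv.mul (inv_fp _ fun m h => by
    change 0 ≤ (if m % 2 = 0 then m - 2 else m) at h
    split_ifs at h <;> omega) (Inv.of_comm (comm_inv (u := Wt t) (Wop_comm _ Fl_P0)))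

theorem continuous_Wt : Continuous Wt := by
  refine Continuous.subtype_mk ?_ _
  unfold Wop zt
  fun_prop

theorem continuous_u (n m : ℤ) : Continuous fun t => (bcl t).u n m := by
  refine continuous_subtype_val.comp ?_
  exact ((continuous_Wt.mul continuous_const).zpow n).mul
    ((continuous_const.mul continuous_Wt.inv).zpow m)

omit [LinearOrder Λ] in
theorem continuous_rho (ν ν' : Module.Dual ℤ Λ) (y : F Λ) :
    Continuous fun t => ((bcl t).model ν ν').rho y := by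
  simp only [Model.rho_eq]
  refine continuous_finsetSum _ fun p _ => ?_
  have : Continuous fun t => ((bcl t).model ν ν').be p :=
    continuous_const.mul (((continuous_u _ _).mul
      (continuous_const.mul (continuous_u _ _))).mul ((continuous_u _ _).mul continuous_const))
  exact this.const_smul (y p)

theorem bcl_pu_diag (t : ℝ) (n : ℤ) : (bcl t).pu n n = ind {ω | 2 * n ≤ ω.2} := by
  have h : ∀ n, (bcl t).u n n = perm (fp (Equiv.addRight (2 * n))) := by
    intro n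
    rw [Pair.u, ← (bcl t).comm.mul_zpow, ← sS_zpow, zpow_mul]
    congr 2
    exact (bcl_mul t).trans (Subtype.ext (sS_zpow 2).symm)
  rw [Pair.pu, h, h, mul_neg, conj_P0]

theorem Wt_one : Wt 1 = permU (fp flipZ) := by
  refine Subtype.ext ?_
  change Wop (zt 1) = Fl
  simp [zt, Wop]

theorem Wt_zero : Wt 0 = 1 := by
  refine Subtype.ext ?_
  change Wop (zt 0) = 1
  simp [zt, Wop]

theorem bcl_one_u (n m : ℤ) : (bcl 1).u n m = pS1.u (n + m) 0 := by
  have h1 : (bcl 1).V₁ = sS := by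
    change Wt 1 * permU (fp oddZ) = _
    rw [Wt_one, permU_fp_mul, sS]
    congr 2
    ext m
    change (if (if m % 2 = 0 then m else m + 2) % 2 = 0 then (if m % 2 = 0 then m else m + 2) + 1
      else (if m % 2 = 0 then m else m + 2) - 1) = m + 1
    split_ifs <;> omega
  have h2 : (bcl 1).V₂ = sS := by
    change permU (fp evenZ) * (Wt 1)⁻¹ = _
    rw [mul_inv_eq_iff_eq_mul, Wt_one, sS, permU_fp_mul]
    congr 2
    ext m
    change (if m % 2 = 0 then m + 2 else m) = (if m % 2 = 0 then m + 1 else m - 1) + 1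
    split_ifs <;> omega
  rw [Pair.u, h1, h2, ← zpow_add, pS1_u, sS_zpow]

omit [LinearOrder Λ] in
theorem bcl_one_rho (ν ν' : Module.Dual ℤ Λ) (y : F Λ) :
    ((bcl 1).model ν ν').rho y = (nm (ν + ν')).rho y := by
  simp only [Model.rho_eq]
  refine Finset.sum_congr rfl fun p _ => ?_
  simp only [Model.be, Pair.model, nm, Pair.pu, bcl_one_u, LinearMap.add_apply,
    LinearMap.zero_apply, neg_add, neg_zero]

def iOdd : ZZ ↪ ZZ := ⟨fun ω => (ω.1, 2 * ω.2 + 1), fun a b h => by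
  simp only [Prod.mk.injEq] at h
  exact Prod.ext h.1 (by omega)⟩

def iEven : ZZ ↪ ZZ := ⟨fun ω => (ω.1, 2 * ω.2), fun a b h => by
  simp only [Prod.mk.injEq] at h
  exact Prod.ext h.1 (by omega)⟩

theorem Rel.sum {α Ω Ω' : Type} {ι : Ω ↪ Ω'} (s : Finset α) {f : α → B Ω} {g : α → B Ω'}
    (h : ∀ a ∈ s, Rel ι (f a) (g a)) : Rel ι (∑ a ∈ s, f a) (∑ a ∈ s, g a) := by
  induction s using Finset.induction_on with
  | empty => simpa using Rel.zero ι
  | insert a s ha ih =>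
    rw [Finset.sum_insert ha, Finset.sum_insert ha]
    exact (h a (Finset.mem_insert_self _ _)).add
      (ih fun b hb => h b (Finset.mem_insert_of_mem hb))

omit [LinearOrder Λ] in
theorem rel_rho {ι : ZZ ↪ ZZ} {R : Pair} {ν ν' κ : Module.Dual ℤ Λ}
    (h1 : ∀ ω, (ι ω).1 = ω.1) (h2 : ∀ ω l, ((ι ω).1 + l, (ι ω).2) = ι (ω.1 + l, ω.2))
    (h3 : ∀ ω, 0 ≤ (ι ω).2 ↔ 0 ≤ ω.2)
    (hu : ∀ g, Rel ι (pS1.u (κ g) 0) (R.u (ν g) (ν' g))) (y : F Λ) :
    Rel ι ((nm κ).rho y) ((R.model ν ν').rho y) := by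
  have hE : ∀ i, Rel ι (lE i) (lE i) := fun i => by
    have := rel_ind ι {ω | ω.1 = i}
    rwa [show ι ⁻¹' {ω | ω.1 = i} = {ω | ω.1 = i} from Set.ext fun ω => by simp [h1]] at this
  have hP : Rel ι P0 P0 := by
    have := rel_ind ι {ω | 0 ≤ ω.2}
    rwa [show ι ⁻¹' {ω | 0 ≤ ω.2} = {ω | 0 ≤ ω.2} from Set.ext fun ω => by simp [h3]] at this
  have hS : ∀ l, Rel ι (lSh l) (lSh l) := fun l => rel_perm _ _ _ fun ω => h2 ω (-l)
  simp only [Model.rho_eq]
  refine Rel.sum _ fun p _ => ?_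
  refine Rel.smul ((hE _).mul (Rel.mul ((hu _).mul (hP.mul ?_)) ((hu _).mul (hS _)))) _
  have := hu (-p.a)
  simpa only [map_neg, LinearMap.zero_apply, neg_zero] using this

theorem bcl_zero_V : (bcl 0).V₁ = permU (fp oddZ) ∧ (bcl 0).V₂ = permU (fp evenZ) := by
  constructor
  · change Wt 0 * _ = _
    rw [Wt_zero, one_mul]
  · change _ * (Wt 0)⁻¹ = _
    rw [Wt_zero, inv_one, mul_one]

omit [LinearOrder Λ] in
theorem rel_odd (ν ν' : Module.Dual ℤ Λ) (y : F Λ) :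
    Rel iOdd ((nm ν).rho y) (((bcl 0).model ν ν').rho y) := by
  refine rel_rho (fun _ => rfl) (fun _ _ => rfl) (fun ω => ?_) (fun g => ?_) y
  · change 0 ≤ 2 * ω.2 + 1 ↔ _
    omega
  · have h1 : Rel iOdd (sS : B ZZ) (permU (fp oddZ) : B ZZ) := rel_perm _ _ _ fun ω => by
      refine Prod.ext rfl ?_
      change (if (2 * ω.2 + 1) % 2 = 0 then 2 * ω.2 + 1 else 2 * ω.2 + 1 - 2) =
        2 * (ω.2 + -1) + 1
      split_ifs <;> omega
    have h2 : Rel iOdd ((1 : unitary (B ZZ)) : B ZZ) (permU (fp evenZ) : B ZZ) := by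
      rw [Submonoid.coe_one, ← perm_one]
      refine rel_perm _ _ _ fun ω => Prod.ext rfl ?_
      change (if (2 * ω.2 + 1) % 2 = 0 then 2 * ω.2 + 1 - 2 else 2 * ω.2 + 1) = 2 * ω.2 + 1
      split_ifs <;> omega
    have := (h1.zpow (ν g)).mul (h2.zpow (ν' g))
    rw [Pair.u, Pair.u, bcl_zero_V.1, bcl_zero_V.2]
    simpa [pS1] using this

omit [LinearOrder Λ] in
theorem rel_even (ν ν' : Module.Dual ℤ Λ) (y : F Λ) :
    Rel iEven ((nm ν').rho y) (((bcl 0).model ν ν').rho y) := by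
  refine rel_rho (fun _ => rfl) (fun _ _ => rfl) (fun ω => ?_) (fun g => ?_) y
  · change 0 ≤ 2 * ω.2 ↔ _
    omega
  · have h1 : Rel iEven (sS : B ZZ) (permU (fp evenZ) : B ZZ) := rel_perm _ _ _ fun ω => by
      refine Prod.ext rfl ?_
      change (if (2 * ω.2) % 2 = 0 then 2 * ω.2 - 2 else 2 * ω.2) = 2 * (ω.2 + -1)
      split_ifs <;> omega
    have h2 : Rel iEven ((1 : unitary (B ZZ)) : B ZZ) (permU (fp oddZ) : B ZZ) := by
      rw [Submonoid.coe_one, ← perm_one]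
      refine rel_perm _ _ _ fun ω => Prod.ext rfl ?_
      change (if (2 * ω.2) % 2 = 0 then 2 * ω.2 else 2 * ω.2 - 2) = 2 * ω.2
      split_ifs <;> omega
    have := (h2.zpow (ν g)).mul (h1.zpow (ν' g))
    rw [Pair.u, Pair.u, bcl_zero_V.1, bcl_zero_V.2]
    simpa [pS1] using this

theorem odd_even_disj (a b : ZZ) : iOdd a ≠ iEven b := fun h => by
  have : 2 * a.2 + 1 = 2 * b.2 := congrArg Prod.snd h
  omega

theorem odd_even_cover (ω : ZZ) : (∃ a, iOdd a = ω) ∨ ∃ b, iEven b = ω := by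
  rcases Int.emod_two_eq_zero_or_one ω.2 with h | h
  · exact Or.inr ⟨(ω.1, ω.2 / 2), Prod.ext rfl (by change 2 * (ω.2 / 2) = ω.2; omega)⟩
  · exact Or.inl ⟨(ω.1, ω.2 / 2), Prod.ext rfl (by change 2 * (ω.2 / 2) + 1 = ω.2; omega)⟩

end Pool.Agent.P.MP_c88791_an
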