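import Pool.Agent.P.MP_c88791_an.Formal

/-! Norm bounds pass from the true model to every sufficiently admissible model. -/

noncomputable section
open scoped Topology Classical
open Filter

namespace Pool.Agent.P.MP_c88791_an

variable {Λ Λ' Ω : Type} [AddCommGroup Λ] [LinearOrder Λ] [AddCommGroup Λ'] [LinearOrder Λ']

omit [LinearOrder Λ] in
theorem folner (Fs : Finset Λ) : ∃ Φ₀ Φ : Finset Λ, Φ₀.Nonempty ∧
    (∀ c ∈ Φ₀, ∀ g ∈ Fs, c - g ∈ Φ) ∧ Φ.card ≤ 4 * Φ₀.card := by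
  let Φ : ℕ → Finset Λ := fun m =>
    (Fintype.piFinset fun _ : Fs => Finset.range (m + 1)).image fun n => ∑ f : Fs, n f • (-(f : Λ))
  have hne : ∀ m, (Φ m).Nonempty := fun m =>
    Finset.Nonempty.image ⟨fun _ => 0, by simp⟩ _
  have hstep : ∀ m, ∀ c ∈ Φ m, ∀ g ∈ Fs, c - g ∈ Φ (m + 1) := by
    intro m c hc g hg
    obtain ⟨n, hn, rfl⟩ := Finset.mem_image.1 hc
    refine Finset.mem_image.2 ⟨n + Pi.single (⟨g, hg⟩ : Fs) 1, ?_, ?_⟩
    · rw [Fintype.mem_piFinset] at hn ⊢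
      intro f
      have := Finset.mem_range.1 (hn f)
      rw [Finset.mem_range, Pi.add_apply, Pi.single_apply]
      split_ifs <;> omega
    · simp only [Pi.add_apply, add_smul, Finset.sum_add_distrib, Pi.single_apply, ite_smul,
        one_smul, zero_smul, Finset.sum_ite_eq', Finset.mem_univ, if_true]
      abel
  have hcard : ∀ m, (Φ m).card ≤ (m + 1) ^ Fs.card := fun m =>
    Finset.card_image_le.trans (by simp [Fintype.card_piFinset])
  by_contra hcon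
  push Not at hcon
  have hgrow : ∀ m, 4 ^ m ≤ (Φ m).card := by
    intro m
    induction m with
    | zero => exact (hne 0).card_pos
    | succ m ih =>
      have := hcon (Φ m) (Φ (m + 1)) (hne m) (hstep m)
      rw [pow_succ]; omega
  have ht := (tendsto_pow_const_div_const_pow_of_one_lt Fs.card (r := 4) (by norm_num)).comp
    (tendsto_add_atTop_nat 1)
  obtain ⟨m, hm⟩ := (ht.eventually (gt_mem_nhds (show (0 : ℝ) < 1 / 4 by norm_num))).exists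
  have h1 : ((4 : ℝ)) ^ m ≤ ((m + 1 : ℕ) : ℝ) ^ Fs.card := by
    exact_mod_cast (hgrow m).trans (hcard m)
  simp only [Function.comp] at hm
  rw [div_lt_iff₀ (by positivity), pow_succ] at hm
  linarith

theorem norm_sq_eq (T : B Ω) (ξ : H Ω) : ‖T ξ‖ ^ 2 = (inner ℂ ξ ((star T * T) ξ)).re := by
  rw [mul_app, ContinuousLinearMap.star_eq_adjoint, ContinuousLinearMap.adjoint_inner_right,
    ← inner_self_eq_norm_sq (𝕜 := ℂ)]
  rfl

theorem pythag {p : B Ω} (h1 : star p = p) (h2 : p * p = p) (ξ : H Ω) :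
    ‖p ξ‖ ^ 2 + ‖(1 - p) ξ‖ ^ 2 = ‖ξ‖ ^ 2 := by
  have h3 : star (1 - p) * (1 - p) = 1 - p := by
    rw [star_sub, star_one, h1, mul_sub, sub_mul, sub_mul, h2]; simp
  have h4 := norm_sq_eq (1 : B Ω) ξ
  rw [norm_sq_eq, norm_sq_eq, h1, h2, h3, ← Complex.add_re, ← inner_add_right, ← _root_.add_apply,
    add_sub_cancel]
  simpa using h4.symm

omit [AddCommGroup Λ] in
theorem chain (θ : Λ → ℝ) (hθ : StrictMono θ) (P : Λ → B Ω) (h1 : ∀ a, star (P a) = P a)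
    (h2 : ∀ a, P a * P a = P a) (X : Finset Λ) (h : ∀ a ∈ X, ∀ b ∈ X, a ≤ b → P a * P b = P b) :
    ∃ (ι : Type) (_ : Fintype ι) (Q : ι → B Ω) (s : ι → ℝ),
      (∀ ξ, ∑ m, ‖Q m ξ‖ ^ 2 = ‖ξ‖ ^ 2) ∧
      ∀ m, ∀ x ∈ X, Q m * P x = if θ x ≤ s m then Q m else 0 := by
  induction X using Finset.induction_on_max with
  | empty => exact ⟨Unit, inferInstance, fun _ => 1, fun _ => 0, by simp, by simp⟩
  | insert y X hy ih =>
    obtain ⟨ι, _, Q, s, hQ, hs⟩ := ih fun a ha b hb =>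
      h a (Finset.mem_insert_of_mem ha) b (Finset.mem_insert_of_mem hb)
    obtain ⟨c, hc1, hc2⟩ : ∃ c : ℝ, c < θ y ∧ ∀ x ∈ X, θ x ≤ c := by
      rcases X.eq_empty_or_nonempty with rfl | hne
      · exact ⟨θ y - 1, by linarith, by simp⟩
      · exact ⟨θ (X.max' hne), hθ (hy _ (X.max'_mem hne)),
          fun x hx => hθ.monotone (X.le_max' x hx)⟩
    have hl : ∀ x ∈ X, P x * P y = P y := fun x hx =>
      h x (Finset.mem_insert_of_mem hx) y (Finset.mem_insert_self _ _) (hy x hx).le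
    have hr : ∀ x ∈ X, P y * P x = P y := fun x hx => by
      rw [← h1 y, ← h1 x, ← star_mul, hl x hx]
    refine ⟨ι ⊕ ι, inferInstance, Sum.elim (fun m => Q m * P y) fun m => Q m * (1 - P y),
      Sum.elim (fun _ => θ y) fun m => min (s m) c, fun ξ => ?_, ?_⟩
    · simp only [Fintype.sum_sum_type, Sum.elim_inl, Sum.elim_inr, mul_app, hQ]
      exact pythag (h1 y) (h2 y) ξ
    · rintro (m | m) x hx <;> rcases Finset.mem_insert.1 hx with rfl | hx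
      · simp [mul_assoc, h2]
      · simp [mul_assoc, hr x hx, (hθ (hy x hx)).le]
      · simp only [Sum.elim_inr]
        rw [if_neg (by simp only [le_min_iff, not_and, not_le]; exact fun _ => hc1), mul_assoc,
          sub_mul, h2, one_mul, sub_self, mul_zero]
      · simp only [Sum.elim_inr, le_min_iff, hc2 x hx, and_true]
        have : (1 - P y) * P x = P x * (1 - P y) := by
          rw [sub_mul, mul_sub, hl x hx, hr x hx, one_mul, mul_one]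
        rw [mul_assoc, this, ← mul_assoc, hs m x hx]
        split_ifs <;> simp

def act {K : Type} [AddCommMonoid K] [Module ℂ K] (θ : Λ → ℝ) (t : F Λ) (s : ℝ) (o : ℤ × Λ)
    (η : ℤ × Λ → K) : K :=
  ∑ p ∈ t.support, (if p.i = o.1 ∧ θ p.a ≤ s + θ o.2 then t p else 0) • η (p.j, o.2 - p.g)

def Bd (θ : Λ → ℝ) (t : F Λ) (C : ℝ) : Prop :=
  ∀ (s : ℝ) (O J : Finset (ℤ × Λ)) (η : ℤ × Λ → ℂ), (∀ x ∉ J, η x = 0) →
    ∑ o ∈ O, ‖act θ t s o η‖ ^ 2 ≤ C ^ 2 * ∑ x ∈ J, ‖η x‖ ^ 2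

omit [LinearOrder Λ] in
theorem Bd.vec {θ : Λ → ℝ} {t : F Λ} {C : ℝ} (h : Bd θ t C) (s : ℝ) (O J : Finset (ℤ × Λ))
    (η : ℤ × Λ → H Ω) (hη : ∀ x ∉ J, η x = 0) :
    ∑ o ∈ O, ‖act θ t s o η‖ ^ 2 ≤ C ^ 2 * ∑ x ∈ J, ‖η x‖ ^ 2 := by
  have h1 := hasSum_sum fun o (_ : o ∈ O) => norm_sq_hasSum (act θ t s o η)
  have h2 := (hasSum_sum fun x (_ : x ∈ J) => norm_sq_hasSum (η x)).mul_left (C ^ 2)
  refine hasSum_le (fun ω => ?_) h1 h2
  have := h s O J (fun x => η x ω) fun x hx => by rw [hη x hx]; rfl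
  refine le_trans (le_of_eq ?_) this
  refine Finset.sum_congr rfl fun o _ => ?_
  rw [act, act, lp.coeFn_sum, Finset.sum_apply]
  rfl

def Model.IsTrue (M : Model Λ Ω) (θ : Λ → ℝ) : Prop :=
  ∀ s : ℝ, ∃ pt : ℤ × Λ ↪ Ω, ∀ p ξ o, M.be p ξ (pt o) =
    if p.i = o.1 ∧ θ p.a ≤ s + θ o.2 then ξ (pt (p.j, o.2 - p.g)) else 0

omit [LinearOrder Λ] [LinearOrder Λ'] in
theorem Model.IsTrue.comap {M : Model Λ Ω} {θ : Λ → ℝ} (h : M.IsTrue θ) (φ : Λ' →+ Λ)
    (hφ : Function.Injective φ) : (M.comap φ).IsTrue fun a => θ (φ a) := fun s => by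
  obtain ⟨pt, hpt⟩ := h s
  refine ⟨(Function.Embedding.prodMap (Function.Embedding.refl ℤ) ⟨φ, hφ⟩).trans pt,
    fun p ξ o => ?_⟩
  have := hpt ⟨p.i, p.j, φ p.a, φ p.g⟩ ξ (o.1, φ o.2)
  simp only [← map_sub] at this
  exact this

omit [LinearOrder Λ] in
theorem Model.IsTrue.bd {M : Model Λ Ω} {θ : Λ → ℝ} (h : M.IsTrue θ) (t : F Λ) :
    Bd θ t ‖M.rho t‖ := by
  intro s O J η hη
  obtain ⟨pt, hpt⟩ := h s
  let ξ : H Ω := ∑ x ∈ J, η x • dl (pt x)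
  have hξ0 : ∀ ω, ξ ω = ∑ x ∈ J, if ω = pt x then η x else 0 := by
    intro ω
    simp only [ξ]
    rw [lp.coeFn_sum, Finset.sum_apply]
    simp only [lp.coeFn_smul, Pi.smul_apply, dl_apply, smul_eq_mul, mul_ite, mul_one, mul_zero]
  have hξ : ∀ x, ξ (pt x) = η x := by
    intro x
    rw [hξ0]
    simp only [EmbeddingLike.apply_eq_iff_eq, Finset.sum_ite_eq]
    split_ifs with hx
    · rfl
    · exact (hη x hx).symm
  have hn : ‖ξ‖ ^ 2 = ∑ x ∈ J, ‖η x‖ ^ 2 := by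
    refine (norm_sq_hasSum ξ).unique ?_
    have := hasSum_sum_of_ne_finset_zero (f := fun ω => ‖ξ ω‖ ^ 2) (s := J.map pt)
      (L := SummationFilter.unconditional Ω) fun ω hω => by
        rw [hξ0, Finset.sum_eq_zero, norm_zero, zero_pow two_ne_zero]
        intro x hx
        rw [if_neg]
        rintro rfl
        exact hω (Finset.mem_map_of_mem _ hx)
    simpa only [Finset.sum_map, hξ] using this
  have h1 : ∀ o, act θ t s o η = M.rho t ξ (pt o) := by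
    intro o
    rw [M.rho_eq, _root_.sum_apply, lp.coeFn_sum, Finset.sum_apply, act]
    refine Finset.sum_congr rfl fun p _ => ?_
    rw [_root_.smul_apply, lp.coeFn_smul, Pi.smul_apply, hpt, hξ]
    split_ifs <;> simp
  have h2 := sum_le_hasSum (O.map pt) (fun ω _ => sq_nonneg _) (norm_sq_hasSum (M.rho t ξ))
  rw [Finset.sum_map] at h2
  simp only [h1]
  refine h2.trans ?_
  rw [← hn, ← mul_pow]
  exact pow_le_pow_left₀ (norm_nonneg _) ((M.rho t).le_opNorm ξ) 2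

namespace Model

variable (M : Model Λ Ω)

def wv (x : ℤ × Λ) : B Ω := M.Sh (-x.1) * (M.E x.1 * M.U (-x.2))

omit [LinearOrder Λ] in
theorem wv_star (x : ℤ × Λ) : star (M.wv x) * M.wv x = M.E x.1 := by
  simp only [wv, star_mul, M.Sh_star, M.E_star, M.U_star, neg_neg, mul_assoc]
  rw [← mul_assoc (M.Sh _) (M.Sh _), M.Sh_mul, add_neg_cancel, M.Sh_zero, one_mul,
    ← mul_assoc (M.E _) (M.E _), M.E_mul, if_pos rfl, assoc_of (M.U_E _ _), M.U_mul,
    add_neg_cancel, M.U_zero, mul_one]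

omit [LinearOrder Λ] in
theorem wv_be (o : ℤ × Λ) (p : Ix Λ) : M.wv o * M.be p =
    if p.i = o.1 then M.P (p.a - o.2) * M.wv (p.j, o.2 - p.g) else 0 := by
  simp only [wv, be, mul_assoc]
  rw [assoc_of (M.U_E _ _), ← mul_assoc (M.E _) (M.E _), M.E_mul]
  by_cases h : p.i = o.1
  · rw [if_pos h, if_pos h.symm, assoc_of (M.U_P _ _), ← mul_assoc (M.U _) (M.U _), M.U_mul,
      ← assoc_of (M.P_E _ _), assoc_of (M.Sh_P _ _), ← M.Sh_U, ← mul_assoc (M.E _) (M.Sh _), ← h,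
      show M.E p.i * M.Sh (p.i - p.j) = M.Sh (p.i - p.j) * M.E p.j by
        rw [M.Sh_E]; congr 2; omega,
      mul_assoc, ← mul_assoc (M.Sh _) (M.Sh _), M.Sh_mul, ← sub_eq_add_neg, neg_sub,
      neg_add_eq_sub, neg_add_eq_sub]
    congr 3
    omega
  · rw [if_neg h, if_neg (Ne.symm h), zero_mul, mul_zero]

omit [LinearOrder Λ] in
theorem sumE_mul (I : Finset ℤ) (j : ℤ) :
    (∑ i ∈ I, M.E i) * M.E j = if j ∈ I then M.E j else 0 := by
  simp only [Finset.sum_mul, M.E_mul]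
  rw [Finset.sum_ite_eq']

omit [LinearOrder Λ] in
theorem sumE_idem (I : Finset ℤ) : (∑ i ∈ I, M.E i) * (∑ i ∈ I, M.E i) = ∑ i ∈ I, M.E i := by
  rw [Finset.mul_sum]
  exact Finset.sum_congr rfl fun j hj => by rw [sumE_mul, if_pos hj]

omit [LinearOrder Λ] in
theorem sumE_star (I : Finset ℤ) : star (∑ i ∈ I, M.E i) = ∑ i ∈ I, M.E i := by
  simp only [star_sum, M.E_star]

omit [LinearOrder Λ] in
theorem sum_wv (I : Finset ℤ) (Φ : Finset Λ) (ξ : H Ω) :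
    ∑ x ∈ I ×ˢ Φ, ‖M.wv x ξ‖ ^ 2 = Φ.card * ‖(∑ i ∈ I, M.E i) ξ‖ ^ 2 := by
  simp only [norm_sq_eq, wv_star, sumE_star, sumE_idem]
  rw [Finset.sum_product_right]
  simp only [Finset.sum_const, nsmul_eq_mul, _root_.sum_apply, inner_sum,
    Complex.re_sum]

end Model

theorem Bd.ev {θ : Λ →+ ℝ} (hθ : StrictMono θ) {t : F Λ} {C : ℝ} (hC : 0 ≤ C) (h : Bd θ t C) :
    ∀ᶠ M in admF Λ Ω, ‖M.rho t‖ ≤ 2 * C := by
  obtain ⟨Φ₀, Φ, hne, hΦ, hcard⟩ := folner (t.support.image Ix.g)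
  refine ev_adm.2 ⟨(t.support ×ˢ Φ₀).image fun x => x.1.a - x.2, fun M hM => ?_⟩
  obtain ⟨ι, _, Q, s, hQ, hs⟩ := chain θ hθ M.P M.P_star M.P_idem _ hM
  let I : Finset ℤ := t.support.image Ix.i ∪ t.support.image Ix.j
  refine ContinuousLinearMap.opNorm_le_bound _ (by positivity) fun ξ => ?_
  have hI : (∑ i ∈ I, M.E i) * M.rho t = M.rho t := by
    rw [M.rho_eq, Finset.mul_sum]
    refine Finset.sum_congr rfl fun p hp => ?_
    rw [mul_smul_comm, Model.be, ← mul_assoc, M.sumE_mul,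
      if_pos (Finset.mem_union_left _ (Finset.mem_image_of_mem _ hp))]
  have key : ∀ m, ∑ o ∈ I ×ˢ Φ₀, ‖Q m (M.wv o (M.rho t ξ))‖ ^ 2 ≤
      C ^ 2 * ∑ x ∈ I ×ˢ Φ, ‖Q m (M.wv x ξ)‖ ^ 2 := by
    intro m
    have := h.vec (s m) (I ×ˢ Φ₀) (I ×ˢ Φ)
      (fun x => if x ∈ I ×ˢ Φ then Q m (M.wv x ξ) else 0) fun x hx => if_neg hx
    refine le_trans (le_of_eq ?_) (this.trans (le_of_eq ?_))
    · refine Finset.sum_congr rfl fun o ho => ?_
      congr 2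
      rw [← mul_app, ← mul_app, M.rho_eq, Finset.mul_sum, _root_.sum_apply, act]
      refine Finset.sum_congr rfl fun p hp => ?_
      have ho2 := (Finset.mem_product.1 ho).2
      rw [if_pos (show (p.j, o.2 - p.g) ∈ I ×ˢ Φ from Finset.mem_product.2
        ⟨Finset.mem_union_right _ (Finset.mem_image_of_mem _ hp),
          hΦ _ ho2 _ (Finset.mem_image_of_mem _ hp)⟩), mul_smul_comm, mul_assoc, M.wv_be]
      by_cases h1 : p.i = o.1
      · rw [if_pos h1, ← mul_assoc, hs m _ (Finset.mem_image.2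
          ⟨(p, o.2), Finset.mem_product.2 ⟨hp, ho2⟩, rfl⟩), map_sub]
        by_cases h2 : θ p.a ≤ s m + θ o.2
        · rw [if_pos (by linarith), if_pos ⟨h1, h2⟩]; rfl
        · rw [if_neg (fun h3 => h2 (by linarith)), if_neg (fun h3 => h2 h3.2)]; simp
      · rw [if_neg h1, if_neg (fun h3 => h1 h3.1)]; simp
    · congr 1
      exact Finset.sum_congr rfl fun x hx => by rw [if_pos hx]
  have h1 := Finset.sum_le_sum fun m (_ : m ∈ Finset.univ) => key m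
  rw [Finset.sum_comm, ← Finset.mul_sum, Finset.sum_comm (s := Finset.univ)] at h1
  simp only [hQ, M.sum_wv] at h1
  rw [← mul_app, hI] at h1
  have h2 : ‖(∑ i ∈ I, M.E i) ξ‖ ≤ ‖ξ‖ := by
    have := (∑ i ∈ I, M.E i).le_opNorm ξ
    have h3 := norm_le_one_of_proj (M.sumE_star I) (M.sumE_idem I)
    nlinarith [norm_nonneg ξ]
  have h3 : (Φ.card : ℝ) ≤ 4 * Φ₀.card := by exact_mod_cast hcard
  have h4 : (0 : ℝ) < Φ₀.card := by exact_mod_cast hne.card_pos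
  have h5 : ‖(∑ i ∈ I, M.E i) ξ‖ ^ 2 ≤ ‖ξ‖ ^ 2 := pow_le_pow_left₀ (norm_nonneg _) h2 2
  have h6 : (Φ₀.card : ℝ) * ‖M.rho t ξ‖ ^ 2 ≤ Φ₀.card * (2 * C * ‖ξ‖) ^ 2 := by
    refine h1.trans ?_
    calc C ^ 2 * (Φ.card * ‖(∑ i ∈ I, M.E i) ξ‖ ^ 2) ≤ C ^ 2 * (4 * Φ₀.card * ‖ξ‖ ^ 2) := by
          gcongr
      _ = _ := by ring
  exact (pow_le_pow_iff_left₀ (norm_nonneg _) (by positivity) two_ne_zero).1
    (le_of_mul_le_mul_left h6 h4)

theorem Model.IsTrue.ev {Ω₀ : Type} {M₀ : Model Λ Ω₀} {θ : Λ →+ ℝ} (h : M₀.IsTrue θ)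
    (hθ : StrictMono θ) (t : F Λ) : ∀ᶠ M in admF Λ Ω, ‖M.rho t‖ ≤ 2 * ‖M₀.rho t‖ :=
  (h.bd t).ev hθ (norm_nonneg _)

end Pool.Agent.P.MP_c88791_an
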